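import Pool.Agent.W5h54.EN.Main

set_option autoImplicit false

/-!
The inductive step, continued: FIN and the final argument.
-/

namespace Pool.Agent.W5h54.EN

open Matrix Polynomial

section finloc

variable {ι : Type*} [DecidableEq ι] [Fintype ι]
variable {Z : Type*} [CommRing Z] {A : Type*} [Ring A] [Algebra Z A]

lemma EG_ind {A : Type*} [Ring A] (I : Set A) (H : Subgroup (Matrix ι ι A)ˣ)
    (h : ∀ (i j : ι) (hij : i ≠ j), ∀ r ∈ I, tv i j hij r ∈ H) (x : (Matrix ι ι A)ˣ)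
    (hx : x ∈ EG ι I) : x ∈ H := by
  have : EG ι I ≤ H := by
    unfold EG
    rw [Subgroup.closure_le]
    rintro _ ⟨i, j, hij, r, hr, rfl⟩
    exact h i j hij r hr
  exact this hx

/-- the set of the powers -/
def b2 (F : Set Z) (N : ℕ) : Set Z := {w | ∃ z ∈ F, w = z ^ (2 * N)}

lemma cst_dg_conj' {A : Type*} [Ring A] (u : ι → Aˣ) (i j : ι) (hij : i ≠ j) (p : A[X]) :
    cst (dg u) * tv i j hij p * (cst (dg u))⁻¹ =
      tv i j hij (C (u i : A) * p * C (((u j)⁻¹ : Aˣ) : A)) := by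
  have : cst (dg u) = dg (fun i => Units.map (C : A →+* A[X]).toMonoidHom (u i)) := by
    ext1
    refine Matrix.ext fun a b => ?_
    rw [gmap_val, Matrix.map_apply, dg_val, dg_val, diagonal_apply, diagonal_apply]
    split_ifs
    · rfl
    · simp
  rw [this, dg_conj]
  rfl

variable (γ : (Matrix ι ι A)ˣ) (F : Set Z) (N : ℕ)
  (hγ : ∀ z ∈ F, ∀ (p q : ι) (hpq : p ≠ q) (y : A[X]),
    tv p q hpq (algebraMap Z A[X] (z ^ N) * y) ∈ cjs (cst γ) (E ι A[X]))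

include hγ

lemma finloc_a (β : A) (hβ : β ∈ CI A (b2 F N)) (p q : ι) (hpq : p ≠ q) (y : A[X]) :
    tv p q hpq (C β * y) ∈ cjs (cst γ) (E ι A[X]) := by
  refine CI_ind (b2 F N) (fun β => tv p q hpq (C β * y) ∈ cjs (cst γ) (E ι A[X])) ?_ ?_ ?_ β hβ
  · rw [map_zero, zero_mul, tv_zero]; exact one_mem _
  · intro a b ha hb
    rw [map_add, add_mul, ← tv_mul]; exact mul_mem ha hb
  · rintro w ⟨z, hz, rfl⟩ a
    have := hγ z hz p q hpq (algebraMap Z A[X] (z ^ N) * (C a * y))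
    rw [← mul_assoc, ← map_mul, ← pow_add, ← two_mul] at this
    rw [map_mul, ← Polynomial.algebraMap_apply, mul_assoc]
    exact this

lemma finloc_b (h3 : ∀ i j : ι, ∃ k, k ≠ i ∧ k ≠ j) (β : A) (hβ : β ∈ CI A (b2 F N)) (p q : ι)
    (hpq : p ≠ q) (k j : ι) (hkj : k ≠ j) :
    tv k j hkj (X : A[X]) * tv p q hpq (C β) * (tv k j hkj X)⁻¹ ∈ cjs (cst γ) (E ι A[X]) := by
  have nice : ∀ z ∈ F, ∀ (p q : ι) (hpq : p ≠ q), ¬ (p = j ∧ q = k) → ∀ y : A[X],
      tv k j hkj (X : A[X]) * tv p q hpq (algebraMap Z A[X] (z ^ N) * y) * (tv k j hkj X)⁻¹ ∈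
        cjs (cst γ) (E ι A[X]) := by
    intro z hz p q hpq hn y
    by_cases hpj : p = j
    · subst hpj
      have hqk : q ≠ k := fun h => hn ⟨rfl, h⟩
      rw [conj1 k p q hkj hpq hqk.symm]
      refine mul_mem ?_ (hγ z hz _ _ _ _)
      have : (X : A[X]) * (algebraMap Z A[X] (z ^ N) * y) = algebraMap Z A[X] (z ^ N) * (X * y) := by
        rw [← mul_assoc, ← alg_comm, mul_assoc]
      rw [this]
      exact hγ z hz _ _ _ _
    · by_cases hqk : q = k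
      · subst hqk
        rw [conj2 p q j hpq hkj hpj]
        refine mul_mem (hγ z hz _ _ _ _) ?_
        rw [← tv_inv, mul_assoc]
        exact inv_mem (hγ z hz _ _ _ _)
      · rw [tv_commute k j p q hkj hpq hqk (Ne.symm hpj), mul_inv_cancel_right]
        exact hγ z hz _ _ _ _
  refine CI_ind (b2 F N) (fun β => tv k j hkj (X : A[X]) * tv p q hpq (C β) * (tv k j hkj X)⁻¹ ∈
    cjs (cst γ) (E ι A[X])) ?_ ?_ ?_ β hβ
  · rw [map_zero, tv_zero, mul_one, mul_inv_cancel]; exact one_mem _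
  · intro a b ha hb
    have := mul_mem ha hb
    rw [map_add, ← tv_mul]
    convert this using 1
    group
  · rintro w ⟨z, hz, rfl⟩ a
    have e0 : (C (algebraMap Z A (z ^ (2 * N)) * a) : A[X]) =
        algebraMap Z A[X] (z ^ N) * (algebraMap Z A[X] (z ^ N) * C a) := by
      rw [map_mul, ← Polynomial.algebraMap_apply, ← mul_assoc, ← map_mul, ← pow_add, ← two_mul]
    by_cases hn : p = j ∧ q = k
    · obtain ⟨rfl, rfl⟩ := hn
      obtain ⟨l, hlq, hlp⟩ := h3 q p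
      have e : tv p q hpq (C (algebraMap Z A (z ^ (2 * N)) * a) : A[X]) =
          tv p l hlp.symm (algebraMap Z A[X] (z ^ N) * C a) *
          tv l q hlq (algebraMap Z A[X] (z ^ N) * 1) *
          (tv p l hlp.symm (algebraMap Z A[X] (z ^ N) * C a))⁻¹ *
          (tv l q hlq (algebraMap Z A[X] (z ^ N) * 1))⁻¹ := by
        rw [tv_comm_rel p l q hlp.symm hlq hpq, e0, mul_one, alg_comm (z ^ N) (_ * _)]
      rw [e]
      have h1 := nice z hz p l hlp.symm (fun h => hlq h.2) (C a)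
      have h2 := nice z hz l q hlq (fun h => hlp h.1) 1
      have := mul_mem (mul_mem (mul_mem h1 h2) (inv_mem h1)) (inv_mem h2)
      convert this using 1
      group
    · rw [e0]
      exact nice z hz p q hpq hn _

lemma finloc_c (ε : (Matrix ι ι A)ˣ) (hε : ε ∈ EG ι (CI A (b2 F N) : Set A)) :
    cst ε ∈ cjs (cst γ) (E ι A[X]) := by
  have := EG_ind (CI A (b2 F N) : Set A) ((cjs (cst γ) (E ι A[X])).comap (gmap ι C)) (by
    intro i j hij r hr
    rw [Subgroup.mem_comap, gmap_tv]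
    have := finloc_a γ F N hγ r hr i j hij 1
    rwa [mul_one] at this) ε hε
  exact this

lemma finloc_c' (h3 : ∀ i j : ι, ∃ k, k ≠ i ∧ k ≠ j) (ε : (Matrix ι ι A)ˣ)
    (hε : ε ∈ EG ι (CI A (b2 F N) : Set A)) (k j : ι) (hkj : k ≠ j) :
    tv k j hkj (X : A[X]) * cst ε * (tv k j hkj X)⁻¹ ∈ cjs (cst γ) (E ι A[X]) := by
  have := EG_ind (CI A (b2 F N) : Set A)
    ((cjs (tv k j hkj (X : A[X])) (cjs (cst γ) (E ι A[X]))).comap (gmap ι C)) (by
    intro i l hil r hr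
    rw [Subgroup.mem_comap, gmap_tv, mem_cjs]
    exact finloc_b γ F N hγ h3 r hr i l hil k j hkj) ε hε
  exact this

lemma finloc_d (h3 : ∀ i j : ι, ∃ k, k ≠ i ∧ k ≠ j) (ε : (Matrix ι ι A)ˣ)
    (hε : ε ∈ EG ι (CI A (b2 F N) : Set A)) (u : ι → Aˣ)
    (hu : ∀ i, (u i : A) - 1 ∈ CI A (b2 F N)) (k j : ι) (hkj : k ≠ j) :
    cst (ε * dg u) * tv k j hkj (X : A[X]) * (cst (ε * dg u))⁻¹ * (tv k j hkj X)⁻¹ ∈
      cjs (cst γ) (E ι A[X]) := by
  have hβ : (u k : A) * (((u j)⁻¹ : Aˣ) : A) - 1 ∈ CI A (b2 F N) := by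
    have h1 : (u k : A) * (((u j)⁻¹ : Aˣ) : A) - 1 =
        (((u k : A) - 1) - ((u j : A) - 1)) * (((u j)⁻¹ : Aˣ) : A) := by
      rw [sub_sub_sub_cancel_right, sub_mul, Units.mul_inv]
    rw [h1]
    exact (CI A (b2 F N)).mul_mem_right _ (Submodule.sub_mem _ (hu k) (hu j))
  have h1 := finloc_c γ F N hγ ε hε
  have h2 := finloc_c' γ F N hγ h3 ε⁻¹ (inv_mem hε) k j hkj
  have h3' := finloc_a γ F N hγ _ hβ k j hkj X
  have := mul_mem (mul_mem h1 h3') h2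
  convert this using 1
  have e1 : cst (dg u) * tv k j hkj (X : A[X]) * (cst (dg u))⁻¹ =
      tv k j hkj (C ((u k : A) * (((u j)⁻¹ : Aˣ) : A) - 1) * X) * tv k j hkj X := by
    rw [cst_dg_conj', tv_mul]
    congr 1
    rw [map_sub, map_mul, map_one, sub_mul, one_mul, sub_add_cancel, mul_assoc, mul_assoc,
      (commX _).eq]
  rw [cst_mul, cst_inv]
  calc cst ε * cst (dg u) * tv k j hkj (X : A[X]) * (cst ε * cst (dg u))⁻¹ * (tv k j hkj X)⁻¹
      = cst ε * (cst (dg u) * tv k j hkj (X : A[X]) * (cst (dg u))⁻¹) * (cst ε)⁻¹ *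
          (tv k j hkj X)⁻¹ := by group
    _ = _ := by rw [e1]; group

end finloc

section fin

variable {ι : Type*} [DecidableEq ι] [Fintype ι]
variable {Z : Type*} [CommRing Z] {R : Type*} [Ring R] [Algebra Z R]

lemma loc_rep (S : Submonoid Z) (a : LocalizedModule S R) :
    ∃ (c : LocalizedModule S R) (r : R), (∀ x, Commute c x) ∧ a = locMap S R r * c := by
  induction a using LocalizedModule.induction_on with
  | _ m s =>
    refine ⟨LocalizedModule.mk 1 s, m, ?_, ?_⟩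
    · intro x
      induction x using LocalizedModule.induction_on with
      | _ m' s' =>
        show _ * _ = _ * _
        rw [LocalizedModule.mk_mul_mk, LocalizedModule.mk_mul_mk, one_mul, mul_one, mul_comm s s']
    · show _ = LocalizedModule.mk _ _ * _
      rw [LocalizedModule.mk_mul_mk, mul_one, one_mul]

/-- substitution `X ↦ c X^n` with `c` central -/
noncomputable def subst {A : Type*} [Ring A] (c : A) (hc : ∀ x, Commute c x) (n : ℕ) :
    A[X] →+* A[X] :=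
  eval₂RingHom' C (C c * X ^ n) (fun a =>
    (((hc a).symm).map C).mul_right ((commX a).pow_right n))

@[simp] lemma subst_C {A : Type*} [Ring A] (c : A) (hc : ∀ x, Commute c x) (n : ℕ) (a : A) :
    subst c hc n (C a) = C a := by
  show eval₂ _ _ _ = _
  simp

@[simp] lemma subst_X {A : Type*} [Ring A] (c : A) (hc : ∀ x, Commute c x) (n : ℕ) :
    subst c hc n X = C c * X ^ n := by
  show eval₂ _ _ _ = _
  simp

lemma ann_loc (S : Submonoid Z) (g : (Matrix ι ι R)ˣ) (z : Z) (N : ℕ) (p q : ι) (hpq : p ≠ q)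
    (hN : ∀ r : R,
      cst g * tv p q hpq (algebraMap Z R[X] (z ^ N) * (C r * X)) * (cst g)⁻¹ ∈ E ι R[X])
    (y : (LocalizedModule S R)[X]) :
    tv p q hpq (algebraMap Z (LocalizedModule S R)[X] (z ^ N) * y) ∈
      cjs (cst (gmap ι (locMap S R) g)) (E ι (LocalizedModule S R)[X]) := by
  induction y using Polynomial.induction_on' with
  | add a b ha hb => rw [mul_add, ← tv_mul]; exact mul_mem ha hb
  | monomial n a =>
    obtain ⟨c, r, hc, rfl⟩ := loc_rep S a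
    have h1 := gmap_E (mapRingHom (locMap S R)) _ (hN r)
    rw [map_mul, map_mul, map_inv, map_cst, gmap_tv] at h1
    have h2 := gmap_E (subst c hc n) _ h1
    have e1 : gmap ι (subst c hc n) (cst (gmap ι (locMap S R) g)) =
        cst (gmap ι (locMap S R) g) := by
      show gmap ι _ (gmap ι C _) = gmap ι C _
      rw [gmap_comp]
      congr 1
      apply congrArg
      refine RingHom.ext fun p => ?_
      simp
    rw [map_mul, map_mul, map_inv, e1, gmap_tv] at h2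
    rw [mem_cjs]
    convert h2 using 4
    rw [map_mul (mapRingHom _), (isLoc_locMap S).poly.alg, map_mul (subst c hc n)]
    congr 1
    · rw [Polynomial.algebraMap_apply, subst_C]
    · rw [map_mul (mapRingHom _), coe_mapRingHom, map_C, map_X, map_mul (subst c hc n), subst_C,
        subst_X, ← mul_assoc, ← C_mul, C_mul_X_pow_eq_monomial]

lemma b2_le {A : Type*} [Ring A] [Algebra Z A] (s F : Set Z) (hF : F ⊆ s) (N : ℕ) (hN : 1 ≤ N) :
    CI A (b2 F N) ≤ CI A s := by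
  intro x hx
  refine CI_ind _ (fun x => x ∈ CI A s) (Submodule.zero_mem _) (fun a b ha hb =>
    Submodule.add_mem _ ha hb) ?_ x hx
  rintro w ⟨z, hz, rfl⟩ a
  have : 2 * N = (2 * N - 1) + 1 := by omega
  rw [this, pow_succ', map_mul, mul_assoc]
  exact mem_CI s z (hF hz) _

/-- the basic polynomial matrix in FIN -/
noncomputable def thF {A : Type*} [Ring A] (g h : (Matrix ι ι A)ˣ) (k j : ι) (hkj : k ≠ j) :
    (Matrix ι ι A[X])ˣ :=
  cst g * (cst h * tv k j hkj (X : A[X]) * (cst h)⁻¹ * (tv k j hkj X)⁻¹) * (cst g)⁻¹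

lemma thF_map {A A' : Type*} [Ring A] [Ring A'] (f : A →+* A') (g h : (Matrix ι ι A)ˣ) (k j : ι)
    (hkj : k ≠ j) :
    gmap ι (mapRingHom f) (thF g h k j hkj) = thF (gmap ι f g) (gmap ι f h) k j hkj := by
  unfold thF
  have hX : (mapRingHom f) X = X := by simp
  rw [map_mul, map_mul, map_mul, map_mul, map_mul, map_inv, map_inv, map_inv, map_cst, map_cst,
    gmap_tv, hX]

lemma thF_cc {A : Type*} [Ring A] (g h : (Matrix ι ι A)ˣ) (k j : ι)
    (hkj : k ≠ j) :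
    gmap ι (constantCoeff : A[X] →+* A) (thF g h k j hkj) = 1 := by
  unfold thF
  have h0 : (constantCoeff : A[X] →+* A) X = 0 := by simp
  rw [map_mul, map_mul, map_mul, map_mul, map_mul, map_inv, map_inv, map_inv, cc_C, cc_C,
    gmap_tv, h0, tv_zero]
  group

lemma thF_ev {A : Type*} [Ring A] (g h : (Matrix ι ι A)ˣ) (k j : ι)
    (hkj : k ≠ j) :
    gmap ι (ev A) (thF g h k j hkj) = g * (h * tv k j hkj 1 * h⁻¹ * (tv k j hkj 1)⁻¹) * g⁻¹ := by
  unfold thF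
  rw [map_mul, map_mul, map_mul, map_mul, map_mul, map_inv, map_inv, map_inv, ev_cst, ev_cst,
    gmap_tv, ev_X]

lemma thF_good {A : Type*} [Ring A] (hA : SR1 A) (g h : (Matrix ι ι A)ˣ) (k j : ι)
    (hkj : k ≠ j) : thF g h k j hkj ∈ E ι A[X] := by
  have ht : tv k j hkj X ∈ E ι A[X] := tv_memE _ _ _ _
  exact good_conj g (hA.red g) _ (mul_mem (good_conj h (hA.red h) _ ht) (inv_mem ht))

lemma thF_d {A : Type*} [Ring A] [Algebra Z A] (γ : (Matrix ι ι A)ˣ) (F : Set Z) (N : ℕ)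
    (hγ : ∀ z ∈ F, ∀ (p q : ι) (hpq : p ≠ q) (y : A[X]),
      tv p q hpq (algebraMap Z A[X] (z ^ N) * y) ∈ cjs (cst γ) (E ι A[X]))
    (h3 : ∀ i j : ι, ∃ k, k ≠ i ∧ k ≠ j) (ε : (Matrix ι ι A)ˣ)
    (hε : ε ∈ EG ι (CI A (b2 F N) : Set A)) (u : ι → Aˣ)
    (hu : ∀ i, (u i : A) - 1 ∈ CI A (b2 F N)) (k j : ι) (hkj : k ≠ j) :
    thF γ (ε * dg u) k j hkj ∈ E ι A[X] :=
  (mem_cjs _ _ _).1 (finloc_d γ F N hγ h3 ε hε u hu k j hkj)

/-- **FIN** -/
theorem fin_step (h3 : ∀ i j : ι, ∃ k, k ≠ i ∧ k ≠ j) (s : Set Z)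
    (hs : ∀ z ∈ s, Fin1 R z s) (F : Set Z) (hF : F ⊆ s) (g : (Matrix ι ι R)ˣ) (N : ℕ)
    (hN1 : 1 ≤ N)
    (hN : ∀ z ∈ F, ∀ (p q : ι) (hpq : p ≠ q) (r : R),
      cst g * tv p q hpq (algebraMap Z R[X] (z ^ N) * (C r * X)) * (cst g)⁻¹ ∈ E ι R[X])
    (h : (Matrix ι ι R)ˣ) (hh : h ∈ Gam ι (CI R (b2 F N))) (k j : ι) (hkj : k ≠ j) :
    g * (h * tv k j hkj 1 * h⁻¹ * (tv k j hkj 1)⁻¹) * g⁻¹ ∈ E ι R := by
  have key : thF g h k j hkj ∈ E ι R[X] := by
    apply patch_max (Z := Z) h3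
    · exact thF_cc _ _ _ _ _
    · intro P hP
      have hPp : P.IsPrime := hP.isPrime
      rw [thF_map]
      by_cases hsP : ∃ z ∈ s, z ∉ P
      · obtain ⟨z, hz, hzP⟩ := hsP
        exact thF_good (SR1_loc P z hzP ((hs z hz).mono (Set.subset_univ _))) _ _ _ _ _
      · have hsub : s ⊆ P := fun z hz => by
          by_contra hzP
          exact hsP ⟨z, hz, hzP⟩
        have hrad := isRad_loc P s hsub hs
        have hrad2 : IsRad (CI (LocalizedModule P.primeCompl R) (b2 F N)) := fun x hx =>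
          hrad x (b2_le s F hF N hN1 hx)
        obtain ⟨e, he, u, hu', hu⟩ := red_rad _ hrad2 _
          (Gam_map (locMap P.primeCompl R) (CI R (b2 F N))
            (CI (LocalizedModule P.primeCompl R) (b2 F N))
            (fun r hr => CI_map _ (isLoc_locMap _).alg _ r hr) h hh)
        rw [hu]
        exact thF_d (gmap ι (locMap P.primeCompl R) g) F N
          (fun z hz p q hpq y => ann_loc _ g z N p q hpq (hN z hz p q hpq) y) h3 e he u hu' k j hkj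
  have := gmap_E (ev R) _ key
  rwa [thF_ev] at this

lemma CI_finite (s : Set Z) (x : R) (hx : x ∈ CI R s) :
    ∃ F : Finset Z, (F : Set Z) ⊆ s ∧ x ∈ CI R (F : Set Z) := by
  classical
  refine CI_ind s (fun x => ∃ F : Finset Z, (F : Set Z) ⊆ s ∧ x ∈ CI R (F : Set Z)) ?_ ?_ ?_ x hx
  · exact ⟨∅, by simp, Submodule.zero_mem _⟩
  · rintro a b ⟨F, hF, ha⟩ ⟨F', hF', hb⟩
    refine ⟨F ∪ F', by simp [hF, hF'], Submodule.add_mem _ (CI_mono ?_ ha) (CI_mono ?_ hb)⟩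
    · simp
    · simp
  · intro z hz a
    exact ⟨{z}, by simpa using hz, mem_CI _ z (by simp) _⟩

lemma Gam_finite (s : Set Z) (h : (Matrix ι ι R)ˣ) (hh : h ∈ Gam ι (CI R s)) :
    ∃ F : Finset Z, (F : Set Z) ⊆ s ∧ h ∈ Gam ι (CI R (F : Set Z)) := by
  classical
  have h1 : ∀ w : ι × ι, ∃ F : Finset Z, (F : Set Z) ⊆ s ∧
      (h : Matrix ι ι R) w.1 w.2 - (1 : Matrix ι ι R) w.1 w.2 ∈ CI R (F : Set Z) := fun w =>
    CI_finite s _ ((mem_Gam _ h).1 hh w.1 w.2)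
  choose F hF hF' using h1
  refine ⟨Finset.univ.biUnion F, ?_, ?_⟩
  · intro z hz
    simp only [Finset.coe_biUnion, Set.mem_iUnion] at hz
    obtain ⟨w, _, hw⟩ := hz
    exact hF w hw
  · rw [mem_Gam]
    intro i j
    refine CI_mono ?_ (hF' (i, j))
    intro z hz
    simp only [Finset.coe_biUnion, Set.mem_iUnion]
    exact ⟨(i, j), by simp, hz⟩

lemma CI_mul {A : Type*} [Ring A] [Algebra Z A] (I I' : Ideal Z) (x y : A)
    (hx : x ∈ CI A (I : Set Z)) (hy : y ∈ CI A (I' : Set Z)) :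
    x * y ∈ CI A ((I * I' : Ideal Z) : Set Z) := by
  refine CI_ind _ (fun x => x * y ∈ CI A ((I * I' : Ideal Z) : Set Z)) ?_ ?_ ?_ x hx
  · rw [zero_mul]; exact Submodule.zero_mem _
  · intro a b ha hb; rw [add_mul]; exact Submodule.add_mem _ ha hb
  · intro z hz a
    refine CI_ind _ (fun y => algebraMap Z A z * a * y ∈ CI A ((I * I' : Ideal Z) : Set Z))
      ?_ ?_ ?_ y hy
    · rw [mul_zero]; exact Submodule.zero_mem _
    · intro a b ha hb; rw [mul_add]; exact Submodule.add_mem _ ha hb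
    · intro w hw b
      have : algebraMap Z A z * a * (algebraMap Z A w * b) = algebraMap Z A (z * w) * (a * b) := by
        rw [map_mul, mul_assoc, ← mul_assoc a, ← alg_comm w a, mul_assoc, mul_assoc]
      rw [this]
      exact mem_CI _ _ (Ideal.mul_mem_mul hz hw) _

lemma isRad_nil {A : Type*} [Ring A] [Algebra Z A] (F : Finset Z) (n : ℕ)
    (h0 : ∀ z ∈ F, algebraMap Z A (z ^ n) = 0) : IsRad (CI A (F : Set Z)) := by
  set J : Ideal Z := Ideal.span {w | ∃ z ∈ F, w = z ^ n} with hJ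
  obtain ⟨M, hM⟩ : ∃ M, (Ideal.span (F : Set Z)) ^ M ≤ J := by
    apply Ideal.exists_pow_le_of_le_radical_of_fg
    · rw [Ideal.span_le]
      intro z hz
      exact ⟨n, Ideal.subset_span ⟨z, hz, rfl⟩⟩
    · exact ⟨F, rfl⟩
  have hJ0 : J ≤ RingHom.ker (algebraMap Z A) := by
    rw [hJ, Ideal.span_le]
    rintro _ ⟨z, hz, rfl⟩
    exact h0 z hz
  intro x hx
  have hpow : ∀ k : ℕ, x ^ k ∈ CI A (((Ideal.span (F : Set Z)) ^ k : Ideal Z) : Set Z) := by
    intro k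
    induction k with
    | zero =>
      rw [pow_zero, pow_zero]
      have := mem_CI (R := A) ((1 : Ideal Z) : Set Z) 1 (by simp) 1
      simpa using this
    | succ k ih =>
      rw [pow_succ, pow_succ]
      exact CI_mul _ _ _ _ ih (CI_mono Ideal.subset_span hx)
  have hz : x ^ M = 0 := by
    have h1 := CI_mono (R := A) (show (((Ideal.span (F : Set Z)) ^ M : Ideal Z) : Set Z) ⊆ J from hM)
      (hpow M)
    refine CI_ind _ (fun y : A => y = (0 : A)) rfl (fun a b ha hb => by rw [ha, hb, add_zero]) ?_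
      _ h1
    intro z hz a
    have : algebraMap Z A z = 0 := hJ0 hz
    rw [this, zero_mul]
  have hnil : IsNilpotent x := ⟨M, hz⟩
  exact hnil.isUnit_one_add

lemma b2_quot (F : Set Z) (N : ℕ) (z : Z) (hz : z ∈ F) :
    algebraMap Z (R ⧸ CI R (b2 F N)) (z ^ (2 * N)) = 0 := by
  have : algebraMap Z (R ⧸ CI R (b2 F N)) (z ^ (2 * N)) =
      Ideal.Quotient.mk _ (algebraMap Z R (z ^ (2 * N))) := rfl
  rw [this, Ideal.Quotient.eq_zero_iff_mem]
  have := mem_CI (R := R) (b2 F N) (z ^ (2 * N)) ⟨z, hz, rfl⟩ 1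
  rwa [mul_one] at this

/-- **The inductive step.** -/
theorem main_step (h3 : ∀ i j : ι, ∃ k, k ≠ i ∧ k ≠ j) [Nontrivial ι] (s : Set Z)
    (hs : ∀ z ∈ s, Fin1 R z s)
    (hT : ∀ (g : (Matrix ι ι (R ⧸ CI R s))ˣ), ∀ x ∈ E ι (R ⧸ CI R s),
      g * x * g⁻¹ ∈ E ι (R ⧸ CI R s))
    (g : (Matrix ι ι R)ˣ) (x : (Matrix ι ι R)ˣ) (hx : x ∈ E ι R) : g * x * g⁻¹ ∈ E ι R := by
  classical
  -- step 1
  have dec : ∀ (p q : ι) (hpq : p ≠ q) (ρ : R), ∃ e ∈ E ι R, ∃ h ∈ Gam ι (CI R s),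
      g * tv p q hpq ρ * g⁻¹ = e * h := by
    intro p q hpq ρ
    have h1 := hT (gmap ι (Ideal.Quotient.mk _) g) (gmap ι (Ideal.Quotient.mk _) (tv p q hpq ρ))
      (gmap_E _ _ (tv_memE _ _ _ _))
    rw [← map_inv, ← map_mul, ← map_mul] at h1
    obtain ⟨e, he, he'⟩ := lift_EG (Ideal.Quotient.mk (CI R s)) Set.univ Set.univ (by
      intro t _
      obtain ⟨r, hr⟩ := Ideal.Quotient.mk_surjective t
      exact ⟨r, trivial, hr⟩) _ h1
    refine ⟨e, he, e⁻¹ * (g * tv p q hpq ρ * g⁻¹), ?_, by group⟩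
    unfold Gam
    rw [MonoidHom.mem_ker, map_mul, map_inv, he', inv_mul_cancel]
  refine conj_EG_le _ _ _ (fun i j hij r _ => ?_) x hx
  obtain ⟨k, hki, hkj⟩ := h3 i j
  obtain ⟨m, hmi, hmk⟩ := h3 i k
  obtain ⟨a₁, ha₁, c₁, hc₁, hy₁⟩ := dec i m hmi.symm r
  obtain ⟨a₂, ha₂, c₂, hc₂, hy₂⟩ := dec m k hmk 1
  obtain ⟨F₁, hF₁, hcF₁⟩ := Gam_finite s c₁ hc₁
  obtain ⟨F₂, hF₂, hcF₂⟩ := Gam_finite s c₂ hc₂
  set F : Finset Z := F₁ ∪ F₂ with hF
  have hFs : (F : Set Z) ⊆ s := by simp [hF, hF₁, hF₂]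
  have hc1F : c₁ ∈ Gam ι (CI R (F : Set Z)) := Gam_mono (CI_mono (by simp [hF])) hcF₁
  have hc2F : c₂ ∈ Gam ι (CI R (F : Set Z)) := Gam_mono (CI_mono (by simp [hF])) hcF₂
  have hann : ∀ z : F, ∃ N : ℕ, ∀ M, N ≤ M → ∀ (p q : ι) (hpq : p ≠ q) (r : R),
      cst g * tv p q hpq (algebraMap Z R[X] ((z : Z) ^ M) * (C r * X)) * (cst g)⁻¹ ∈
        E ι R[X] := fun z =>
    ann_step h3 _ ((hs z (hFs z.2)).mono (Set.subset_univ _)) g
  choose N₀ hN₀ using hann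
  set N := Finset.univ.sup N₀ + 1 with hN
  have hNF : ∀ z ∈ (F : Set Z), ∀ (p q : ι) (hpq : p ≠ q) (r : R),
      cst g * tv p q hpq (algebraMap Z R[X] (z ^ N) * (C r * X)) * (cst g)⁻¹ ∈ E ι R[X] := by
    intro z hz p q hpq r
    refine hN₀ ⟨z, hz⟩ N ?_ p q hpq r
    have := Finset.le_sup (f := N₀) (Finset.mem_univ (⟨z, hz⟩ : F))
    omega
  -- the ideal b
  set b := CI R (b2 (F : Set Z) N) with hb
  have hrad : IsRad (CI (R ⧸ b) (F : Set Z)) :=
    isRad_nil F (2 * N) (fun z hz => b2_quot (F : Set Z) N z hz)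
  set π := Ideal.Quotient.mk b with hπ
  have hGm : ∀ c ∈ Gam ι (CI R (F : Set Z)), gmap ι π c ∈ Gam ι (CI (R ⧸ b) (F : Set Z)) :=
    fun c hc => Gam_map π _ _ (fun r hr => CI_map π (fun z => rfl) _ r hr) c hc
  set x₁ := g * tv i k hki.symm r * g⁻¹ with hx₁
  have hx₁' : x₁ = (a₁ * c₁) * (a₂ * c₂) * (a₁ * c₁)⁻¹ * (a₂ * c₂)⁻¹ := by
    rw [← hy₁, ← hy₂, hx₁]
    have := tv_comm_rel i m k hmi.symm hmk hki.symm r 1
    rw [mul_one] at this
    rw [← this]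
    group
  have hx₁E : gmap ι π x₁ ∈ E ι (R ⧸ b) := by
    rw [hx₁']
    simp only [map_mul, map_inv]
    exact comm_rad_E _ hrad _ _ _ _ (gmap_E _ _ ha₁) (gmap_E _ _ ha₂) (hGm _ hc1F) (hGm _ hc2F)
  obtain ⟨e₁, he₁, he₁'⟩ := lift_EG π Set.univ Set.univ (by
    intro t _
    obtain ⟨r, hr⟩ := Ideal.Quotient.mk_surjective t
    exact ⟨r, trivial, hr⟩) _ hx₁E
  set h₁ := e₁⁻¹ * x₁ with hh₁
  have hh₁G : h₁ ∈ Gam ι b := by
    unfold Gam
    rw [MonoidHom.mem_ker, hh₁, map_mul, map_inv, he₁', inv_mul_cancel]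
  obtain ⟨e₂, he₂, h₂, hh₂, hx₂⟩ := dec k j hkj 1
  have main : g * tv i j hij r * g⁻¹ =
      e₁ * (g * ((g⁻¹ * h₁ * g) * tv k j hkj 1 * (g⁻¹ * h₁ * g)⁻¹ * (tv k j hkj 1)⁻¹) * g⁻¹) * e₁⁻¹
        * (e₁ * e₂ * (h₂ * e₁⁻¹ * h₂⁻¹) * e₂⁻¹) := by
    have e5 := tv_comm_rel i k j hki.symm hkj hij r 1
    rw [mul_one] at e5
    have e6 : e₁ * e₂ * (h₂ * e₁⁻¹ * h₂⁻¹) * e₂⁻¹ = e₁ * (e₂ * h₂) * e₁⁻¹ * (e₂ * h₂)⁻¹ := by group
    rw [e6, ← hx₂, hh₁, hx₁, ← e5]
    group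
  rw [main]
  refine mul_mem (mul_mem (mul_mem he₁ ?_) (inv_mem he₁)) ?_
  · refine fin_step h3 s hs (F : Set Z) hFs g N (by omega) hNF _ ?_ k j hkj
    have := (Gam_normal (ι := ι) b).conj_mem h₁ hh₁G g⁻¹
    rwa [inv_inv] at this
  · exact mul_mem (mul_mem (mul_mem he₁ he₂) (norm_step h3 s hs h₂ hh₂ _ (inv_mem he₁)))
      (inv_mem he₂)

end fin

end Pool.Agent.W5h54.EN
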