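import Pool.Agent.W5h54.EN.PI
import Pool.Agent.W5h54.EN.Main2

set_option autoImplicit false

/-!
Normality of the elementary group over PI rings.
-/

namespace Pool.Agent.W5h54.EN

open Matrix

section

variable {ι : Type} [DecidableEq ι] [Fintype ι]

theorem rad_reduce {R : Type} [Ring R] (h3 : ∀ i j : ι, ∃ k, k ≠ i ∧ k ≠ j) [Nontrivial ι]
    (N : Ideal R) [N.IsTwoSided] (hN : IsRad N)
    (hQ : ∀ (g : (Matrix ι ι (R ⧸ N))ˣ), ∀ x ∈ E ι (R ⧸ N), g * x * g⁻¹ ∈ E ι (R ⧸ N))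
    (g x : (Matrix ι ι R)ˣ) (hx : x ∈ E ι R) : g * x * g⁻¹ ∈ E ι R := by
  have dec : ∀ (p q : ι) (hpq : p ≠ q) (ρ : R), ∃ e ∈ E ι R, ∃ h ∈ Gam ι N,
      g * tv p q hpq ρ * g⁻¹ = e * h := by
    intro p q hpq ρ
    have h1 := hQ (gmap ι (Ideal.Quotient.mk _) g) (gmap ι (Ideal.Quotient.mk _) (tv p q hpq ρ))
      (gmap_E _ _ (tv_memE _ _ _ _))
    rw [← map_inv, ← map_mul, ← map_mul] at h1
    obtain ⟨e, he, he'⟩ := lift_EG (Ideal.Quotient.mk N) Set.univ Set.univ (by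
      intro t _
      obtain ⟨r, hr⟩ := Ideal.Quotient.mk_surjective t
      exact ⟨r, trivial, hr⟩) _ h1
    refine ⟨e, he, e⁻¹ * (g * tv p q hpq ρ * g⁻¹), ?_, by group⟩
    unfold Gam
    rw [MonoidHom.mem_ker, map_mul, map_inv, he', inv_mul_cancel]
  refine conj_EG_le _ _ _ (fun i j hij r _ => ?_) x hx
  obtain ⟨k, hki, hkj⟩ := h3 i j
  obtain ⟨a₁, ha₁, c₁, hc₁, hy₁⟩ := dec i k hki.symm r
  obtain ⟨a₂, ha₂, c₂, hc₂, hy₂⟩ := dec k j hkj 1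
  have h1 := comm_rad_E N hN a₁ c₁ a₂ c₂ ha₁ ha₂ hc₁ hc₂
  rw [← hy₁, ← hy₂] at h1
  have h2 := tv_comm_rel i k j hki.symm hkj hij r 1
  rw [mul_one] at h2
  rw [← h2]
  convert h1 using 1
  group

theorem normal_Cls (h3 : ∀ i j : ι, ∃ k, k ≠ i ∧ k ≠ j) [Nontrivial ι] (d : ℕ) :
    ∀ (R : Type) [Ring R], Cls d R → ∀ (g x : (Matrix ι ι R)ˣ), x ∈ E ι R →
      g * x * g⁻¹ ∈ E ι R := by
  induction d with
  | zero =>
    intro R _ hR g x _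
    have := Cls_zero hR
    have h1 : g * x * g⁻¹ = 1 := Subsingleton.elim _ _
    rw [h1]
    exact one_mem _
  | succ d ih =>
    intro R _ hR
    apply rad_reduce h3 (Ring.jacobson R) (isRad_jacobson R)
    have hQ : Cls (d + 1) (R ⧸ Ring.jacobson R) := hR.quot _
    have hJ : Ring.jacobson (R ⧸ Ring.jacobson R) = ⊥ := Ring.jacobson_quotient_jacobson R
    obtain ⟨n, hn⟩ : ∃ n, (d + 1) * (d + 1) = n + 1 := ⟨(d + 1) * (d + 1) - 1, by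
      have : 0 < (d + 1) * (d + 1) := by positivity
      omega⟩
    intro g x hx
    exact main_step h3 (sC n (R ⧸ Ring.jacobson R)) (sC_fin hn hQ hJ)
      (fun g x hx => ih _ (sC_quot hn hQ hJ) g x hx) g x hx

theorem normal_PI (h3 : ∀ i j : ι, ∃ k, k ≠ i ∧ k ≠ j) [Nontrivial ι] {m : ℕ}
    {c : Equiv.Perm (Fin m) → ℤ} (hc : c 1 = 1) (R : Type) [Ring R] (hR : MI m c R)
    (g x : (Matrix ι ι R)ˣ) (hx : x ∈ E ι R) : g * x * g⁻¹ ∈ E ι R :=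
  normal_Cls h3 m R (MI_Cls hc hR) g x hx

end

end Pool.Agent.W5h54.EN
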