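import Mathlib

set_option autoImplicit false

/-!
A central polynomial for matrices.
-/

namespace Pool.Agent.W5h54.EN

open Matrix

section defs

variable {R : Type*} [Ring R] {n : ℕ}

/-- the coefficients -/
def bb (y : Fin (n + 1) → R) (u : R) (k i : Fin (n + 1)) : R :=
  if i = 0 then u * y (i + k) else y (i + k)

/-- the central polynomial -/
def cP (x y : Fin (n + 1) → R) (u : R) : R :=
  ∑ k : Fin (n + 1), ∑ σ : Equiv.Perm (Fin (n + 1)), (Equiv.Perm.sign σ : ℤ) •
    (List.ofFn (fun i => x (σ (i + k)) * bb y u k i)).prod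

lemma cP_map {S : Type*} [Ring S] (f : R →+* S) (x y : Fin (n + 1) → R) (u : R) :
    f (cP x y u) = cP (fun i => f (x i)) (fun i => f (y i)) (f u) := by
  unfold cP
  rw [map_sum]
  refine Finset.sum_congr rfl fun k _ => ?_
  rw [map_sum]
  refine Finset.sum_congr rfl fun σ _ => ?_
  rw [map_zsmul, map_list_prod, List.map_ofFn]
  congr 3
  funext i
  simp only [Function.comp_apply, map_mul]
  congr 1
  unfold bb
  split_ifs
  · rw [map_mul]
  · rfl

end defs

section alg

variable (L : Type*) [Field L] {A : Type*} [Ring A] [Algebra L A] {n : ℕ}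

/-- the basic multilinear map -/
noncomputable def mP (b : Fin (n + 1) → A) : MultilinearMap L (fun _ : Fin (n + 1) => A) A :=
  (MultilinearMap.mkPiAlgebraFin L (n + 1) A).compLinearMap (fun i => LinearMap.mulRight L (b i))

lemma mP_apply (b x : Fin (n + 1) → A) :
    mP L b x = (List.ofFn (fun i => x i * b i)).prod := by
  unfold mP
  rw [MultilinearMap.compLinearMap_apply, MultilinearMap.mkPiAlgebraFin_apply]
  rfl

/-- the alternating map -/
noncomputable def cA (y : Fin (n + 1) → A) (u : A) : A [⋀^Fin (n + 1)]→ₗ[L] A :=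
  ∑ k : Fin (n + 1), MultilinearMap.alternatization
    ((mP L (bb y u k)).domDomCongr (Equiv.addRight k))

lemma alt_sum_apply {κ : Type*} (s : Finset κ) (f : κ → A [⋀^Fin (n + 1)]→ₗ[L] A)
    (x : Fin (n + 1) → A) : (∑ k ∈ s, f k) x = ∑ k ∈ s, f k x := by
  classical
  induction s using Finset.induction_on with
  | empty => simp
  | insert a s ha ih =>
    rw [Finset.sum_insert ha, Finset.sum_insert ha, AlternatingMap.add_apply, ih]

lemma cA_apply (y : Fin (n + 1) → A) (u : A) (x : Fin (n + 1) → A) :
    cA L y u x = cP x y u := by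
  unfold cA cP
  rw [alt_sum_apply]
  refine Finset.sum_congr rfl fun k _ => ?_
  rw [MultilinearMap.alternatization_apply]
  refine Finset.sum_congr rfl fun σ _ => ?_
  rw [MultilinearMap.domDomCongr_apply, MultilinearMap.domDomCongr_apply, mP_apply, Units.smul_def]
  rfl

end alg

section trace

variable {L : Type*} [Field L] {m : Type*} [Fintype m] [DecidableEq m] {n : ℕ}

/-- the alternating trace form -/
noncomputable def Df (y : Fin (n + 1) → Matrix m m L) :
    (Matrix m m L) [⋀^Fin (n + 1)]→ₗ[L] L :=
  MultilinearMap.alternatization ((Matrix.traceLinearMap m L L).compMultilinearMap (mP L y))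

lemma Df_apply (y x : Fin (n + 1) → Matrix m m L) :
    Df y x = ∑ σ : Equiv.Perm (Fin (n + 1)), (Equiv.Perm.sign σ : ℤ) •
      (List.ofFn (fun i => x (σ i) * y i)).prod.trace := by
  unfold Df
  rw [MultilinearMap.alternatization_apply]
  refine Finset.sum_congr rfl fun σ _ => ?_
  rw [MultilinearMap.domDomCongr_apply, LinearMap.compMultilinearMap_apply, mP_apply,
    Units.smul_def, Matrix.traceLinearMap_apply]

lemma ofFn_rot {α : Type*} (f : Fin (n + 1) → α) (k : Fin (n + 1)) :
    List.ofFn (fun i => f (i + k)) = (List.ofFn f).rotate k := by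
  apply List.ext_getElem
  · simp
  · intro i h1 h2
    rw [List.getElem_rotate, List.getElem_ofFn, List.getElem_ofFn]
    congr 1
    apply Fin.ext
    simp [Fin.val_add]

lemma trace_rot (l : List (Matrix m m L)) (k : ℕ) (hk : k ≤ l.length) :
    (l.rotate k).prod.trace = l.prod.trace := by
  rw [List.rotate_eq_drop_append_take hk, List.prod_append, Matrix.trace_mul_comm,
    ← List.prod_append, List.take_append_drop]

lemma trace_word (X y : Fin (n + 1) → Matrix m m L) (u z : Matrix m m L) (k : Fin (n + 1)) :
    (z * (List.ofFn (fun i => X (i + k) * bb y u k i)).prod).trace =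
      (List.ofFn (fun i => Function.update X k (z * X k * u) i * y i)).prod.trace := by
  have h1 := trace_rot (List.ofFn (fun i => Function.update X k (z * X k * u) i * y i)) k
    (by simp [k.2.le])
  rw [← ofFn_rot] at h1
  rw [← h1]
  congr 1
  rw [List.ofFn_succ, List.ofFn_succ, List.prod_cons, List.prod_cons]
  have e0 : bb y u k 0 = u * y k := by
    unfold bb
    rw [if_pos rfl, zero_add]
  rw [e0, zero_add, Function.update_self]
  have e1 : (fun i : Fin n => X (i.succ + k) * bb y u k i.succ) =
      fun i : Fin n => Function.update X k (z * X k * u) (i.succ + k) * y (i.succ + k) := by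
    funext i
    have h2 : i.succ + k ≠ k := by
      intro h
      have : i.succ = 0 := by
        simp at h
      exact Fin.succ_ne_zero i this
    rw [Function.update_of_ne h2]
    unfold bb
    rw [if_neg (Fin.succ_ne_zero i)]
  rw [e1]
  simp only [mul_assoc]

lemma trace_cP (x y : Fin (n + 1) → Matrix m m L) (u z : Matrix m m L) :
    (z * cP x y u).trace = ∑ a, Df y (Function.update x a (z * x a * u)) := by
  have h1 : (z * cP x y u).trace = ∑ k : Fin (n + 1), ∑ σ : Equiv.Perm (Fin (n + 1)),
      (Equiv.Perm.sign σ : ℤ) •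
      (List.ofFn (fun i => Function.update x (σ k) (z * x (σ k) * u) (σ i) * y i)).prod.trace := by
    unfold cP
    rw [Finset.mul_sum, Matrix.trace_sum]
    refine Finset.sum_congr rfl fun k _ => ?_
    rw [Finset.mul_sum, Matrix.trace_sum]
    refine Finset.sum_congr rfl fun σ _ => ?_
    rw [mul_smul_comm, Matrix.trace_smul]
    congr 1
    have h2 := trace_word (fun i => x (σ i)) y u z k
    rw [h2]
    congr 4
    funext i
    congr 1
    by_cases hik : i = k
    · subst hik; simp
    · rw [Function.update_of_ne hik, Function.update_of_ne (fun h => hik (σ.injective h))]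
  rw [h1, Finset.sum_comm]
  simp only [Df_apply]
  rw [Finset.sum_comm (s := Finset.univ) (t := Finset.univ)
    (f := fun a σ => (Equiv.Perm.sign σ : ℤ) •
      (List.ofFn fun i => Function.update x a (z * x a * u) (σ i) * y i).prod.trace)]
  refine Finset.sum_congr rfl fun σ _ => ?_
  exact Equiv.sum_comp σ (fun a => (Equiv.Perm.sign σ : ℤ) •
      (List.ofFn fun i => Function.update x a (z * x a * u) (σ i) * y i).prod.trace)

/-- small matrices -/
theorem cP_small (h : Fintype.card m * Fintype.card m < n + 1)
    (x y : Fin (n + 1) → Matrix m m L) (u : Matrix m m L) : cP x y u = 0 := by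
  have hz : ∀ v, Df y v = 0 := by
    intro v
    apply AlternatingMap.map_linearDependent
    intro hli
    have := hli.fintype_card_le_finrank
    rw [Fintype.card_fin, Module.finrank_matrix, Module.finrank_self, mul_one] at this
    omega
  rw [Matrix.ext_iff_trace_mul_left]
  intro z
  rw [trace_cP, mul_zero, Matrix.trace_zero]
  exact Finset.sum_eq_zero fun a _ => hz _

omit [Fintype m] [DecidableEq m] in
lemma det_update (e : Module.Basis (Fin (n + 1)) L (Matrix m m L)) (a : Fin (n + 1))
    (w : Matrix m m L) : e.det (Function.update e a w) = e.repr w a := by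
  rw [Module.Basis.det_apply, Module.Basis.toMatrix_update, ← Matrix.cramer_apply,
    Module.Basis.toMatrix_self, Matrix.cramer_one]
  rfl

omit [Fintype m] [DecidableEq m] in
theorem cramer_det (e : Module.Basis (Fin (n + 1)) L (Matrix m m L))
    (x : Fin (n + 1) → Matrix m m L) (r : Matrix m m L) :
    e.det x • r = ∑ i, e.det (Function.update x i r) • x i := by
  apply e.repr.injective
  ext j
  have h := congrFun (Matrix.mulVec_cramer (e.toMatrix x) (e.repr r)) j
  rw [map_smul, map_sum, Finsupp.smul_apply, Finsupp.finsetSum_apply]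
  simp only [map_smul, Finsupp.smul_apply, smul_eq_mul]
  rw [Pi.smul_apply, smul_eq_mul, ← Module.Basis.det_apply] at h
  rw [← h, Matrix.mulVec, dotProduct]
  refine Finset.sum_congr rfl fun i _ => ?_
  rw [Matrix.cramer_apply, ← Module.Basis.toMatrix_update, ← Module.Basis.det_apply, mul_comm]
  rfl

/-- value of the central polynomial -/
theorem cP_value (e : Module.Basis (Fin (n + 1)) L (Matrix m m L))
    (x y : Fin (n + 1) → Matrix m m L) (u : Matrix m m L) :
    cP x y u = (e.det x * (Df y e * u.trace)) • (1 : Matrix m m L) := by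
  have htr : ∀ z : Matrix m m L, ∑ a, e.repr (z * e a * u) a = z.trace * u.trace := by
    intro z
    have h1 : ∑ a, e.repr (z * e a * u) a =
        LinearMap.trace L (Matrix m m L) (LinearMap.mulLeft L z ∘ₗ LinearMap.mulRight L u) := by
      rw [LinearMap.trace_eq_matrix_trace L e, Matrix.trace]
      refine Finset.sum_congr rfl fun a _ => ?_
      rw [Matrix.diag_apply, LinearMap.toMatrix_apply]
      simp [mul_assoc]
    have h2 : LinearMap.trace L (Matrix m m L) (LinearMap.mulLeft L z ∘ₗ LinearMap.mulRight L u) =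
        z.trace * u.trace := by
      rw [LinearMap.trace_eq_matrix_trace L (Matrix.stdBasis L m m), Matrix.trace]
      rw [Fintype.sum_prod_type, Matrix.trace, Matrix.trace, Finset.sum_mul_sum]
      refine Finset.sum_congr rfl fun p _ => Finset.sum_congr rfl fun q _ => ?_
      rw [Matrix.diag_apply, LinearMap.toMatrix_apply, Matrix.stdBasis_eq_single]
      have h3 : ∀ M : Matrix m m L, (Matrix.stdBasis L m m).repr M (p, q) = M p q := by
        intro M
        simp [Matrix.stdBasis]
      rw [h3, LinearMap.comp_apply, LinearMap.mulLeft_apply, LinearMap.mulRight_apply,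
        Matrix.mul_apply, Finset.sum_eq_single p]
      · rw [Matrix.single_mul_apply_same, one_mul]; rfl
      · intro b _ hb
        rw [Matrix.single_mul_apply_of_ne _ _ _ _ _ hb, mul_zero]
      · simp
    rw [h1, h2]
  rw [Matrix.ext_iff_trace_mul_left]
  intro z
  let f : (Matrix m m L) [⋀^Fin (n + 1)]→ₗ[L] L :=
    ((Matrix.traceLinearMap m L L) ∘ₗ LinearMap.mulLeft L z).compAlternatingMap (cA L y u)
  have hf : ∀ v, f v = (z * cP v y u).trace := by
    intro v
    rw [← cA_apply L]
    rfl
  have h1 : f x = f e * e.det x := by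
    have := congrArg (fun g => g x) (AlternatingMap.eq_smul_basis_det e f)
    simpa using this
  have h2 : f e = Df y e * (z.trace * u.trace) := by
    rw [hf, trace_cP, ← htr, Finset.mul_sum]
    refine Finset.sum_congr rfl fun a _ => ?_
    have := congrArg (fun g => g (Function.update e a (z * e a * u)))
      (AlternatingMap.eq_smul_basis_det e (Df y))
    rw [this]
    show Df y e * e.det _ = _
    rw [det_update]
  rw [← hf, h1, h2, mul_smul_comm, mul_one, Matrix.trace_smul, smul_eq_mul]
  ring

omit [Fintype m] [DecidableEq m] in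
lemma word_single [Fintype m] [DecidableEq m] (x : ℕ → Matrix m m L) (a b : ℕ → m) (k : ℕ) :
    (List.ofFn (fun i : Fin (k + 1) =>
      x (i : ℕ) * single (b (i : ℕ)) (a ((i : ℕ) + 1)) (1 : L))).prod =
      (∏ i ∈ Finset.range k, x (i + 1) (a (i + 1)) (b (i + 1))) •
        (x 0 * single (b 0) (a (k + 1)) (1 : L)) := by
  induction k with
  | zero => simp
  | succ k ih =>
    rw [List.ofFn_succ', List.concat_eq_append, List.prod_append, List.prod_singleton]
    simp only [Fin.val_castSucc, Fin.val_last]
    rw [ih, Finset.prod_range_succ, smul_mul_assoc, mul_smul]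
    congr 1
    have h1 : single (b 0) (a (k + 1)) (1 : L) * x (k + 1) * single (b (k + 1)) (a (k + 1 + 1)) (1 : L)
        = x (k + 1) (a (k + 1)) (b (k + 1)) • single (b 0) (a (k + 1 + 1)) (1 : L) := by
      ext i j
      rw [Matrix.smul_apply, Matrix.mul_apply, Finset.sum_eq_single (b (k + 1))]
      · by_cases hi : i = b 0
        · subst hi
          rw [Matrix.single_mul_apply_same, one_mul]
          by_cases hj : j = a (k + 1 + 1)
          · subst hj; simp
          · simp [Ne.symm hj]
        · rw [Matrix.single_mul_apply_of_ne _ _ _ _ _ hi, zero_mul, single_apply,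
            if_neg (fun h => hi h.1.symm), smul_zero]
      · intro c _ hc
        rw [single_apply, if_neg (fun h => hc h.1.symm), mul_zero]
      · simp
    rw [mul_assoc, ← mul_assoc (single (b 0) (a (k + 1)) (1 : L)), h1, mul_smul_comm]

lemma tr_single (X : Fin (n + 1) → Matrix m m L) (a b : Fin (n + 1) → m) :
    (List.ofFn (fun i : Fin (n + 1) => X i * single (b i) (a (i + 1)) (1 : L))).prod.trace =
      ∏ i, X i (a i) (b i) := by
  have h := word_single (L := L) (fun i => X (Fin.ofNat (n + 1) i)) (fun i => a (Fin.ofNat (n + 1) i))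
    (fun i => b (Fin.ofNat (n + 1) i)) n
  have e1 : ∀ i : Fin (n + 1), Fin.ofNat (n + 1) (i : ℕ) = i := fun i => by
    apply Fin.ext; simp [Fin.ofNat, Nat.mod_eq_of_lt i.2]
  have e2 : ∀ i : Fin (n + 1), Fin.ofNat (n + 1) ((i : ℕ) + 1) = i + 1 := fun i => by
    apply Fin.ext; simp [Fin.ofNat, Fin.val_add]
  simp only [e1, e2] at h
  rw [h, Matrix.trace_smul, Matrix.trace_mul_single]
  have e3 : Fin.ofNat (n + 1) (n + 1) = 0 := by
    apply Fin.ext; simp [Fin.ofNat]
  have e4 : Fin.ofNat (n + 1) 0 = 0 := by
    apply Fin.ext; simp [Fin.ofNat]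
  have e6 : ∏ i ∈ Finset.range n, X (Fin.ofNat (n + 1) (i + 1))
      (a (Fin.ofNat (n + 1) (i + 1))) (b (Fin.ofNat (n + 1) (i + 1))) =
      ∏ i : Fin n, X i.succ (a i.succ) (b i.succ) := by
    rw [← Fin.prod_univ_eq_prod_range (fun i => X (Fin.ofNat (n + 1) (i + 1))
      (a (Fin.ofNat (n + 1) (i + 1))) (b (Fin.ofNat (n + 1) (i + 1)))) n]
    refine Finset.prod_congr rfl fun i _ => ?_
    have e5 : Fin.ofNat (n + 1) ((i : ℕ) + 1) = i.succ := by
      apply Fin.ext
      simp [Fin.ofNat, Nat.mod_eq_of_lt]
    rw [e5]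
  rw [e3, e4, e6, Fin.prod_univ_succ, MulOpposite.op_one, one_smul, smul_eq_mul, mul_comm]

/-- nonvanishing -/
theorem Df_nonvanish (e : m × m ≃ Fin (n + 1)) :
    ∃ y, Df y ((Matrix.stdBasis L m m).reindex e) ≠ 0 := by
  refine ⟨fun i => single (e.symm i).2 (e.symm (i + 1)).1 (1 : L), ?_⟩
  have h1 : Df (fun i => single (e.symm i).2 (e.symm (i + 1)).1 (1 : L))
      ((Matrix.stdBasis L m m).reindex e) = 1 := by
    rw [Df_apply]
    have h2 : ∀ σ : Equiv.Perm (Fin (n + 1)), (List.ofFn (fun i =>
        ((Matrix.stdBasis L m m).reindex e) (σ i) *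
          single (e.symm i).2 (e.symm (i + 1)).1 (1 : L))).prod.trace =
        ∏ i, (1 : Matrix (Fin (n + 1)) (Fin (n + 1)) L) (σ i) i := by
      intro σ
      rw [tr_single (fun i => ((Matrix.stdBasis L m m).reindex e) (σ i)) (fun i => (e.symm i).1)
        (fun i => (e.symm i).2)]
      refine Finset.prod_congr rfl fun i _ => ?_
      rw [Module.Basis.reindex_apply]
      have : (Matrix.stdBasis L m m) (e.symm (σ i)) =
          single (e.symm (σ i)).1 (e.symm (σ i)).2 (1 : L) := by
        rw [← Matrix.stdBasis_eq_single]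
      rw [this, single_apply, Matrix.one_apply]
      by_cases h : σ i = i
      · simp [h]
      · rw [if_neg, if_neg h]
        rintro ⟨h1, h2⟩
        exact h (e.symm.injective (Prod.ext h1 h2))
    have h3 := Matrix.det_apply (1 : Matrix (Fin (n + 1)) (Fin (n + 1)) L)
    rw [Matrix.det_one] at h3
    refine Eq.trans (Finset.sum_congr rfl fun σ _ => ?_) h3.symm
    rw [h2, Units.smul_def]
  rw [h1]
  exact one_ne_zero

end trace

end Pool.Agent.W5h54.EN
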