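import Pool.Agent.W5h54.EN.Loc

set_option autoImplicit false

/-!
Dilation principle and patching for the elementary group.
-/

namespace Pool.Agent.W5h54.EN

open Matrix Polynomial

lemma conj_closure {G : Type*} [Group G] (s : Set G) (H : Subgroup G) (g : G)
    (h : ∀ x ∈ s, g * x * g⁻¹ ∈ H) (x : G) (hx : x ∈ Subgroup.closure s) : g * x * g⁻¹ ∈ H := by
  have : Subgroup.closure s ≤ H.comap (MulAut.conj g).toMonoidHom := by
    rw [Subgroup.closure_le]
    exact h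
  exact this hx

section KG

variable {ι : Type*} [DecidableEq ι] [Fintype ι] {A : Type*} [Ring A]

/-- the group generated by the constant conjugates of transvections in `X * p`. -/
noncomputable def KG (ι : Type*) [DecidableEq ι] [Fintype ι] (A : Type*) [Ring A] :
    Subgroup (Matrix ι ι A[X])ˣ :=
  Subgroup.closure {g | ∃ γ ∈ E ι A, ∃ i j : ι, ∃ h : i ≠ j, ∃ p : A[X],
    g = gmap ι C γ * tv i j h (X * p) * (gmap ι C γ)⁻¹}

lemma KG_conj (γ : (Matrix ι ι A)ˣ) (hγ : γ ∈ E ι A) (κ : (Matrix ι ι A[X])ˣ) (hκ : κ ∈ KG ι A) :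
    gmap ι C γ * κ * (gmap ι C γ)⁻¹ ∈ KG ι A := by
  refine conj_closure _ _ _ ?_ κ hκ
  rintro g ⟨δ, hδ, i, j, hij, p, rfl⟩
  apply Subgroup.subset_closure
  refine ⟨γ * δ, mul_mem hγ hδ, i, j, hij, p, ?_⟩
  rw [map_mul]; group

lemma cc_C (γ : (Matrix ι ι A)ˣ) :
    gmap ι (constantCoeff : A[X] →+* A) (gmap ι C γ) = γ := by
  rw [gmap_comp]
  have : (constantCoeff : A[X] →+* A).comp C = RingHom.id A := by
    ext a; simp
  rw [this, gmap_id]

lemma KG_cc (κ : (Matrix ι ι A[X])ˣ) (hκ : κ ∈ KG ι A) :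
    gmap ι (constantCoeff : A[X] →+* A) κ = 1 := by
  have : KG ι A ≤ (gmap ι (constantCoeff : A[X] →+* A)).ker := by
    unfold KG
    rw [Subgroup.closure_le]
    rintro g ⟨δ, hδ, i, j, hij, p, rfl⟩
    show gmap ι _ _ = 1
    rw [map_mul, map_mul, map_inv, cc_C, gmap_tv]
    have : (constantCoeff : A[X] →+* A) (X * p) = 0 := by
      simp
    rw [this, tv_zero]; group
  exact this hκ

lemma E_decomp (θ : (Matrix ι ι A[X])ˣ) (hθ : θ ∈ E ι A[X]) :
    ∃ κ ∈ KG ι A, ∃ γ ∈ E ι A, θ = κ * gmap ι C γ := by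
  unfold E EG at hθ
  induction hθ using Subgroup.closure_induction with
  | mem x hx =>
    obtain ⟨i, j, hij, r, _, rfl⟩ := hx
    refine ⟨tv i j hij (X * divX r), Subgroup.subset_closure ⟨1, one_mem _, i, j, hij, divX r, ?_⟩,
      tv i j hij (r.coeff 0), tv_memE _ _ _ _, ?_⟩
    · rw [map_one]; group
    · rw [gmap_tv, tv_mul]
      congr 1
      exact (X_mul_divX_add r).symm
  | one => exact ⟨1, one_mem _, 1, one_mem _, by rw [map_one, one_mul]⟩
  | mul x y _ _ hx hy =>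
    obtain ⟨κ, hκ, γ, hγ, rfl⟩ := hx
    obtain ⟨κ', hκ', γ', hγ', rfl⟩ := hy
    refine ⟨κ * (gmap ι C γ * κ' * (gmap ι C γ)⁻¹), mul_mem hκ (KG_conj γ hγ _ hκ'), γ * γ',
      mul_mem hγ hγ', ?_⟩
    rw [map_mul]; group
  | inv x _ hx =>
    obtain ⟨κ, hκ, γ, hγ, rfl⟩ := hx
    refine ⟨gmap ι C γ⁻¹ * κ⁻¹ * (gmap ι C γ⁻¹)⁻¹, KG_conj _ (inv_mem hγ) _ (inv_mem hκ), γ⁻¹,
      inv_mem hγ, ?_⟩
    rw [map_inv]; group

lemma E_mem_KG (θ : (Matrix ι ι A[X])ˣ) (hθ : θ ∈ E ι A[X])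
    (h1 : gmap ι (constantCoeff : A[X] →+* A) θ = 1) : θ ∈ KG ι A := by
  obtain ⟨κ, hκ, γ, hγ, rfl⟩ := E_decomp θ hθ
  rw [map_mul, cc_C, KG_cc κ hκ, one_mul] at h1
  rw [h1, map_one, mul_one]
  exact hκ

end KG

section dil

variable {ι : Type*} [DecidableEq ι] [Fintype ι]
variable {Z : Type*} [CommRing Z] {A : Type*} [Ring A] [Algebra Z A] {A' : Type*} [Ring A']
  [Algebra Z A']

/-- image in `GL(A'[X])` of the group generated by the transvections in `t * y`, `y : A[X]`. -/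
noncomputable def HG (ι : Type*) [DecidableEq ι] [Fintype ι] (f : A →+* A') (t : Z) :
    Subgroup (Matrix ι ι A'[X])ˣ :=
  (EG ι {p : A[X] | ∃ y, p = algebraMap Z A[X] t * y}).map (gmap ι (mapRingHom f))

lemma HG_tv (f : A →+* A') (t : Z) (i j : ι) (h : i ≠ j) (y : A[X]) (y' : A'[X])
    (hy : y' = mapRingHom f (algebraMap Z A[X] t * y)) :
    tv i j h y' ∈ HG ι f t := by
  rw [hy]
  exact ⟨tv i j h (algebraMap Z A[X] t * y), tv_mem _ _ _ _ _ ⟨y, rfl⟩, gmap_tv _ _ _ _ _⟩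

lemma HG_conj_le (f : A →+* A') (s t : Z) (g : (Matrix ι ι A'[X])ˣ)
    (h : ∀ p q : ι, ∀ hpq : p ≠ q, ∀ y : A[X],
      g * tv p q hpq (mapRingHom f (algebraMap Z A[X] s * y)) * g⁻¹ ∈ HG ι f t)
    (x : (Matrix ι ι A'[X])ˣ) (hx : x ∈ HG ι f s) : g * x * g⁻¹ ∈ HG ι f t := by
  unfold HG EG at hx
  rw [MonoidHom.map_closure] at hx
  refine conj_closure _ _ _ ?_ x hx
  rintro _ ⟨_, ⟨i, j, hij, r, ⟨y, rfl⟩, rfl⟩, rfl⟩
  rw [gmap_tv]
  exact h _ _ _ _

lemma HG_mono (f : A →+* A') (s t : Z) : HG ι f (t * s) ≤ HG ι f t := by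
  unfold HG
  apply Subgroup.map_mono
  apply EG_mono
  rintro p ⟨y, rfl⟩
  exact ⟨algebraMap Z A[X] s * y, by rw [map_mul, mul_assoc]⟩

/-- property of constants -/
def PP (ι : Type*) [DecidableEq ι] [Fintype ι] (S : Submonoid Z) (f : A →+* A')
    (γ : (Matrix ι ι A')ˣ) : Prop :=
  ∀ t ∈ S, ∃ s ∈ S, ∀ x ∈ HG ι f s, gmap ι C γ * x * (gmap ι C γ)⁻¹ ∈ HG ι f t

lemma PP_mul {S : Submonoid Z} {f : A →+* A'} {γ δ : (Matrix ι ι A')ˣ} (h : PP ι S f γ)
    (h' : PP ι S f δ) : PP ι S f (γ * δ) := by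
  intro t ht
  obtain ⟨s, hs, hs'⟩ := h t ht
  obtain ⟨u, hu, hu'⟩ := h' s hs
  refine ⟨u, hu, fun x hx => ?_⟩
  have := hs' _ (hu' x hx)
  rw [map_mul]
  convert this using 1
  group

lemma PP_one {S : Submonoid Z} {f : A →+* A'} : PP ι S f 1 := by
  intro t ht
  refine ⟨t, ht, fun x hx => ?_⟩
  rw [map_one]
  simpa using hx

lemma PP_tv (h3 : ∀ i j : ι, ∃ k, k ≠ i ∧ k ≠ j) {S : Submonoid Z} {f : A →+* A'}
    (hf : IsLoc S f) (i j : ι) (hij : i ≠ j) (ρ : A') : PP ι S f (tv i j hij ρ) := by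
  intro t ht
  obtain ⟨s₀, hs₀, r, hr⟩ := hf.surj ρ
  have halg := hf.poly.alg
  have nice : ∀ p q (hpq : p ≠ q), ¬ (p = j ∧ q = i) → ∀ y : A[X],
      gmap ι C (tv i j hij ρ) * tv p q hpq (mapRingHom f (algebraMap Z A[X] (t * s₀) * y)) *
        (gmap ι C (tv i j hij ρ))⁻¹ ∈ HG ι f t := by
    intro p q hpq hn y
    have base : ∀ (a b : ι) (hab : a ≠ b),
        tv a b hab (mapRingHom f (algebraMap Z A[X] (t * s₀) * y)) ∈ HG ι f t := by
      intro a b hab
      apply HG_tv f t a b hab (algebraMap Z A[X] s₀ * y)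
      rw [map_mul (algebraMap Z A[X]), mul_assoc]
    have hr' : algebraMap Z A'[X] s₀ * C ρ = mapRingHom f (C r) := by
      rw [Polynomial.algebraMap_apply, ← C_mul, hr, coe_mapRingHom, map_C]
    rw [gmap_tv]
    by_cases hpj : p = j
    · subst hpj
      have hqi : q ≠ i := fun h => hn ⟨rfl, h⟩
      rw [conj1 i p q hij hpq hqi.symm]
      refine mul_mem ?_ (base _ _ _)
      apply HG_tv f t i q _ (C r * y)
      rw [map_mul (mapRingHom f), map_mul (mapRingHom f), map_mul (mapRingHom f), ← hr', halg,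
        halg, map_mul (algebraMap Z A'[X])]
      set F := (mapRingHom f) y
      calc C ρ * (algebraMap Z A'[X] t * algebraMap Z A'[X] s₀ * F)
          = C ρ * algebraMap Z A'[X] t * (algebraMap Z A'[X] s₀ * F) := by simp only [mul_assoc]
        _ = algebraMap Z A'[X] t * (C ρ * algebraMap Z A'[X] s₀) * F := by
            rw [← alg_comm]; simp only [mul_assoc]
        _ = _ := by rw [← alg_comm s₀ (C ρ)]; simp only [mul_assoc]
    · by_cases hqi : q = i
      · subst hqi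
        rw [conj2 p q j hpq hij hpj]
        refine mul_mem (base _ _ _) ?_
        rw [← tv_inv p j hpj]
        apply inv_mem
        apply HG_tv f t p j _ (y * C r)
        rw [map_mul (mapRingHom f), map_mul (mapRingHom f), map_mul (mapRingHom f), ← hr', halg,
          halg, map_mul (algebraMap Z A'[X])]
        simp only [mul_assoc]
        congr 1
        rw [← mul_assoc, alg_comm, mul_assoc]
      · rw [tv_commute i j p q hij hpq hqi (Ne.symm hpj)]
        rw [mul_inv_cancel_right]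
        exact base _ _ _
  refine ⟨(t * s₀) * (t * s₀), mul_mem (mul_mem ht hs₀) (mul_mem ht hs₀), ?_⟩
  apply HG_conj_le
  intro p q hpq y
  by_cases hn : p = j ∧ q = i
  · obtain ⟨rfl, rfl⟩ := hn
    obtain ⟨k, hkq, hkp⟩ := h3 q p
    have e : tv p q hpq (mapRingHom f (algebraMap Z A[X] (t * s₀ * (t * s₀)) * y)) =
        tv p k hkp.symm (mapRingHom f (algebraMap Z A[X] (t * s₀) * y)) *
        tv k q hkq (mapRingHom f (algebraMap Z A[X] (t * s₀) * 1)) *
        (tv p k hkp.symm (mapRingHom f (algebraMap Z A[X] (t * s₀) * y)))⁻¹ *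
        (tv k q hkq (mapRingHom f (algebraMap Z A[X] (t * s₀) * 1)))⁻¹ := by
      rw [tv_comm_rel p k q hkp.symm hkq hpq, ← map_mul]
      congr 2
      rw [mul_one, map_mul (algebraMap Z A[X]) (t * s₀) (t * s₀), mul_assoc, mul_assoc,
        alg_comm (t * s₀) y]
    rw [e]
    have h1 := nice p k hkp.symm (fun h => hkq h.2) y
    have h2 := nice k q hkq (fun h => hkp h.1) 1
    have := mul_mem (mul_mem (mul_mem h1 h2) (inv_mem h1)) (inv_mem h2)
    convert this using 1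
    group
  · have := nice p q hpq hn (algebraMap Z A[X] (t * s₀) * y)
    rwa [← mul_assoc (algebraMap Z A[X] (t * s₀)), ← map_mul] at this

lemma PP_E (h3 : ∀ i j : ι, ∃ k, k ≠ i ∧ k ≠ j) {S : Submonoid Z} {f : A →+* A'}
    (hf : IsLoc S f) (γ : (Matrix ι ι A')ˣ) (hγ : γ ∈ E ι A') : PP ι S f γ := by
  have key : PP ι S f γ ∧ PP ι S f γ⁻¹ := by
    unfold E EG at hγ
    induction hγ using Subgroup.closure_induction with
    | mem x hx =>
      obtain ⟨i, j, hij, r, _, rfl⟩ := hx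
      refine ⟨PP_tv h3 hf _ _ _ _, ?_⟩
      rw [tv_inv]
      exact PP_tv h3 hf _ _ _ _
    | one => exact ⟨PP_one, by rw [inv_one]; exact PP_one⟩
    | mul x y _ _ hx hy =>
      refine ⟨PP_mul hx.1 hy.1, ?_⟩
      rw [_root_.mul_inv_rev]
      exact PP_mul hy.2 hx.2
    | inv x _ hx =>
      rw [inv_inv]
      exact ⟨hx.2, hx.1⟩
  exact key.1

lemma sc_map (f : A →+* A') (hf : ∀ z : Z, f (algebraMap Z A z) = algebraMap Z A' z) (s : Z)
    (p : A[X]) : sc s (mapRingHom f p) = mapRingHom f (sc s p) := by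
  ext k
  rw [sc_coeff, coe_mapRingHom, coeff_map, coeff_map, sc_coeff, map_mul, hf]

lemma sc_alg (s z : Z) : sc s (algebraMap Z A[X] z) = algebraMap Z A[X] z := by
  rw [Polynomial.algebraMap_apply, sc_C]

lemma sc_eq (u : Z) (p q : A[X]) (h0 : p.coeff 0 = q.coeff 0)
    (hk : ∀ k, algebraMap Z A u * p.coeff k = algebraMap Z A u * q.coeff k) :
    sc u p = sc u q := by
  refine Polynomial.ext fun k => ?_
  rw [sc_coeff, sc_coeff]
  rcases k with _ | k
  · rw [h0]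
  · rw [pow_succ, map_mul, mul_assoc, mul_assoc, hk]

lemma QQ_gen (h3 : ∀ i j : ι, ∃ k, k ≠ i ∧ k ≠ j) {S : Submonoid Z} {f : A →+* A'}
    (hf : IsLoc S f) (κ : (Matrix ι ι A'[X])ˣ) (hκ : κ ∈ KG ι A') :
    ∃ s ∈ S, ∀ u : Z, gmap ι (sc (s * u)) κ ∈ HG ι f (1 : Z) := by
  unfold KG at hκ
  induction hκ using Subgroup.closure_induction with
  | mem x hx =>
    obtain ⟨γ, hγ, i, j, hij, g, rfl⟩ := hx
    obtain ⟨s₁, hs₁, h1⟩ := PP_E h3 hf γ hγ 1 (one_mem _)
    obtain ⟨s₂, hs₂, g', hg'⟩ := hf.poly.surj g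
    refine ⟨s₁ * s₂, mul_mem hs₁ hs₂, fun u => ?_⟩
    rw [map_mul, map_mul, map_inv, gmap_tv, gmap_comp]
    have e : (sc (s₁ * s₂ * u) : A'[X] →+* A'[X]).comp C = C := by
      ext a; simp
    rw [e]
    apply h1
    apply HG_tv f s₁ i j hij (algebraMap Z A[X] u * (X * sc (s₁ * s₂ * u) g'))
    have halg := hf.poly.alg
    rw [map_mul, map_mul (mapRingHom f), map_mul (mapRingHom f), map_mul (mapRingHom f),
      ← sc_map f hf.alg, ← hg', halg, halg, map_mul (sc (s₁ * s₂ * u)), sc_alg, sc_X]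
    have hX : (mapRingHom f) X = X := by simp
    rw [hX, map_mul (algebraMap Z A'[X]), map_mul (algebraMap Z A'[X])]
    have c1 := fun z : Z => fun y : A'[X] => alg_comm z y
    set G := sc (s₁ * s₂ * u) g
    calc algebraMap Z A'[X] s₁ * algebraMap Z A'[X] s₂ * algebraMap Z A'[X] u * X * G
        = algebraMap Z A'[X] s₁ * (algebraMap Z A'[X] s₂ * (algebraMap Z A'[X] u * X)) * G := by
          simp only [mul_assoc]
      _ = algebraMap Z A'[X] s₁ * ((algebraMap Z A'[X] u * X) * algebraMap Z A'[X] s₂) * G := by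
          rw [c1 s₂]
      _ = _ := by simp only [mul_assoc]
  | one => exact ⟨1, one_mem _, fun u => by rw [map_one]; exact one_mem _⟩
  | mul x y _ _ hx hy =>
    obtain ⟨s, hs, hs'⟩ := hx
    obtain ⟨t, ht, ht'⟩ := hy
    refine ⟨s * t, mul_mem hs ht, fun u => ?_⟩
    rw [map_mul]
    refine mul_mem ?_ ?_
    · rw [mul_assoc]; exact hs' _
    · rw [mul_comm s t, mul_assoc]; exact ht' _
  | inv x _ hx =>
    obtain ⟨s, hs, hs'⟩ := hx
    refine ⟨s, hs, fun u => ?_⟩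
    rw [map_inv]
    exact inv_mem (hs' u)

/-- **Dilation principle** -/
theorem dilation (h3 : ∀ i j : ι, ∃ k, k ≠ i ∧ k ≠ j) {S : Submonoid Z} {f : A →+* A'}
    (hf : IsLoc S f) (ψ : (Matrix ι ι A[X])ˣ)
    (hψ : gmap ι (constantCoeff : A[X] →+* A) ψ = 1)
    (hE : gmap ι (mapRingHom f) ψ ∈ E ι A'[X]) :
    ∃ s ∈ S, gmap ι (sc s) ψ ∈ E ι A[X] := by
  have ccmap : (constantCoeff : A'[X] →+* A').comp (mapRingHom f) =
      f.comp (constantCoeff : A[X] →+* A) := by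
    apply RingHom.ext
    intro p; simp
  have mapC : (mapRingHom f).comp (C : A →+* A[X]) = (C : A' →+* A'[X]).comp f := by
    apply RingHom.ext
    intro p; simp
  have h1 : gmap ι (constantCoeff : A'[X] →+* A') (gmap ι (mapRingHom f) ψ) = 1 := by
    rw [gmap_comp, ccmap, ← gmap_comp, hψ, map_one]
  obtain ⟨s, hs, hs'⟩ := QQ_gen h3 hf _ (E_mem_KG _ hE h1)
  have hs1 := hs' 1
  rw [mul_one] at hs1
  obtain ⟨ε, hε, hε'⟩ := hs1
  have hεE : ε ∈ E ι A[X] := EG_le_E _ hε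
  have e1 : gmap ι (sc s) (gmap ι (mapRingHom f) ψ) = gmap ι (mapRingHom f) (gmap ι (sc s) ψ) := by
    rw [gmap_comp, gmap_comp]
    congr 1
    apply congrArg
    apply RingHom.ext
    intro p
    exact sc_map f hf.alg s p
  rw [e1] at hε'
  have hψs : gmap ι (constantCoeff : A[X] →+* A) (gmap ι (sc s) ψ) = 1 := by
    rw [gmap_comp, sc_cc, hψ]
  set ψ' := gmap ι (sc s) ψ with hψ'
  set δ := gmap ι (constantCoeff : A[X] →+* A) ε with hδ
  have hδE : δ ∈ E ι A := gmap_E _ _ hεE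
  have hfδ : gmap ι f δ = 1 := by
    rw [hδ, gmap_comp, ← ccmap, ← gmap_comp, hε', gmap_comp, ccmap, ← gmap_comp, hψs, map_one]
  set ε' := ε * (gmap ι C δ)⁻¹ with hε''
  have hε'E : ε' ∈ E ι A[X] := mul_mem hεE (inv_mem (gmap_E _ _ hδE))
  have hcc : gmap ι (constantCoeff : A[X] →+* A) ε' = 1 := by
    rw [hε'', map_mul, map_inv, cc_C, ← hδ, mul_inv_cancel]
  have hfe : gmap ι (mapRingHom f) ε' = gmap ι (mapRingHom f) ψ' := by
    have e5 : gmap ι (mapRingHom f) (gmap ι C δ) = 1 := by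
      rw [gmap_comp, mapC, ← gmap_comp, hfδ, map_one]
    rw [hε'', map_mul, map_inv, hε', e5, inv_one, mul_one]
  -- kill the kernel
  obtain ⟨u, hu, hu'⟩ := hf.poly.ker_fin (κ := ι × ι)
    (fun x => (ψ' : Matrix ι ι A[X]) x.1 x.2 - (ε' : Matrix ι ι A[X]) x.1 x.2) (by
      rintro ⟨a, b⟩
      have := congrArg (fun M : (Matrix ι ι A'[X])ˣ => (M : Matrix ι ι A'[X]) a b) hfe
      simp only [gmap_val, Matrix.map_apply] at this
      rw [map_sub, this, sub_self])
  refine ⟨s * u, mul_mem hs hu, ?_⟩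
  have e2 : gmap ι (sc (s * u)) ψ = gmap ι (sc u) ψ' := by
    rw [hψ', gmap_comp, sc_sc]
  have e3 : gmap ι (sc u) ψ' = gmap ι (sc u) ε' := by
    ext1
    refine Matrix.ext fun a b => ?_
    rw [gmap_val, gmap_val, Matrix.map_apply, Matrix.map_apply]
    have h0 : ((ψ' : Matrix ι ι A[X]) a b).coeff 0 = ((ε' : Matrix ι ι A[X]) a b).coeff 0 := by
      have := congrArg (fun M : (Matrix ι ι A)ˣ => (M : Matrix ι ι A) a b) (hψs.trans hcc.symm)
      simpa only [gmap_val, Matrix.map_apply, constantCoeff_apply] using this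
    have hk : ∀ k, algebraMap Z A u * ((ψ' : Matrix ι ι A[X]) a b).coeff k =
        algebraMap Z A u * ((ε' : Matrix ι ι A[X]) a b).coeff k := by
      intro k
      have := congrArg (fun q => coeff q k) (hu' (a, b))
      simp only [Polynomial.algebraMap_apply, Polynomial.coeff_C_mul, coeff_zero, coeff_sub,
        mul_sub] at this
      exact sub_eq_zero.1 this
    exact sc_eq u _ _ h0 hk
  rw [e2, e3]
  exact gmap_E _ _ hε'E

end dil

section quill

variable {ι : Type*} [DecidableEq ι] [Fintype ι]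
variable {Z : Type*} [CommRing Z] {R : Type*} [Ring R] [Algebra Z R] {R' : Type*} [Ring R']
  [Algebra Z R']

/-- `X ↦ U + s W` -/
noncomputable def subW (s : Z) : R[X] →+* R[X][X] :=
  eval₂RingHom' ((C : R[X] →+* R[X][X]).comp C) (C X + algebraMap Z R[X][X] s * X) (fun a => by
    apply Commute.add_right
    · exact (commX a).map C
    · exact Commute.mul_right (alg_comm s _).symm (commX _))

@[simp] lemma subW_C (s : Z) (a : R) : subW s (C a) = C (C a) := by
  show eval₂ _ _ _ = _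
  simp

@[simp] lemma subW_X (s : Z) : subW s (X : R[X]) = C X + algebraMap Z R[X][X] s * X := by
  show eval₂ _ _ _ = _
  simp

/-- `U ↦ U + s W`, `W ↦ W` -/
noncomputable def tauW (s : Z) : R[X][X] →+* R[X][X] :=
  eval₂RingHom' (subW s) X (fun a => (Polynomial.commute_X _).symm)

@[simp] lemma tauW_C (s : Z) (a : R[X]) : tauW s (C a) = subW s a := by
  show eval₂ _ _ _ = _
  simp

@[simp] lemma tauW_X (s : Z) : tauW s (X : R[X][X]) = X := by
  show eval₂ _ _ _ = _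
  simp

/-- `U ↦ 0`, `W ↦ X` -/
noncomputable def evW (R : Type*) [Ring R] : R[X][X] →+* R[X] :=
  eval₂RingHom' ((C : R →+* R[X]).comp constantCoeff) X (fun _ => commX _)

@[simp] lemma evW_C (a : R[X]) : evW R (C a) = C (a.coeff 0) := by
  show eval₂ _ _ _ = _
  simp

@[simp] lemma evW_X : evW R (X : R[X][X]) = X := by
  show eval₂ _ _ _ = _
  simp

lemma sc_subW (s a : Z) : (sc a : R[X][X] →+* R[X][X]).comp (subW s) = subW (s * a) := by
  apply ringHom_ext
  · intro r; simp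
  · simp only [RingHom.comp_apply, subW_X, map_add, map_mul, sc_X, sc_C, sc_alg]
    rw [← mul_assoc]

lemma sc_CW (a : Z) : (sc a : R[X][X] →+* R[X][X]).comp C = C := by
  refine RingHom.ext fun r => ?_
  simp

lemma tauW_subW (s t : Z) : (tauW s : R[X][X] →+* R[X][X]).comp (subW t) = subW (s + t) := by
  apply ringHom_ext
  · intro r; simp
  · have h : tauW s (algebraMap Z R[X][X] t) = algebraMap Z R[X][X] t := by
      rw [Polynomial.algebraMap_apply, Polynomial.algebraMap_apply, tauW_C, subW_C]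
    simp only [RingHom.comp_apply, subW_X, map_add, map_mul, tauW_C, tauW_X, h]
    rw [add_mul, add_assoc]

lemma tauW_CW (s : Z) : (tauW s : R[X][X] →+* R[X][X]).comp C = subW s := by
  refine RingHom.ext fun r => ?_
  simp

lemma subW_zero : (subW (0 : Z) : R[X] →+* R[X][X]) = C := by
  apply ringHom_ext
  · intro r; simp
  · simp

lemma cc_subW (s : Z) :
    (constantCoeff : R[X][X] →+* R[X]).comp (subW s) = RingHom.id _ := by
  apply ringHom_ext
  · intro r; simp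
  · simp

lemma map_subW (f : R →+* R') (hf : ∀ z : Z, f (algebraMap Z R z) = algebraMap Z R' z) (s : Z) :
    (mapRingHom (mapRingHom f)).comp (subW s) = (subW s).comp (mapRingHom f) := by
  apply ringHom_ext
  · intro r; simp
  · simp [Polynomial.algebraMap_apply, hf]

lemma evW_subW (s : Z) : (evW R).comp (subW s) = sc s := by
  apply ringHom_ext
  · intro r; simp
  · simp [Polynomial.algebraMap_apply]

lemma evW_CW : (evW R).comp C = (C : R →+* R[X]).comp constantCoeff := by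
  refine RingHom.ext fun r => ?_
  simp

/-- the Quillen ideal -/
noncomputable def QI (Z : Type*) [CommRing Z] [Algebra Z R] (θ : (Matrix ι ι R[X])ˣ) :
    Ideal Z where
  carrier := {s | gmap ι (subW s) θ * (gmap ι C θ)⁻¹ ∈ E ι R[X][X]}
  zero_mem' := by
    show _ ∈ E ι R[X][X]
    rw [subW_zero, mul_inv_cancel]
    exact one_mem _
  add_mem' := by
    intro s t hs ht
    have h1 : gmap ι (subW s) θ * (gmap ι C θ)⁻¹ ∈ E ι R[X][X] := hs
    have h2 : gmap ι (subW t) θ * (gmap ι C θ)⁻¹ ∈ E ι R[X][X] := ht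
    have h3 := gmap_E (tauW s) _ h2
    rw [map_mul, map_inv, gmap_comp, gmap_comp, tauW_subW, tauW_CW] at h3
    have := mul_mem h3 h1
    show _ ∈ E ι R[X][X]
    convert this using 1
    group
  smul_mem' := by
    intro a s hs
    have h1 : gmap ι (subW s) θ * (gmap ι C θ)⁻¹ ∈ E ι R[X][X] := hs
    have h3 := gmap_E (sc a) _ h1
    rw [map_mul, map_inv, gmap_comp, gmap_comp, sc_subW, sc_CW] at h3
    show _ ∈ E ι R[X][X]
    rwa [smul_eq_mul, mul_comm]

lemma mem_QI (θ : (Matrix ι ι R[X])ˣ) (s : Z) :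
    s ∈ QI Z θ ↔ gmap ι (subW s) θ * (gmap ι C θ)⁻¹ ∈ E ι R[X][X] := Iff.rfl

lemma QI_E (θ : (Matrix ι ι R[X])ˣ) (hθ : gmap ι (constantCoeff : R[X] →+* R) θ = 1) (s : Z)
    (hs : s ∈ QI Z θ) : gmap ι (sc s) θ ∈ E ι R[X] := by
  rw [mem_QI] at hs
  have h := gmap_E (evW R) _ hs
  rw [map_mul, map_inv, gmap_comp, gmap_comp, evW_subW, evW_CW, ← gmap_comp, hθ, map_one,
    inv_one, mul_one] at h
  exact h

lemma QI_loc (h3 : ∀ i j : ι, ∃ k, k ≠ i ∧ k ≠ j) (S : Submonoid Z) (f : R →+* R')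
    (hf : IsLoc S f) (θ : (Matrix ι ι R[X])ˣ) (h : gmap ι (mapRingHom f) θ ∈ E ι R'[X]) :
    ∃ s ∈ S, s ∈ QI Z θ := by
  obtain ⟨s, hs, hs'⟩ := dilation h3 hf.poly (gmap ι (subW (1 : Z)) θ * (gmap ι C θ)⁻¹) (by
    rw [map_mul, map_inv, gmap_comp, cc_subW, gmap_id, cc_C, mul_inv_cancel]) (by
    rw [map_mul, map_inv, gmap_comp, map_subW f hf.alg, ← gmap_comp]
    apply mul_mem (gmap_E _ _ h)
    apply inv_mem
    have : gmap ι (mapRingHom (mapRingHom f)) (gmap ι C θ) = gmap ι C (gmap ι (mapRingHom f) θ) := by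
      rw [gmap_comp, gmap_comp]
      congr 1
      apply congrArg
      refine RingHom.ext fun p => ?_
      simp
    rw [this]
    exact gmap_E _ _ h)
  refine ⟨s, hs, ?_⟩
  rw [mem_QI]
  rw [map_mul, map_inv, gmap_comp, gmap_comp, sc_subW, sc_CW, one_mul] at hs'
  exact hs'

theorem patch_rad (h3 : ∀ i j : ι, ∃ k, k ≠ i ∧ k ≠ j) (θ : (Matrix ι ι R[X])ˣ)
    (hθ : gmap ι (constantCoeff : R[X] →+* R) θ = 1) (z : Z)
    (H : ∀ (P : Ideal Z) [P.IsPrime], z ∉ P →
      gmap ι (mapRingHom (locMap P.primeCompl R)) θ ∈ E ι (LocalizedModule P.primeCompl R)[X]) :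
    ∃ N : ℕ, gmap ι (sc (z ^ N)) θ ∈ E ι R[X] := by
  have : z ∈ (QI Z θ).radical := by
    rw [Ideal.radical_eq_sInf, Submodule.mem_sInf]
    intro (P : Ideal Z) hPP
    obtain ⟨hP, hPp⟩ := hPP
    by_contra hz
    have : P.IsPrime := hPp
    obtain ⟨s, hs, hs'⟩ := QI_loc h3 P.primeCompl _ (isLoc_locMap _) θ (H P hz)
    exact hs (hP hs')
  obtain ⟨N, hN⟩ := this
  exact ⟨N, QI_E θ hθ _ hN⟩

theorem patch_max (h3 : ∀ i j : ι, ∃ k, k ≠ i ∧ k ≠ j) (θ : (Matrix ι ι R[X])ˣ)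
    (hθ : gmap ι (constantCoeff : R[X] →+* R) θ = 1)
    (H : ∀ (P : Ideal Z) [P.IsMaximal],
      gmap ι (mapRingHom (locMap P.primeCompl R)) θ ∈ E ι (LocalizedModule P.primeCompl R)[X]) :
    θ ∈ E ι R[X] := by
  have : QI Z θ = ⊤ := by
    by_contra hne
    obtain ⟨P, hP, hP'⟩ := Ideal.exists_le_maximal _ hne
    obtain ⟨s, hs, hs'⟩ := QI_loc h3 P.primeCompl _ (isLoc_locMap _) θ (H P)
    exact hs (hP' hs')
  have h1 := QI_E θ hθ (1 : Z) (by rw [this]; trivial)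
  have : (sc (1 : Z) : R[X] →+* R[X]) = RingHom.id _ := by
    apply ringHom_ext
    · intro r; simp
    · simp
  rwa [this, gmap_id] at h1

end quill

end Pool.Agent.W5h54.EN
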