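import Pool.Agent.W5h54.EN.Semi
import Pool.Agent.W5h54.EN.Patch

set_option autoImplicit false

/-!
Local facts.
-/

namespace Pool.Agent.W5h54.EN

open Matrix Polynomial

section CI

variable {Z : Type*} [CommRing Z] {R : Type*} [Ring R] [Algebra Z R] {R' : Type*} [Ring R']
  [Algebra Z R']

/-- the ideal of `R` generated by a set of scalars -/
def CI (R : Type*) [Ring R] [Algebra Z R] (s : Set Z) : Ideal R :=
  Submodule.span R (algebraMap Z R '' s)

lemma CI_ind (s : Set Z) (Pr : R → Prop) (h0 : Pr 0) (hadd : ∀ x y, Pr x → Pr y → Pr (x + y))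
    (hm : ∀ z ∈ s, ∀ a, Pr (algebraMap Z R z * a)) (x : R) (hx : x ∈ CI R s) : Pr x := by
  have : ∀ c, Pr (c * x) := by
    unfold CI at hx
    induction hx using Submodule.span_induction with
    | mem x hx =>
      obtain ⟨z, hz, rfl⟩ := hx
      intro c; rw [← alg_comm]; exact hm z hz c
    | zero => intro c; rw [mul_zero]; exact h0
    | add x y _ _ hx hy => intro c; rw [mul_add]; exact hadd _ _ (hx c) (hy c)
    | smul a x _ hx => intro c; rw [smul_eq_mul, ← mul_assoc]; exact hx _
  simpa using this 1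

lemma mem_CI (s : Set Z) (z : Z) (hz : z ∈ s) (a : R) : algebraMap Z R z * a ∈ CI R s := by
  rw [alg_comm]
  exact (CI R s).mul_mem_left _ (Submodule.subset_span ⟨z, hz, rfl⟩)

instance CI_two (s : Set Z) : (CI R s).IsTwoSided := by
  constructor
  intro a b ha
  refine CI_ind s (fun x => x * b ∈ CI R s) ?_ ?_ ?_ a ha
  · rw [zero_mul]; exact Submodule.zero_mem _
  · intro x y hx hy; rw [add_mul]; exact Submodule.add_mem _ hx hy
  · intro z hz c; rw [mul_assoc]; exact mem_CI s z hz _

lemma CI_mono {s t : Set Z} (h : s ⊆ t) : CI R s ≤ CI R t :=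
  Submodule.span_mono (Set.image_mono h)

lemma CI_map (f : R →+* R') (hf : ∀ z : Z, f (algebraMap Z R z) = algebraMap Z R' z) (s : Set Z)
    (x : R) (hx : x ∈ CI R s) : f x ∈ CI R' s := by
  refine CI_ind s (fun x => f x ∈ CI R' s) ?_ ?_ ?_ x hx
  · rw [map_zero]; exact Submodule.zero_mem _
  · intro x y hx hy; rw [map_add]; exact Submodule.add_mem _ hx hy
  · intro z hz c; rw [map_mul, hf]; exact mem_CI s z hz _

/-- the finiteness hypothesis -/
def Fin1 (R : Type*) [Ring R] [Algebra Z R] (z : Z) (s : Set Z) : Prop :=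
  ∃ (n : ℕ) (x : Fin n → R), ∀ r : R, ∃ ζ : Fin n → Z, (∀ i, ζ i ∈ s) ∧
    algebraMap Z R z * r = ∑ i, algebraMap Z R (ζ i) * x i

lemma Fin1.mono {z : Z} {s t : Set Z} (hst : s ⊆ t) (h : Fin1 R z s) : Fin1 R z t := by
  obtain ⟨n, x, hx⟩ := h
  refine ⟨n, x, fun r => ?_⟩
  obtain ⟨ζ, h1, h2⟩ := hx r
  exact ⟨ζ, fun i => hst (h1 i), h2⟩

end CI

section absfacts

variable {Z : Type*} [CommRing Z] {R : Type*} [Ring R] [Algebra Z R] {B : Type*} [CommRing B]
  [IsLocalRing B] [Algebra Z B] {A : Type*} [Ring A] [Algebra B A] [Algebra Z A]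

omit [Algebra Z A] in
lemma SR1_abs (f : R →+* A)
    (hf : ∀ z : Z, f (algebraMap Z R z) = algebraMap B A (algebraMap Z B z))
    (hrep : ∀ a : A, ∃ (β : B) (r : R), a = algebraMap B A β * f r) (z : Z)
    (hzu : IsUnit (algebraMap Z B z)) (h : Fin1 R z Set.univ) : SR1 A := by
  have hfin : Module.Finite B A := by
    classical
    obtain ⟨n, x, hx⟩ := h
    refine ⟨⟨Finset.univ.image (fun i => f (x i)), ?_⟩⟩
    rw [eq_top_iff]
    rintro a -
    obtain ⟨β, r, rfl⟩ := hrep a
    obtain ⟨ζ, -, hζ⟩ := hx r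
    obtain ⟨u, hu⟩ := hzu
    have h2 := congrArg f hζ
    rw [map_mul, map_sum, hf] at h2
    have h3 : f r = ∑ i, ((u⁻¹ : Bˣ) * algebraMap Z B (ζ i) : B) • f (x i) := by
      have h4 : algebraMap B A ((u⁻¹ : Bˣ)) * (algebraMap B A (algebraMap Z B z) * f r) = f r := by
        rw [← mul_assoc, ← map_mul, ← hu, Units.inv_mul, map_one, one_mul]
      rw [← h4, h2, Finset.mul_sum]
      refine Finset.sum_congr rfl fun i _ => ?_
      rw [map_mul, hf, Algebra.smul_def, map_mul, mul_assoc]
    rw [h3, Finset.mul_sum]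
    refine Submodule.sum_mem _ fun i _ => ?_
    rw [← Algebra.smul_def]
    refine Submodule.smul_mem _ _ (Submodule.smul_mem _ _ (Submodule.subset_span ?_))
    simp
  exact SR1.finite_local (B := B)

lemma isRad_abs (f : R →+* A)
    (hf : ∀ z : Z, f (algebraMap Z R z) = algebraMap B A (algebraMap Z B z))
    (hA : ∀ z : Z, algebraMap B A (algebraMap Z B z) = algebraMap Z A z)
    (hrep : ∀ a : A, ∃ (β : B) (r : R), a = algebraMap B A β * f r) (s : Set Z)
    (hm : ∀ z ∈ s, algebraMap Z B z ∈ IsLocalRing.maximalIdeal B)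
    (h : ∀ z ∈ s, Fin1 R z s) : IsRad (CI A s) := by
  apply isRad_of_int (B := B)
  intro t ht
  refine CI_ind s (fun t => ∃ M : Submodule B A, M.FG ∧
      ∀ a, t * a ∈ IsLocalRing.maximalIdeal B • M) ?_ ?_ ?_ t ht
  · exact ⟨⊥, Submodule.fg_bot, fun a => by rw [zero_mul]; exact Submodule.zero_mem _⟩
  · rintro t₁ t₂ ⟨M₁, hM₁, h₁⟩ ⟨M₂, hM₂, h₂⟩
    refine ⟨M₁ ⊔ M₂, hM₁.sup hM₂, fun a => ?_⟩
    rw [add_mul]
    exact Submodule.add_mem _ (Submodule.smul_mono le_rfl le_sup_left (h₁ a))
      (Submodule.smul_mono le_rfl le_sup_right (h₂ a))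
  · intro z hz c
    obtain ⟨n, x, hx⟩ := h z hz
    classical
    refine ⟨Submodule.span _ (Finset.univ.image (fun i => f (x i)) :
      Finset A), ⟨_, rfl⟩, fun a => ?_⟩
    rw [mul_assoc]
    obtain ⟨β, r, hr⟩ := hrep (c * a)
    obtain ⟨ζ, hζ1, hζ⟩ := hx r
    have h2 := congrArg f hζ
    rw [map_mul, map_sum, hf, hA] at h2
    have h6 : algebraMap Z A z * (c * a) = β • ∑ i, f (algebraMap Z R (ζ i) * x i) := by
      rw [hr, ← h2, Algebra.smul_def, ← mul_assoc, ← mul_assoc, Algebra.commutes β]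
    rw [h6]
    refine Submodule.smul_mem _ _ (Submodule.sum_mem _ fun i _ => ?_)
    rw [map_mul, hf, ← Algebra.smul_def]
    refine Submodule.smul_mem_smul (hm _ (hζ1 i)) (Submodule.subset_span ?_)
    simp

end absfacts

section locfacts

variable {Z : Type*} [CommRing Z] {R : Type*} [Ring R] [Algebra Z R]

/-- the algebra structure of the localized module over the local ring -/
noncomputable abbrev algBA (S : Submonoid Z) (R : Type*) [Ring R] [Algebra Z R] :
    Algebra (Localization S) (LocalizedModule S R) :=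
  LocalizedModule.algebraOfIsLocalization (Localization S)

lemma algBA_map (S : Submonoid Z) (z : Z) (s : S) :
    (algBA S R).algebraMap (Localization.mk z s) = LocalizedModule.mk (algebraMap Z R z) s :=
  LocalizedModule.algebraMap_mk z s

lemma exists_smul_rep (S : Submonoid Z) (a : LocalizedModule S R) :
    ∃ (β : Localization S) (r : R), a = (algBA S R).algebraMap β * locMap S R r := by
  induction a using LocalizedModule.induction_on with
  | _ m s =>
    refine ⟨Localization.mk 1 s, m, ?_⟩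
    rw [algBA_map]
    show _ = _ * LocalizedModule.mk _ _
    rw [LocalizedModule.mk_mul_mk, map_one, one_mul, mul_one]

lemma algBA_alg (S : Submonoid Z) (z : Z) :
    (algBA S R).algebraMap (algebraMap Z (Localization S) z) =
      algebraMap Z (LocalizedModule S R) z := by
  rw [← Localization.mk_one_eq_algebraMap, algBA_map]
  rfl

lemma SR1_loc (P : Ideal Z) [P.IsPrime] (z : Z) (hz : z ∉ P) (h : Fin1 R z Set.univ) :
    SR1 (LocalizedModule P.primeCompl R) :=
  @SR1_abs Z _ R _ _ (Localization P.primeCompl) _ (Localization.AtPrime.isLocalRing P) _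
    (LocalizedModule P.primeCompl R) _ (algBA _ _) (locMap _ _)
    (fun z => ((isLoc_locMap _).alg z).trans (algBA_alg _ z).symm) (exists_smul_rep _) z
    (IsLocalization.map_units (Localization P.primeCompl) (⟨z, hz⟩ : P.primeCompl)) h

lemma isRad_loc (P : Ideal Z) [P.IsPrime] (s : Set Z) (hs : s ⊆ P)
    (h : ∀ z ∈ s, Fin1 R z s) :
    IsRad (CI (LocalizedModule P.primeCompl R) s) :=
  have : IsLocalRing (Localization P.primeCompl) := Localization.AtPrime.isLocalRing P
  @isRad_abs Z _ R _ _ (Localization P.primeCompl) _ this _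
    (LocalizedModule P.primeCompl R) _ (algBA _ _) _ (locMap _ _)
    (fun z => ((isLoc_locMap _).alg z).trans (algBA_alg _ z).symm) (algBA_alg _)
    (exists_smul_rep _) s
    (fun z hz => (IsLocalization.AtPrime.to_map_mem_maximal_iff
      (Localization P.primeCompl) P z).2 (hs hz)) h

end locfacts

end Pool.Agent.W5h54.EN
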