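import Pool.Agent.W5h54.EN.Central
import Pool.Agent.W5h54.EN.LocF

set_option autoImplicit false

/-!
Rings with enough matrix representations, and values of the central polynomial.
-/

namespace Pool.Agent.W5h54.EN

open Matrix

lemma ml_zero {L M N : Type*} [CommSemiring L] [AddCommMonoid M] [Module L M] [AddCommMonoid N]
    [Module L N] {k : ℕ} (f : MultilinearMap L (fun _ : Fin k => M) N) (S : Set M)
    (hS : Submodule.span L S = ⊤) (h : ∀ v : Fin k → M, (∀ i, v i ∈ S) → f v = 0)
    (v : Fin k → M) : f v = 0 := by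
  classical
  have key : ∀ t : Finset (Fin k), ∀ v : Fin k → M, (∀ i, i ∉ t → v i ∈ S) → f v = 0 := by
    intro t
    induction t using Finset.induction_on with
    | empty => intro v hv; exact h v fun i => hv i (Finset.notMem_empty i)
    | insert a t ha ih =>
      intro v hv
      have h1 : ∀ w ∈ S, f.toLinearMap v a w = 0 := by
        intro w hw
        rw [MultilinearMap.toLinearMap_apply]
        apply ih
        intro i hi
        by_cases hia : i = a
        · subst hia; rw [Function.update_self]; exact hw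
        · rw [Function.update_of_ne hia]; exact hv i (by simp [hia, hi])
      have h2 : f.toLinearMap v a = 0 := by
        apply LinearMap.ext_on hS
        intro w hw
        rw [h1 w hw]; rfl
      have h3 := congrArg (fun g => g (v a)) h2
      simp only [MultilinearMap.toLinearMap_apply, Function.update_eq_self,
        LinearMap.zero_apply] at h3
      exact h3
  exact key Finset.univ v fun i hi => absurd (Finset.mem_univ i) hi

section rep

variable {L : Type*} [Field L] {R : Type*} [Ring R] {d n : ℕ}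

/-- the standard basis -/
noncomputable def sb (L : Type*) [Field L] {d n : ℕ} (h : d * d = n + 1) :
    Module.Basis (Fin (n + 1)) L (Matrix (Fin d) (Fin d) L) :=
  (Matrix.stdBasis L (Fin d) (Fin d)).reindex (finProdFinEquiv.trans (finCongr h))

lemma rep_scalar (h : d * d = n + 1) {e : ℕ} (he : e ≤ d) (x y : Fin (n + 1) → Matrix (Fin e) (Fin e) L)
    (u : Matrix (Fin e) (Fin e) L) : ∃ c : L, cP x y u = c • (1 : Matrix (Fin e) (Fin e) L) := by
  rcases lt_or_eq_of_le he with hlt | rfl
  · refine ⟨0, ?_⟩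
    rw [zero_smul]
    apply cP_small
    rw [Fintype.card_fin, ← h]
    exact Nat.mul_self_lt_mul_self hlt
  · exact ⟨_, cP_value (sb L h) x y u⟩

lemma rep_cramer (h : d * d = n + 1) {e : ℕ} (he : e ≤ d) (x y : Fin (n + 1) → Matrix (Fin e) (Fin e) L)
    (u r : Matrix (Fin e) (Fin e) L) :
    cP x y u * r = ∑ i, cP (Function.update x i r) y u * x i := by
  rcases lt_or_eq_of_le he with hlt | rfl
  · have hz : ∀ x y u, cP (R := Matrix (Fin e) (Fin e) L) (n := n) x y u = 0 := by
      intro x y u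
      apply cP_small
      rw [Fintype.card_fin, ← h]
      exact Nat.mul_self_lt_mul_self hlt
    rw [hz, zero_mul]
    symm
    exact Finset.sum_eq_zero fun i _ => by rw [hz, zero_mul]
  · rw [cP_value (sb L h)]
    have h1 := cramer_det (sb L h) x r
    rw [smul_mul_assoc, one_mul, mul_comm, mul_smul, h1, Finset.smul_sum]
    refine Finset.sum_congr rfl fun i _ => ?_
    rw [cP_value (sb L h), smul_mul_assoc, one_mul, smul_smul]
    congr 1
    ring

/-- the trace form is multilinear in `y` -/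
noncomputable def DfY (x : Fin (n + 1) → Matrix (Fin d) (Fin d) L) :
    MultilinearMap L (fun _ : Fin (n + 1) => Matrix (Fin d) (Fin d) L) L :=
  ∑ σ : Equiv.Perm (Fin (n + 1)), (Equiv.Perm.sign σ : ℤ) •
    (Matrix.traceLinearMap (Fin d) L L).compMultilinearMap
      ((MultilinearMap.mkPiAlgebraFin L (n + 1) _).compLinearMap
        (fun i => LinearMap.mulLeft L (x (σ i))))

lemma DfY_apply (x y : Fin (n + 1) → Matrix (Fin d) (Fin d) L) : DfY x y = Df y x := by
  rw [Df_apply]
  unfold DfY
  rw [_root_.sum_apply]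
  refine Finset.sum_congr rfl fun σ _ => ?_
  rfl

lemma rep_nonvanish (h : d * d = n + 1) (φ : R →+* Matrix (Fin d) (Fin d) L)
    (hφ : Submodule.span L (Set.range φ) = ⊤) :
    ∃ (x y : Fin (n + 1) → R) (u : R), φ (cP x y u) ≠ 0 := by
  by_contra hcon
  push Not at hcon
  have hd : 0 < d := by
    rcases Nat.eq_zero_or_pos d with rfl | hd
    · simp at h
    · exact hd
  have hne : Nonempty (Fin d) := ⟨⟨0, hd⟩⟩
  have key : ∀ (x y : Fin (n + 1) → R) (u : R),
      (sb L h).det (fun i => φ (x i)) * (Df (fun i => φ (y i)) (sb L h) * (φ u).trace) = 0 := by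
    intro x y u
    have h1 := hcon x y u
    rw [cP_map, cP_value (sb L h)] at h1
    have h2 := congrFun (congrFun h1 ⟨0, hd⟩) ⟨0, hd⟩
    simpa using h2
  -- choose u
  obtain ⟨u, hu⟩ : ∃ u, (φ u).trace ≠ 0 := by
    by_contra hu
    push Not at hu
    have : Matrix.traceLinearMap (Fin d) L L = 0 := by
      apply LinearMap.ext_on hφ
      rintro _ ⟨r, rfl⟩
      rw [Matrix.traceLinearMap_apply, hu]; rfl
    have h1 := congrArg (fun g => g (single (⟨0, hd⟩ : Fin d) ⟨0, hd⟩ (1 : L))) this
    simp at h1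
  -- choose x
  obtain ⟨x, hx⟩ : ∃ x : Fin (n + 1) → R, (sb L h).det (fun i => φ (x i)) ≠ 0 := by
    by_contra hx
    push Not at hx
    have h1 := ml_zero (sb L h).det.toMultilinearMap (Set.range φ) hφ (by
      intro v hv
      choose r hr using hv
      have : v = fun i => φ (r i) := funext fun i => (hr i).symm
      rw [this]
      exact hx r) (sb L h)
    have h2 : (sb L h).det (sb L h) = 0 := h1
    rw [Module.Basis.det_self] at h2
    exact one_ne_zero h2
  -- choose y
  obtain ⟨y, hy⟩ : ∃ y : Fin (n + 1) → R, Df (fun i => φ (y i)) (sb L h) ≠ 0 := by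
    by_contra hy
    push Not at hy
    obtain ⟨y₀, hy₀⟩ := Df_nonvanish (L := L) (finProdFinEquiv.trans (finCongr h))
    apply hy₀
    rw [← DfY_apply]
    apply ml_zero _ (Set.range φ) hφ
    intro v hv
    choose r hr using hv
    have : v = fun i => φ (r i) := funext fun i => (hr i).symm
    rw [this, DfY_apply]
    exact hy r
  exact mul_ne_zero hx (mul_ne_zero hy hu) (key x y u)

end rep

/-- a good representation below `I` -/
def GoodRep {R : Type} [Ring R] (d : ℕ) (I : Ideal R) : Prop :=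
  ∃ (L : Type) (_ : Field L) (e : ℕ) (φ : R →+* Matrix (Fin e) (Fin e) L),
    e ≤ d ∧ Submodule.span L (Set.range φ) = ⊤ ∧ RingHom.ker φ ≤ I ∧
      ∀ K : Ideal R, K.IsTwoSided → K ≤ I → K ≤ RingHom.ker φ

/-- the class of rings -/
def Cls (d : ℕ) (R : Type) [Ring R] : Prop := ∀ I : Ideal R, I.IsMaximal → GoodRep d I

lemma Cls_quot {R : Type} [Ring R] (K : Ideal R) [K.IsTwoSided] (d : ℕ)
    (h : ∀ I : Ideal R, I.IsMaximal → K ≤ I → GoodRep d I) : Cls d (R ⧸ K) := by
  intro I' hI'
  have hImax : (Ideal.comap (Ideal.Quotient.mk K) I').IsMaximal :=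
    Ideal.comap_isMaximal_of_surjective _ Ideal.Quotient.mk_surjective
  have hKI : K ≤ Ideal.comap (Ideal.Quotient.mk K) I' := by
    intro x hx
    rw [Ideal.mem_comap, Ideal.Quotient.eq_zero_iff_mem.2 hx]
    exact I'.zero_mem
  obtain ⟨L, inst, e, φ, he, hspan, hker, hmax⟩ := h _ hImax hKI
  have hKφ' : K ≤ RingHom.ker φ := hmax K inferInstance hKI
  have hKφ : ∀ a ∈ K, φ a = 0 := fun a ha => hKφ' ha
  refine ⟨L, inst, e, Ideal.Quotient.lift K φ hKφ, he, ?_, ?_, ?_⟩
  · have : Set.range φ ⊆ Set.range (Ideal.Quotient.lift K φ hKφ) := by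
      rintro _ ⟨r, rfl⟩
      exact ⟨Ideal.Quotient.mk K r, Ideal.Quotient.lift_mk _ _ _⟩
    rw [eq_top_iff, ← hspan]
    exact Submodule.span_mono this
  · intro x hx
    obtain ⟨r, rfl⟩ := Ideal.Quotient.mk_surjective x
    rw [RingHom.mem_ker, Ideal.Quotient.lift_mk] at hx
    exact hker hx
  · intro K' hK' hK'I x hx
    obtain ⟨r, rfl⟩ := Ideal.Quotient.mk_surjective x
    rw [RingHom.mem_ker, Ideal.Quotient.lift_mk]
    have h2 : (Ideal.comap (Ideal.Quotient.mk K) K').IsTwoSided := by
      constructor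
      intro a b ha
      rw [Ideal.mem_comap, map_mul]
      exact K'.mul_mem_right _ ha
    exact hmax _ h2 (Ideal.comap_mono hK'I) hx

lemma Cls.quot {R : Type} [Ring R] {d : ℕ} (h : Cls d R) (K : Ideal R) [K.IsTwoSided] :
    Cls d (R ⧸ K) := Cls_quot K d fun I hI _ => h I hI

lemma Cls_zero {R : Type} [Ring R] (h : Cls 0 R) : Subsingleton R := by
  by_contra hns
  rw [not_subsingleton_iff_nontrivial] at hns
  obtain ⟨I, hI⟩ := Ideal.exists_maximal R
  obtain ⟨L, inst, e, φ, he, -, hker, -⟩ := h I hI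
  obtain rfl : e = 0 := by omega
  apply hI.ne_top
  rw [eq_top_iff]
  intro x _
  apply hker
  rw [RingHom.mem_ker]
  exact Subsingleton.elim _ _

section central

variable {R : Type} [Ring R] {d n : ℕ}

lemma jac_zero (hJ : Ring.jacobson R = ⊥) (x : R) (h : ∀ I : Ideal R, I.IsMaximal → x ∈ I) :
    x = 0 := by
  rw [← Ideal.mem_bot, ← hJ, Ring.jacobson_eq_sInf_isMaximal, Submodule.mem_sInf]
  exact h

lemma cP_central (h : d * d = n + 1) (hR : Cls d R) (hJ : Ring.jacobson R = ⊥)
    (x y : Fin (n + 1) → R) (u : R) : cP x y u ∈ Subring.center R := by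
  rw [Subring.mem_center_iff]
  intro g
  rw [← sub_eq_zero]
  apply jac_zero hJ
  intro I hI
  obtain ⟨L, inst, e, φ, he, -, hker, -⟩ := hR I hI
  apply hker
  rw [RingHom.mem_ker, map_sub, map_mul, map_mul, cP_map]
  obtain ⟨c, hc⟩ := rep_scalar (L := L) h he (fun i => φ (x i)) (fun i => φ (y i)) (φ u)
  rw [hc, mul_smul_comm, smul_mul_assoc, mul_one, one_mul, sub_self]

lemma cP_fin (h : d * d = n + 1) (hR : Cls d R) (hJ : Ring.jacobson R = ⊥)
    (x y : Fin (n + 1) → R) (u r : R) :
    cP x y u * r = ∑ i, cP (Function.update x i r) y u * x i := by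
  rw [← sub_eq_zero]
  apply jac_zero hJ
  intro I hI
  obtain ⟨L, inst, e, φ, he, -, hker, -⟩ := hR I hI
  apply hker
  rw [RingHom.mem_ker, map_sub, map_mul, map_sum, cP_map,
    rep_cramer (L := L) h he (fun i => φ (x i)) (fun i => φ (y i)) (φ u) (φ r), sub_eq_zero]
  refine Finset.sum_congr rfl fun i _ => ?_
  rw [map_mul, cP_map]
  congr 2
  funext j
  by_cases hj : j = i
  · subst hj; simp
  · simp [Function.update_of_ne hj]

/-- the set of central values -/
def sC (n : ℕ) (R : Type) [Ring R] : Set (Subring.center R) :=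
  {z | ∃ (x y : Fin (n + 1) → R) (u : R), (z : R) = cP x y u}

lemma sC_fin (h : d * d = n + 1) (hR : Cls d R) (hJ : Ring.jacobson R = ⊥) :
    ∀ z ∈ sC n R, Fin1 R z (sC n R) := by
  rintro z ⟨x, y, u, hz⟩
  refine ⟨n + 1, x, fun r => ⟨fun i => ⟨cP (Function.update x i r) y u,
    cP_central h hR hJ _ _ _⟩, fun i => ⟨_, _, _, rfl⟩, ?_⟩⟩
  have := cP_fin h hR hJ x y u r
  rw [← hz] at this
  exact this

lemma sC_quot (h : (d + 1) * (d + 1) = n + 1) (hR : Cls (d + 1) R) (hJ : Ring.jacobson R = ⊥) :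
    Cls d (R ⧸ CI R (sC n R)) := by
  apply Cls_quot
  intro I hI hKI
  obtain ⟨L, inst, e, φ, he, hspan, hker, hmax⟩ := hR I hI
  have hKφ : CI R (sC n R) ≤ RingHom.ker φ := hmax _ inferInstance hKI
  refine ⟨L, inst, e, φ, ?_, hspan, hker, hmax⟩
  by_contra hlt
  obtain rfl : e = d + 1 := by omega
  obtain ⟨x, y, u, hxyu⟩ := rep_nonvanish h φ hspan
  apply hxyu
  have h1 : cP x y u ∈ CI R (sC n R) := by
    have := mem_CI (R := R) (sC n R) ⟨cP x y u, cP_central h hR hJ x y u⟩ ⟨x, y, u, rfl⟩ 1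
    rw [mul_one] at this
    exact this
  exact hKφ h1

end central

end Pool.Agent.W5h54.EN
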