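import Mathlib

set_option autoImplicit false

/-!
Elementary matrices over a noncommutative ring.
-/

namespace Pool.Agent.W5h54.EN

open Matrix

section basic

variable {ι : Type*} [DecidableEq ι] [Fintype ι] {R : Type*} [Ring R] {S : Type*} [Ring S]

lemma sms {i j k l : ι} (h : j ≠ k) (a b : R) :
    (single i j a : Matrix ι ι R) * single k l b = 0 :=
  single_mul_single_of_ne a i j k h b

lemma smm (i j k : ι) (a b : R) :
    (single i j a : Matrix ι ι R) * single j k b = single i k (a * b) :=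
  single_mul_single_same a i j k b

/-- elementary transvection `1 + r E_ij` -/
def tv (i j : ι) (h : i ≠ j) (r : R) : (Matrix ι ι R)ˣ where
  val := 1 + single i j r
  inv := 1 + single i j (-r)
  val_inv := by
    simp [Matrix.mul_add, Matrix.add_mul, sms h.symm, add_assoc, ← single_add]
  inv_val := by
    simp [Matrix.mul_add, Matrix.add_mul, sms h.symm, add_assoc, ← single_add]

@[simp] lemma tv_val (i j : ι) (h : i ≠ j) (r : R) :
    ((tv i j h r : (Matrix ι ι R)ˣ) : Matrix ι ι R) = 1 + single i j r := rfl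

lemma tv_inv (i j : ι) (h : i ≠ j) (r : R) : (tv i j h r)⁻¹ = tv i j h (-r) := by
  ext1; rfl

lemma tv_mul (i j : ι) (h : i ≠ j) (r s : R) : tv i j h r * tv i j h s = tv i j h (r + s) := by
  ext1
  simp [Matrix.mul_add, Matrix.add_mul, sms h.symm, single_add, add_assoc]

@[simp] lemma tv_zero (i j : ι) (h : i ≠ j) : tv i j h (0 : R) = 1 := by
  ext1; simp

lemma tv_commute (i j p q : ι) (hij : i ≠ j) (hpq : p ≠ q) (h1 : q ≠ i) (h2 : j ≠ p) (r s : R) :
    tv i j hij r * tv p q hpq s = tv p q hpq s * tv i j hij r := by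
  ext1
  simp only [Units.val_mul, tv_val, Matrix.mul_add, Matrix.add_mul, Matrix.one_mul,
    Matrix.mul_one, sms h1, sms h2]
  abel

lemma tv_rel (i j k : ι) (hij : i ≠ j) (hjk : j ≠ k) (hik : i ≠ k) (r s : R) :
    tv i j hij r * tv j k hjk s = tv i k hik (r * s) * tv j k hjk s * tv i j hij r := by
  ext1
  simp only [Units.val_mul, tv_val, Matrix.mul_add, Matrix.add_mul, Matrix.one_mul,
    Matrix.mul_one, sms hjk.symm, sms hik.symm, smm, Matrix.zero_mul, Matrix.mul_zero, add_zero]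
  abel

/-- the commutator relation -/
lemma tv_comm_rel (i j k : ι) (hij : i ≠ j) (hjk : j ≠ k) (hik : i ≠ k) (r s : R) :
    tv i j hij r * tv j k hjk s * (tv i j hij r)⁻¹ * (tv j k hjk s)⁻¹ = tv i k hik (r * s) := by
  rw [tv_rel i j k hij hjk hik]; group

lemma conj1 (p i j : ι) (hpi : p ≠ i) (hij : i ≠ j) (hpj : p ≠ j) (r y : R) :
    tv p i hpi r * tv i j hij y * (tv p i hpi r)⁻¹ = tv p j hpj (r * y) * tv i j hij y := by
  rw [tv_rel p i j hpi hij hpj]; group

lemma conj2 (i j q : ι) (hij : i ≠ j) (hjq : j ≠ q) (hiq : i ≠ q) (r y : R) :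
    tv j q hjq r * tv i j hij y * (tv j q hjq r)⁻¹ = tv i j hij y * tv i q hiq (-(y * r)) := by
  have h := tv_rel i j q hij hjq hiq y r
  have h2 := tv_commute i q i j hiq hij hij.symm hiq.symm (y * r) y
  have h3 : tv i q hiq (-(y * r)) = (tv i q hiq (y * r))⁻¹ := (tv_inv _ _ _ _).symm
  rw [h3, mul_inv_eq_iff_eq_mul]
  calc tv j q hjq r * tv i j hij y
      = (tv i q hiq (y * r))⁻¹ * (tv i q hiq (y * r) * tv j q hjq r * tv i j hij y) := by group
    _ = (tv i q hiq (y * r))⁻¹ * (tv i j hij y * tv j q hjq r) := by rw [← h]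
    _ = (tv i q hiq (y * r))⁻¹ * (tv i j hij y * tv i q hiq (y * r))
          * (tv i q hiq (y * r))⁻¹ * tv j q hjq r := by group
    _ = tv i j hij y * (tv i q hiq (y * r))⁻¹ * tv j q hjq r := by
        rw [← h2]; group

/-- Invertible diagonal matrices. -/
def dg : (ι → Rˣ) →* (Matrix ι ι R)ˣ where
  toFun u := ⟨diagonal fun i => (u i : R), diagonal fun i => ((u i)⁻¹ : Rˣ),
    by simp, by simp⟩
  map_one' := by ext1; simp
  map_mul' u v := by ext1; simp

@[simp] lemma dg_val (u : ι → Rˣ) :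
    ((dg u : (Matrix ι ι R)ˣ) : Matrix ι ι R) = diagonal fun i => (u i : R) := rfl

@[simp] lemma dg_inv_val (u : ι → Rˣ) :
    (((dg u)⁻¹ : (Matrix ι ι R)ˣ) : Matrix ι ι R) = diagonal fun i => (((u i)⁻¹ : Rˣ) : R) := rfl

lemma dg_conj (u : ι → Rˣ) (i j : ι) (h : i ≠ j) (r : R) :
    dg u * tv i j h r * (dg u)⁻¹ = tv i j h (u i * r * ((u j)⁻¹ : Rˣ)) := by
  ext1
  rw [Units.val_mul, Units.val_mul, tv_val, tv_val, dg_val, dg_inv_val, Matrix.mul_add,
    Matrix.add_mul, Matrix.mul_one]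
  congr 1
  · simp
  · ext a b
    by_cases ha : a = i <;> by_cases hb : b = j
    · subst ha; subst hb; simp [mul_assoc]
    · subst ha
      simp [Matrix.mul_apply, single_apply, Ne.symm hb, diagonal_apply]
    · simp [single_apply, Ne.symm ha]
    · simp [single_apply, Ne.symm ha]

/-- The group generated by the transvections with coefficients in a set. -/
def EG (ι : Type*) [DecidableEq ι] [Fintype ι] {R : Type*} [Ring R] (I : Set R) :
    Subgroup (Matrix ι ι R)ˣ :=
  Subgroup.closure {g | ∃ i j : ι, ∃ h : i ≠ j, ∃ r ∈ I, g = tv i j h r}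

lemma tv_mem (I : Set R) (i j : ι) (h : i ≠ j) (r : R) (hr : r ∈ I) : tv i j h r ∈ EG ι I :=
  Subgroup.subset_closure ⟨i, j, h, r, hr, rfl⟩

lemma EG_mono {I J : Set R} (h : I ⊆ J) : EG ι I ≤ EG ι J := by
  apply Subgroup.closure_mono
  rintro g ⟨i, j, hij, r, hr, rfl⟩
  exact ⟨i, j, hij, r, h hr, rfl⟩

/-- The elementary group. -/
abbrev E (ι : Type*) [DecidableEq ι] [Fintype ι] (R : Type*) [Ring R] :
    Subgroup (Matrix ι ι R)ˣ := EG ι (Set.univ : Set R)

lemma tv_memE (i j : ι) (h : i ≠ j) (r : R) : tv i j h r ∈ E ι R :=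
  tv_mem _ i j h r (Set.mem_univ _)

lemma EG_le_E (I : Set R) : EG ι I ≤ E ι R := EG_mono (Set.subset_univ _)

/-- induced map on general linear groups -/
def gmap (ι : Type*) [DecidableEq ι] [Fintype ι] {R S : Type*} [Ring R] [Ring S] (f : R →+* S) :
    (Matrix ι ι R)ˣ →* (Matrix ι ι S)ˣ := Units.map (f.mapMatrix : Matrix ι ι R →+* _).toMonoidHom

@[simp] lemma gmap_val (f : R →+* S) (g : (Matrix ι ι R)ˣ) :
    (gmap ι f g : Matrix ι ι S) = (g : Matrix ι ι R).map f := rfl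

lemma gmap_tv (f : R →+* S) (i j : ι) (h : i ≠ j) (r : R) :
    gmap ι f (tv i j h r) = tv i j h (f r) := by
  ext1
  rw [gmap_val, tv_val, tv_val, Matrix.map_add f (map_add f), Matrix.map_one _ (map_zero f)
    (map_one f), Matrix.map_single]

lemma gmap_comp {T : Type*} [Ring T] (f : R →+* S) (f' : S →+* T) (g : (Matrix ι ι R)ˣ) :
    gmap ι f' (gmap ι f g) = gmap ι (f'.comp f) g := by
  ext1; simp [Matrix.map_map]

lemma gmap_id (g : (Matrix ι ι R)ˣ) : gmap ι (RingHom.id R) g = g := by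
  ext1; simp

lemma gmap_EG (f : R →+* S) (I : Set R) (J : Set S) (h : ∀ r ∈ I, f r ∈ J)
    (g : (Matrix ι ι R)ˣ) (hg : g ∈ EG ι I) : gmap ι f g ∈ EG ι J := by
  have : (EG ι I) ≤ (EG ι J).comap (gmap ι f) := by
    unfold EG
    rw [Subgroup.closure_le]
    rintro g ⟨i, j, hij, r, hr, rfl⟩
    show gmap ι f _ ∈ EG ι J
    rw [gmap_tv]
    exact tv_mem _ _ _ _ _ (h r hr)
  exact this hg

lemma gmap_E (f : R →+* S) (g : (Matrix ι ι R)ˣ) (hg : g ∈ E ι R) : gmap ι f g ∈ E ι S :=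
  gmap_EG f _ _ (fun _ _ => Set.mem_univ _) g hg

/-- lift elements of the elementary group along a surjection. -/
lemma lift_EG (f : R →+* S) (I : Set R) (J : Set S) (h : ∀ s ∈ J, ∃ r ∈ I, f r = s)
    (g : (Matrix ι ι S)ˣ) (hg : g ∈ EG ι J) : ∃ g' ∈ EG ι I, gmap ι f g' = g := by
  have : EG ι J ≤ (EG ι I).map (gmap ι f) := by
    unfold EG
    rw [Subgroup.closure_le]
    rintro g ⟨i, j, hij, r, hr, rfl⟩
    obtain ⟨r', hr', rfl⟩ := h r hr
    exact ⟨tv i j hij r', tv_mem _ _ _ _ _ hr', gmap_tv _ _ _ _ _⟩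
  exact this hg

/-- Conjugation by a matrix which maps generators into a subgroup. -/
lemma conj_EG_le (I : Set R) (H : Subgroup (Matrix ι ι R)ˣ) (g : (Matrix ι ι R)ˣ)
    (h : ∀ i j : ι, ∀ hij : i ≠ j, ∀ r ∈ I, g * tv i j hij r * g⁻¹ ∈ H)
    (x : (Matrix ι ι R)ˣ) (hx : x ∈ EG ι I) : g * x * g⁻¹ ∈ H := by
  have : EG ι I ≤ H.comap (MulAut.conj g).toMonoidHom := by
    unfold EG
    rw [Subgroup.closure_le]
    rintro y ⟨i, j, hij, r, hr, rfl⟩
    exact h i j hij r hr
  exact this hx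

lemma dg_conj_EG (u : ι → Rˣ) (I : Set R) (hI : ∀ i j : ι, ∀ r ∈ I, (u i : R) * r * ((u j)⁻¹ : Rˣ) ∈ I)
    (x : (Matrix ι ι R)ˣ) (hx : x ∈ EG ι I) : dg u * x * (dg u)⁻¹ ∈ EG ι I := by
  apply conj_EG_le I _ _ _ x hx
  intro i j hij r hr
  rw [dg_conj]
  exact tv_mem _ _ _ _ _ (hI i j r hr)

lemma dg_conj_E (u : ι → Rˣ) (x : (Matrix ι ι R)ˣ) (hx : x ∈ E ι R) :
    dg u * x * (dg u)⁻¹ ∈ E ι R :=
  dg_conj_EG u _ (fun _ _ _ _ => Set.mem_univ _) x hx

/-- column operations -/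
lemma col_mem (I : Set R) (k : ι) (v : ι → R) (s : Finset ι) (hs : k ∉ s) (hv : ∀ i ∈ s, v i ∈ I) :
    ∃ g ∈ EG ι I, (g : Matrix ι ι R) = 1 + ∑ i ∈ s, single i k (v i) := by
  induction s using Finset.induction_on with
  | empty => exact ⟨1, one_mem _, by simp⟩
  | insert a s ha ih =>
    have hka : a ≠ k := fun h => hs (by simp [h])
    obtain ⟨g, hg, hg'⟩ := ih (fun h => hs (by simp [h])) (fun i hi => hv i (by simp [hi]))
    refine ⟨tv a k hka (v a) * g, mul_mem (tv_mem _ _ _ _ _ (hv a (by simp))) hg, ?_⟩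
    rw [Units.val_mul, hg', tv_val, Finset.sum_insert ha, Matrix.add_mul, Matrix.mul_add,
      Matrix.mul_add]
    have : (single a k (v a) : Matrix ι ι R) * ∑ i ∈ s, single i k (v i) = 0 := by
      rw [Matrix.mul_sum]
      apply Finset.sum_eq_zero
      intro i hi
      apply sms
      rintro rfl
      exact hs (by simp [hi])
    rw [this]
    simp only [Matrix.one_mul, Matrix.mul_one, add_zero]
    abel

/-- row operations -/
lemma row_mem (I : Set R) (k : ι) (v : ι → R) (s : Finset ι) (hs : k ∉ s) (hv : ∀ i ∈ s, v i ∈ I) :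
    ∃ g ∈ EG ι I, (g : Matrix ι ι R) = 1 + ∑ i ∈ s, single k i (v i) := by
  induction s using Finset.induction_on with
  | empty => exact ⟨1, one_mem _, by simp⟩
  | insert a s ha ih =>
    have hka : k ≠ a := fun h => hs (by simp [h])
    obtain ⟨g, hg, hg'⟩ := ih (fun h => hs (by simp [h])) (fun i hi => hv i (by simp [hi]))
    refine ⟨tv k a hka (v a) * g, mul_mem (tv_mem _ _ _ _ _ (hv a (by simp))) hg, ?_⟩
    rw [Units.val_mul, hg', tv_val, Finset.sum_insert ha, Matrix.add_mul, Matrix.mul_add,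
      Matrix.mul_add]
    have : (single k a (v a) : Matrix ι ι R) * ∑ i ∈ s, single k i (v i) = 0 := by
      rw [Matrix.mul_sum]
      apply Finset.sum_eq_zero
      intro i hi
      exact sms hka.symm _ _
    rw [this]
    simp only [Matrix.one_mul, Matrix.mul_one, add_zero]
    abel

end basic

end Pool.Agent.W5h54.EN
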