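import Pool.Agent.W5h54.EN.Elem

set_option autoImplicit false

/-!
Localization of noncommutative rings at central elements, and scaling of polynomials.
-/

namespace Pool.Agent.W5h54.EN

open Matrix Polynomial

section loc

variable {Z : Type*} [CommRing Z] {R : Type*} [Ring R] [Algebra Z R] {R' : Type*} [Ring R']
  [Algebra Z R']

/-- `f` is a localization at the central multiplicative set `S`. -/
structure IsLoc (S : Submonoid Z) (f : R →+* R') : Prop where
  alg : ∀ z : Z, f (algebraMap Z R z) = algebraMap Z R' z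
  isUnit : ∀ s ∈ S, IsUnit (algebraMap Z R' s)
  surj : ∀ y : R', ∃ s ∈ S, ∃ r : R, algebraMap Z R' s * y = f r
  ker : ∀ r : R, f r = 0 → ∃ s ∈ S, algebraMap Z R s * r = 0

lemma alg_comm (z : Z) (r : R) : algebraMap Z R z * r = r * algebraMap Z R z :=
  Algebra.commutes z r

lemma IsLoc.poly {S : Submonoid Z} {f : R →+* R'} (h : IsLoc S f) :
    IsLoc (R := R[X]) (R' := R'[X]) S (mapRingHom f) where
  alg z := by
    rw [Polynomial.algebraMap_apply, Polynomial.algebraMap_apply, coe_mapRingHom,
      Polynomial.map_C, h.alg]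
  isUnit s hs := by
    rw [Polynomial.algebraMap_apply]
    exact (h.isUnit s hs).map C
  surj y := by
    induction y using Polynomial.induction_on' with
    | add p q hp hq =>
      obtain ⟨s, hs, r, hr⟩ := hp
      obtain ⟨t, ht, r', hr'⟩ := hq
      refine ⟨s * t, mul_mem hs ht, algebraMap Z R[X] t * r + algebraMap Z R[X] s * r', ?_⟩
      have e : ∀ z : Z, (mapRingHom f) (algebraMap Z R[X] z) = algebraMap Z R'[X] z := by
        intro z
        rw [Polynomial.algebraMap_apply, Polynomial.algebraMap_apply, coe_mapRingHom,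
          Polynomial.map_C, h.alg]
      rw [mul_add, map_add (mapRingHom f), map_mul (mapRingHom f), map_mul (mapRingHom f), ← hr,
        ← hr', e, e, ← mul_assoc, ← mul_assoc, ← map_mul, ← map_mul, mul_comm s t]
    | monomial n a =>
      obtain ⟨s, hs, r, hr⟩ := h.surj a
      refine ⟨s, hs, monomial n r, ?_⟩
      rw [Polynomial.algebraMap_apply, Polynomial.C_mul_monomial,
        hr, coe_mapRingHom, Polynomial.map_monomial]
  ker p hp := by
    have h1 : ∀ k, ∃ s ∈ S, algebraMap Z R s * p.coeff k = 0 := by
      intro k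
      apply h.ker
      have := congrArg (fun q => q.coeff k) hp
      simpa using this
    choose s hs hs' using h1
    refine ⟨∏ k ∈ p.support, s k, Submonoid.prod_mem _ fun k _ => hs k, ?_⟩
    ext k
    rw [Polynomial.algebraMap_apply, Polynomial.coeff_C_mul, Polynomial.coeff_zero]
    by_cases hk : k ∈ p.support
    · rw [← Finset.prod_erase_mul _ _ hk, map_mul, mul_assoc, hs', mul_zero]
    · rw [Polynomial.notMem_support_iff.1 hk, mul_zero]

/-- a finite set of elements of the kernel is killed by one element -/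
lemma IsLoc.ker_fin {S : Submonoid Z} {f : R →+* R'} (h : IsLoc S f) {κ : Type*} [Fintype κ]
    (r : κ → R) (hr : ∀ k, f (r k) = 0) : ∃ s ∈ S, ∀ k, algebraMap Z R s * r k = 0 := by
  classical
  have h1 : ∀ k, ∃ s ∈ S, algebraMap Z R s * r k = 0 := fun k => h.ker _ (hr k)
  choose s hs hs' using h1
  refine ⟨∏ k, s k, Submonoid.prod_mem _ fun k _ => hs k, fun k => ?_⟩
  rw [← Finset.prod_erase_mul _ _ (Finset.mem_univ k), map_mul, mul_assoc, hs', mul_zero]

lemma lm_one (S : Submonoid Z) (R : Type*) [Ring R] [Algebra Z R] :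
    (1 : LocalizedModule S R) = LocalizedModule.mk 1 1 := OreLocalization.one_def

/-- the canonical map to the localized module -/
def locMap (S : Submonoid Z) (R : Type*) [Ring R] [Algebra Z R] : R →+* LocalizedModule S R where
  toFun r := LocalizedModule.mk r 1
  map_one' := (lm_one S R).symm
  map_zero' := LocalizedModule.zero_mk _
  map_mul' a b := by rw [LocalizedModule.mk_mul_mk, one_mul]
  map_add' a b := by rw [LocalizedModule.mk_add_mk]; simp

lemma lm_alg (S : Submonoid Z) (z : Z) :
    algebraMap Z (LocalizedModule S R) z = LocalizedModule.mk (algebraMap Z R z) 1 := rfl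

lemma isLoc_locMap (S : Submonoid Z) : IsLoc S (locMap S R) where
  alg z := rfl
  isUnit s hs := by
    rw [lm_alg]
    refine ⟨⟨LocalizedModule.mk (algebraMap Z R s) 1, LocalizedModule.mk 1 ⟨s, hs⟩, ?_, ?_⟩, rfl⟩
    · rw [LocalizedModule.mk_mul_mk, mul_one, one_mul]
      rw [lm_one]
      rw [LocalizedModule.mk_eq]
      exact ⟨1, by simp [Submonoid.smul_def, Algebra.smul_def]⟩
    · rw [LocalizedModule.mk_mul_mk, mul_one, one_mul]
      rw [lm_one]
      rw [LocalizedModule.mk_eq]
      exact ⟨1, by simp [Submonoid.smul_def, Algebra.smul_def]⟩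
  surj y := by
    induction y using LocalizedModule.induction_on with
    | _ m s =>
      refine ⟨s, s.2, m, ?_⟩
      rw [lm_alg]
      show LocalizedModule.mk _ _ * _ = LocalizedModule.mk _ _
      rw [LocalizedModule.mk_mul_mk, one_mul, LocalizedModule.mk_eq]
      exact ⟨1, by simp [Submonoid.smul_def, Algebra.smul_def]⟩
  ker r hr := by
    have : LocalizedModule.mk (S := S) r 1 = 0 := hr
    rw [← LocalizedModule.zero_mk 1, LocalizedModule.mk_eq] at this
    obtain ⟨u, hu⟩ := this
    refine ⟨u, u.2, ?_⟩
    simpa [Submonoid.smul_def, Algebra.smul_def] using hu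

end loc

section scale

variable {Z : Type*} [CommRing Z] {R : Type*} [Ring R] [Algebra Z R] {R' : Type*} [Ring R']

lemma commX (a : R) : Commute (C a) (X : R[X]) := (Polynomial.commute_X _).symm

/-- scaling of the variable -/
noncomputable def sc (s : Z) : R[X] →+* R[X] :=
  eval₂RingHom' C (algebraMap Z R[X] s * X) (fun a =>
    Commute.mul_right (alg_comm s (C a)).symm (commX a))

@[simp] lemma sc_C (s : Z) (a : R) : sc s (C a) = C a := by
  show eval₂ _ _ _ = _
  simp

@[simp] lemma sc_X (s : Z) : sc s (X : R[X]) = algebraMap Z R[X] s * X := by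
  show eval₂ _ _ _ = _
  simp

lemma sc_monomial (s : Z) (n : ℕ) (a : R) :
    sc s (monomial n a) = monomial n (algebraMap Z R (s ^ n) * a) := by
  rw [← C_mul_X_pow_eq_monomial, map_mul, map_pow, sc_C, sc_X, Polynomial.algebraMap_apply,
    (commX (algebraMap Z R s)).mul_pow, ← C_mul_X_pow_eq_monomial, ← C_pow, ← mul_assoc, ← C_mul,
    map_pow, ← map_pow, alg_comm]

lemma sc_coeff (s : Z) (p : R[X]) (k : ℕ) :
    (sc s p).coeff k = algebraMap Z R (s ^ k) * p.coeff k := by
  induction p using Polynomial.induction_on' with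
  | add p q hp hq => rw [map_add, coeff_add, coeff_add, hp, hq, mul_add]
  | monomial n a =>
    rw [sc_monomial, coeff_monomial, coeff_monomial]
    split_ifs with h
    · rw [h]
    · simp

lemma sc_sc (s t : Z) : (sc s : R[X] →+* R[X]).comp (sc t) = sc (t * s) := by
  apply ringHom_ext
  · intro a; simp
  · simp only [RingHom.comp_apply, sc_X, map_mul]
    rw [Polynomial.algebraMap_apply, Polynomial.algebraMap_apply, sc_C, ← mul_assoc]

lemma sc_cc (s : Z) : (constantCoeff : R[X] →+* R).comp (sc s) = constantCoeff := by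
  apply RingHom.ext
  intro p
  show (sc s p).coeff 0 = p.coeff 0
  rw [sc_coeff]; simp

end scale

end Pool.Agent.W5h54.EN
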