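import Pool.Agent.W5h54.EN.Red

set_option autoImplicit false

/-!
Matrices congruent to `1` modulo an ideal in the Jacobson radical commute with everything modulo
the elementary group.
-/

namespace Pool.Agent.W5h54.EN

open Matrix

section rad

variable {ι : Type*} [DecidableEq ι] [Fintype ι] {R : Type*} [Ring R]

/-- diagonal matrix with one entry -/
def d1 (k : ι) : Rˣ →* (Matrix ι ι R)ˣ := dg.comp (MonoidHom.mulSingle (fun _ : ι => Rˣ) k)

lemma d1_eq (k : ι) (u : Rˣ) : d1 k u = dg (Pi.mulSingle k u) := rfl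

lemma d1_val (k : ι) (u : Rˣ) :
    ((d1 k u : (Matrix ι ι R)ˣ) : Matrix ι ι R) = 1 + single k k ((u : R) - 1) := by
  rw [d1_eq, dg_val]
  ext i j
  rw [diagonal_apply, Matrix.add_apply, Matrix.one_apply, single_apply]
  by_cases hij : i = j
  · subst hij
    by_cases hk : k = i
    · subst hk; simp
    · simp [hk, Pi.mulSingle_eq_of_ne (Ne.symm hk)]
  · have : ¬ (k = i ∧ k = j) := fun h => hij (h.1.symm.trans h.2)
    simp [hij, this]

lemma d1_conj_E (k : ι) (u : Rˣ) (x : (Matrix ι ι R)ˣ) (hx : x ∈ E ι R) :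
    d1 k u * x * (d1 k u)⁻¹ ∈ E ι R := dg_conj_E _ x hx

lemma d1_conj_E' (k : ι) (u : Rˣ) (x : (Matrix ι ι R)ˣ) (hx : x ∈ E ι R) :
    (d1 k u)⁻¹ * x * d1 k u ∈ E ι R := by
  have := d1_conj_E k u⁻¹ x hx
  rwa [map_inv, inv_inv] at this

/-- `diag(1 + ab, (1 + ba)⁻¹)` is elementary -/
lemma vas (i j : ι) (hij : i ≠ j) (a b : R) (α β : Rˣ) (hα : (α : R) = 1 + a * b)
    (hβ : (β : R) = 1 + b * a) : d1 i α * (d1 j β)⁻¹ ∈ E ι R := by
  have h1 : ((α⁻¹ : Rˣ) : R) * a = a * ((β⁻¹ : Rˣ) : R) := by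
    rw [Units.inv_mul_eq_iff_eq_mul, ← mul_assoc, Units.eq_mul_inv_iff_mul_eq, hα, hβ]
    noncomm_ring
  have key : d1 i α * (d1 j β)⁻¹ =
      tv j i hij.symm (-(b * ((α⁻¹ : Rˣ) : R))) * tv i j hij a * tv j i hij.symm b *
        tv i j hij (-(((α⁻¹ : Rˣ) : R) * a)) := by
    ext1
    rw [← map_inv, Units.val_mul, Units.val_mul, Units.val_mul, Units.val_mul, d1_val, d1_val,
      tv_val, tv_val, tv_val, tv_val]
    have e1 : a + (-(((α⁻¹ : Rˣ) : R) * a)) + a * b * (-(((α⁻¹ : Rˣ) : R) * a)) = 0 := by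
      have : (1 + a * b) * (((α⁻¹ : Rˣ) : R) * a) = a := by
        rw [← hα, Units.mul_inv_cancel_left]
      calc _ = a - (1 + a * b) * (((α⁻¹ : Rˣ) : R) * a) := by noncomm_ring
        _ = 0 := by rw [this, sub_self]
    have e2 : b + (-(b * ((α⁻¹ : Rˣ) : R))) + (-(b * ((α⁻¹ : Rˣ) : R))) * (a * b) = 0 := by
      have : (b * ((α⁻¹ : Rˣ) : R)) * (1 + a * b) = b := by
        rw [← hα, Units.inv_mul_cancel_right]
      calc _ = b - (b * ((α⁻¹ : Rˣ) : R)) * (1 + a * b) := by noncomm_ring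
        _ = 0 := by rw [this, sub_self]
    have e3 : (((β⁻¹ : Rˣ) : R) - 1) = -(b * ((α⁻¹ : Rˣ) : R)) * a := by
      have h2 : (β : R) * ((β⁻¹ : Rˣ) : R) = 1 := Units.mul_inv β
      rw [hβ] at h2
      calc ((β⁻¹ : Rˣ) : R) - 1 = ((β⁻¹ : Rˣ) : R) - (1 + b * a) * ((β⁻¹ : Rˣ) : R) := by rw [h2]
        _ = -(b * (a * ((β⁻¹ : Rˣ) : R))) := by noncomm_ring
        _ = _ := by rw [← h1]; noncomm_ring
    rw [e3]
    have hji := hij.symm
    simp only [Matrix.mul_add, Matrix.add_mul, Matrix.one_mul, Matrix.mul_one, smm, sms hij,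
      sms hji, Matrix.zero_mul, add_zero, zero_add, ← mul_assoc]
    rw [hα]
    set x := -(b * ((α⁻¹ : Rˣ) : R)) with hx
    set y := -(((α⁻¹ : Rˣ) : R) * a) with hy
    have E1 : (single i j a : Matrix ι ι R) + single i j y + single i j (a * b * y) = 0 := by
      rw [← single_add, ← single_add, e1, single_zero]
    have E2 : (single j i b : Matrix ι ι R) + single j i x + single j i (x * a * b) = 0 := by
      rw [← single_add, ← single_add, mul_assoc, e2, single_zero]
    have E3 : (single j j (b * y) : Matrix ι ι R) + single j j (x * y) +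
        single j j (x * a * b * y) = 0 := by
      rw [← single_add, ← single_add]
      have : b * y + x * y + x * a * b * y = (b + x + x * (a * b)) * y := by noncomm_ring
      rw [this, e2, zero_mul, single_zero]
    have E4 : (1 + a * b - 1 : R) = a * b := by abel
    rw [E4]
    symm
    calc _ = (1 + single i i (a * b) + single j j (x * a)) +
          (single i j a + single i j y + single i j (a * b * y)) +
          (single j i b + single j i x + single j i (x * a * b)) +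
          (single j j (b * y) + single j j (x * y) + single j j (x * a * b * y)) := by abel
      _ = _ := by rw [E1, E2, E3]; simp
  rw [key]
  exact mul_mem (mul_mem (mul_mem (tv_memE _ _ _ _) (tv_memE _ _ _ _)) (tv_memE _ _ _ _))
    (tv_memE _ _ _ _)

lemma d1_swap (i j : ι) (u : Rˣ) : d1 i u * (d1 j u)⁻¹ ∈ E ι R := by
  by_cases h : i = j
  · subst h; simp
  · exact vas i j h ((u : R) - 1) 1 u u (by simp) (by simp)

/-- the normal subgroup of units whose diagonal matrices are elementary -/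
def V (k : ι) (R : Type*) [Ring R] : Subgroup Rˣ := (E ι R).comap (d1 k)

instance V_normal (k : ι) : (V k R).Normal where
  conj_mem x hx u := by
    show d1 k (u * x * u⁻¹) ∈ E ι R
    rw [map_mul, map_mul, map_inv]
    exact d1_conj_E k u _ hx

lemma d1_move (i j : ι) (u : Rˣ) : d1 i u ∈ E ι R ↔ d1 j u ∈ E ι R := by
  have h := d1_swap i j u
  constructor
  · intro hi
    have := mul_mem (inv_mem h) hi
    simpa [mul_assoc] using this
  · intro hj
    have := mul_mem h hj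
    simpa [mul_assoc] using this

lemma vas_V [Nontrivial ι] (k : ι) (a b : R) (α β : Rˣ) (hα : (α : R) = 1 + a * b)
    (hβ : (β : R) = 1 + b * a) : α * β⁻¹ ∈ V k R := by
  obtain ⟨j, hj⟩ := exists_ne k
  have h := vas k j hj.symm a b α β hα hβ
  have h2 := d1_swap j k β
  show d1 k (α * β⁻¹) ∈ E ι R
  rw [map_mul, map_inv]
  have := mul_mem h h2
  simpa [mul_assoc] using this

lemma comm_V [Nontrivial ι] (k : ι) (u v : Rˣ) : (u * v) * (v * u)⁻¹ ∈ V k R :=
  vas_V k (u : R) ((v : R) - ((u⁻¹ : Rˣ) : R)) _ _ (by simp [mul_sub]) (by simp [sub_mul])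

/-- `x` is congruent to `d1 k u` modulo the elementary group. -/
def Cg (k : ι) (x : (Matrix ι ι R)ˣ) (u : Rˣ) : Prop := x * (d1 k u)⁻¹ ∈ E ι R

lemma Cg_mul {k : ι} {x y : (Matrix ι ι R)ˣ} {u v : Rˣ} (hx : Cg k x u) (hy : Cg k y v) :
    Cg k (x * y) (u * v) := by
  unfold Cg at *
  have : x * y * (d1 k (u * v))⁻¹ = (x * (d1 k u)⁻¹) * (d1 k u * (y * (d1 k v)⁻¹) * (d1 k u)⁻¹) := by
    rw [map_mul]; group
  rw [this]
  exact mul_mem hx (d1_conj_E k u _ hy)

lemma Cg_congr {k : ι} {x : (Matrix ι ι R)ˣ} {u v : Rˣ} (hx : Cg k x u) (h : u * v⁻¹ ∈ V k R) :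
    Cg k x v := by
  unfold Cg at *
  have : x * (d1 k v)⁻¹ = (x * (d1 k u)⁻¹) * d1 k (u * v⁻¹) := by
    rw [map_mul, map_inv]; group
  rw [this]
  exact mul_mem hx h

lemma Cg_one {k : ι} : Cg k (1 : (Matrix ι ι R)ˣ) 1 := by
  unfold Cg; simp

lemma Cg_E {k : ι} {x : (Matrix ι ι R)ˣ} : Cg k x 1 ↔ x ∈ E ι R := by
  unfold Cg; simp

lemma Cg_d1 (k j : ι) (u : Rˣ) : Cg k (d1 j u) u := d1_swap j k u

lemma Cg_d1_E (k j : ι) (u : Rˣ) (x e : (Matrix ι ι R)ˣ) (he : e ∈ E ι R) (hx : x = d1 j u * e) :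
    Cg k x u := by
  subst hx
  have := Cg_mul (Cg_d1 k j u) (Cg_E.2 he : Cg k e 1)
  rwa [mul_one] at this

/-- one row -/
lemma row_fact (N : Ideal R) [N.IsTwoSided] (hN : IsRad N) (k i : ι) (b : R) (hb : b ∈ N)
    (w : ι → R) (c : Rˣ) (hc : (c : R) = 1 + b * w i) :
    ∃ x : (Matrix ι ι R)ˣ, (x : Matrix ι ι R) = 1 + ∑ j, single i j (b * w j) ∧ Cg k x c := by
  obtain ⟨r, hr, hr'⟩ := row_mem (Set.univ : Set R) i
    (fun j => ((c⁻¹ : Rˣ) : R) * (b * w j)) (Finset.univ.erase i)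
    (Finset.notMem_erase _ _) (fun _ _ => Set.mem_univ _)
  refine ⟨d1 i c * r, ?_, Cg_d1_E k i c _ r hr rfl⟩
  rw [Units.val_mul, hr', d1_val, ← Finset.add_sum_erase _ _ (Finset.mem_univ i), hc,
    add_sub_cancel_left, Matrix.mul_add, Matrix.mul_one, Matrix.mul_sum, add_assoc]
  congr 2
  apply Finset.sum_congr rfl
  intro j _
  rw [Matrix.add_mul, Matrix.one_mul, smm, ← single_add]
  congr 1
  calc _ = (1 + b * w i) * (((c⁻¹ : Rˣ) : R) * (b * w j)) := by noncomm_ring
    _ = _ := by rw [← hc, Units.mul_inv_cancel_left]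

theorem rank_one_fact [Nontrivial ι] (N : Ideal R) [N.IsTwoSided] (hN : IsRad N) (k : ι) (ν : R)
    (hν : ν ∈ N) (v w : ι → R) (s : Finset ι) (c : Rˣ)
    (hc : (c : R) = 1 + (∑ i ∈ s, w i * v i) * ν) :
    ∃ x : (Matrix ι ι R)ˣ, (x : Matrix ι ι R) = 1 + ∑ i ∈ s, ∑ j, single i j (v i * ν * w j) ∧
      Cg k x c := by
  induction s using Finset.induction_on generalizing c with
  | empty =>
    refine ⟨1, by simp, ?_⟩
    have : c = 1 := by ext1; rw [hc]; simp
    rw [this]; exact Cg_one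
  | insert a s ha ih =>
    obtain ⟨c', hc'⟩ := hN ((∑ i ∈ s, w i * v i) * ν) (N.mul_mem_left _ hν)
    obtain ⟨x, hx, hx'⟩ := ih c' hc'
    have hb : v a * ν * ((c'⁻¹ : Rˣ) : R) ∈ N := N.mul_mem_right _ (N.mul_mem_left _ hν)
    obtain ⟨c1, hc1⟩ := hN (v a * ν * ((c'⁻¹ : Rˣ) : R) * w a) (N.mul_mem_right _ hb)
    obtain ⟨c2, hc2⟩ := hN (w a * (v a * ν * ((c'⁻¹ : Rˣ) : R))) (N.mul_mem_left _ hb)
    obtain ⟨y, hy, hy'⟩ := row_fact N hN k a _ hb w c1 hc1
    refine ⟨y * x, ?_, ?_⟩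
    · have hwx : ∀ b, ∑ j, w j * (x : Matrix ι ι R) j b = (c' : R) * w b := by
        intro b
        have : ∀ j, (x : Matrix ι ι R) j b =
            (1 : Matrix ι ι R) j b + if j ∈ s then v j * ν * w b else 0 := by
          intro j
          rw [hx, Matrix.add_apply, Matrix.sum_apply]
          congr 1
          rw [Finset.sum_congr rfl (g := fun i => if j = i then v j * ν * w b else 0)]
          · rw [Finset.sum_ite_eq]
          · intro i _
            rw [Matrix.sum_apply, Finset.sum_eq_single b]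
            · by_cases h : j = i
              · subst h; simp
              · simp [h, Ne.symm h]
            · intro j' _ hj'
              simp [hj']
            · simp
        simp_rw [this, mul_add, Finset.sum_add_distrib, Matrix.one_apply]
        rw [hc', add_mul, one_mul]
        congr 1
        · simp
        · simp only [mul_ite, mul_zero, Finset.sum_ite_mem, Finset.univ_inter]
          rw [Finset.sum_mul, Finset.sum_mul]
          exact Finset.sum_congr rfl fun j _ => by noncomm_ring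
      rw [Units.val_mul, hy, Matrix.add_mul, Matrix.one_mul, Finset.sum_insert ha, hx]
      rw [← hx]
      have : (∑ j, single a j (v a * ν * ((c'⁻¹ : Rˣ) : R) * w j)) * (x : Matrix ι ι R) =
          ∑ j, single a j (v a * ν * w j) := by
        have h1 : ∀ (f : ι → R) (p j : ι), (∑ c, (single a c (f c) : Matrix ι ι R)) p j
            = if a = p then f j else 0 := by
          intro f p j
          rw [Matrix.sum_apply, Finset.sum_eq_single j]
          · simp [single_apply]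
          · intro b _ hb; simp [hb]
          · simp
        ext p q
        rw [Matrix.mul_apply, h1 (fun j => v a * ν * w j)]
        simp_rw [h1 (fun j => v a * ν * ((c'⁻¹ : Rˣ) : R) * w j)]
        by_cases hp : a = p
        · simp only [hp, if_true]
          simp_rw [mul_assoc]
          rw [← Finset.mul_sum, ← Finset.mul_sum, ← Finset.mul_sum, hwx]
          simp
        · simp [hp]
      rw [this, hx]
      abel
    · have hcc : c2 = c * c'⁻¹ := by
        rw [eq_mul_inv_iff_mul_eq]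
        ext1
        rw [Units.val_mul, hc2, hc, hc', Finset.sum_insert ha]
        have : w a * (v a * ν * ((c'⁻¹ : Rˣ) : R)) * (1 + (∑ i ∈ s, w i * v i) * ν) =
          w a * v a * ν := by
          rw [← hc', ← mul_assoc, ← mul_assoc, Units.inv_mul_cancel_right]
        rw [add_mul, this]
        noncomm_ring
      have h1 := vas_V k _ _ c1 c2 hc1 hc2
      have h2 := Cg_mul (Cg_congr hy' h1) hx'
      rwa [hcc, inv_mul_cancel_right] at h2

lemma single_conj (g : (Matrix ι ι R)ˣ) (i j : ι) (ν : R) :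
    (g : Matrix ι ι R) * single i j ν * ((g⁻¹ : (Matrix ι ι R)ˣ) : Matrix ι ι R) =
      ∑ a, ∑ b, single a b ((g : Matrix ι ι R) a i * ν *
        ((g⁻¹ : (Matrix ι ι R)ˣ) : Matrix ι ι R) j b) := by
  ext p q
  rw [Matrix.sum_apply, Finset.sum_eq_single p]
  · rw [Matrix.sum_apply, Finset.sum_eq_single q]
    · rw [Matrix.mul_apply, Finset.sum_eq_single j]
      · simp
      · intro b _ hb; simp [hb]
      · simp
    · intro b _ hb; simp [hb]
    · simp
  · intro b _ hb
    rw [Matrix.sum_apply]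
    simp [hb]
  · simp

lemma tv_conj_rad [Nontrivial ι] (N : Ideal R) [N.IsTwoSided] (hN : IsRad N) (g : (Matrix ι ι R)ˣ)
    (i j : ι) (h : i ≠ j) (ν : R) (hν : ν ∈ N) : g * tv i j h ν * g⁻¹ ∈ E ι R := by
  have hs : ∑ a, ((g⁻¹ : (Matrix ι ι R)ˣ) : Matrix ι ι R) j a * (g : Matrix ι ι R) a i = 0 := by
    have := congrFun (congrFun (Units.inv_mul g) j) i
    rwa [Matrix.mul_apply, Matrix.one_apply_ne h.symm] at this
  obtain ⟨x, hx, hx'⟩ := rank_one_fact N hN i ν hν (fun a => (g : Matrix ι ι R) a i)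
    (fun b => ((g⁻¹ : (Matrix ι ι R)ˣ) : Matrix ι ι R) j b) Finset.univ 1 (by rw [hs]; simp)
  have : g * tv i j h ν * g⁻¹ = x := by
    ext1
    rw [hx, Units.val_mul, Units.val_mul, tv_val, Matrix.mul_add, Matrix.add_mul, Matrix.mul_one,
      Units.mul_inv, single_conj]
  rw [this]
  exact Cg_E.1 hx'

lemma d1_conj_rad [Nontrivial ι] (N : Ideal R) [N.IsTwoSided] (hN : IsRad N) (g : (Matrix ι ι R)ˣ)
    (i : ι) (u : Rˣ) (hu : (u : R) - 1 ∈ N) : g * d1 i u * g⁻¹ * (d1 i u)⁻¹ ∈ E ι R := by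
  have hs : ∑ a, ((g⁻¹ : (Matrix ι ι R)ˣ) : Matrix ι ι R) i a * (g : Matrix ι ι R) a i = 1 := by
    have := congrFun (congrFun (Units.inv_mul g) i) i
    rwa [Matrix.mul_apply, Matrix.one_apply_eq] at this
  obtain ⟨x, hx, hx'⟩ := rank_one_fact N hN i _ hu (fun a => (g : Matrix ι ι R) a i)
    (fun b => ((g⁻¹ : (Matrix ι ι R)ˣ) : Matrix ι ι R) i b) Finset.univ u (by rw [hs]; simp)
  have : g * d1 i u * g⁻¹ = x := by
    ext1
    rw [hx, Units.val_mul, Units.val_mul, d1_val, Matrix.mul_add, Matrix.add_mul, Matrix.mul_one,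
      Units.mul_inv, single_conj]
  rw [this]
  exact hx'

/-- **Radical lemma.** -/
theorem comm_rad [Nontrivial ι] (N : Ideal R) [N.IsTwoSided] (hN : IsRad N)
    (g h : (Matrix ι ι R)ˣ) (hh : h ∈ Gam ι N) : g * h * g⁻¹ * h⁻¹ ∈ E ι R := by
  obtain ⟨e, he, u, hu, rfl⟩ := red_rad N hN h hh
  have h1 : g * e * g⁻¹ ∈ E ι R :=
    conj_EG_le (N : Set R) (E ι R) g (fun i j hij r hr => tv_conj_rad N hN g i j hij r hr) e he
  have h2 : ∀ s : Finset ι, g * dg (fun i => if i ∈ s then u i else 1) * g⁻¹ *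
      (dg (fun i => if i ∈ s then u i else 1))⁻¹ ∈ E ι R := by
    intro s
    induction s using Finset.induction_on with
    | empty =>
      have : (fun i : ι => if i ∈ (∅ : Finset ι) then u i else (1 : Rˣ)) = 1 := by
        funext i; simp
      rw [this, map_one]; simp
    | insert a s ha ih =>
      have h3 : (fun i : ι => if i ∈ insert a s then u i else (1 : Rˣ)) =
          Pi.mulSingle a (u a) * (fun i => if i ∈ s then u i else 1) := by
        funext i
        by_cases hi : i = a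
        · subst hi; simp [ha]
        · simp [hi, Pi.mulSingle_eq_of_ne hi]
      rw [h3, map_mul, ← d1_eq]
      have h4 := d1_conj_rad N hN g a (u a) (hu a)
      set D := dg (fun i => if i ∈ s then u i else (1 : Rˣ)) with hD
      have h5 := d1_conj_E a (u a) _ ih
      have : g * (d1 a (u a) * D) * g⁻¹ * (d1 a (u a) * D)⁻¹ =
          (g * d1 a (u a) * g⁻¹ * (d1 a (u a))⁻¹) *
            (d1 a (u a) * (g * D * g⁻¹ * D⁻¹) * (d1 a (u a))⁻¹) := by group
      rw [this]
      exact mul_mem h4 h5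
  have h3 := h2 Finset.univ
  simp only [Finset.mem_univ, if_true] at h3
  have : g * (e * dg u) * g⁻¹ * (e * dg u)⁻¹ =
      (g * e * g⁻¹) * (g * dg (fun i => u i) * g⁻¹ * (dg (fun i => u i))⁻¹) * e⁻¹ := by
    group
  rw [this]
  exact mul_mem (mul_mem h1 h3) (inv_mem (EG_le_E _ he))

/-- commutators of elements of `E * Gam N` -/
theorem comm_rad_E [Nontrivial ι] (N : Ideal R) [N.IsTwoSided] (hN : IsRad N)
    (e₁ h₁ e₂ h₂ : (Matrix ι ι R)ˣ) (he₁ : e₁ ∈ E ι R) (he₂ : e₂ ∈ E ι R)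
    (hh₁ : h₁ ∈ Gam ι N) (hh₂ : h₂ ∈ Gam ι N) :
    (e₁ * h₁) * (e₂ * h₂) * (e₁ * h₁)⁻¹ * (e₂ * h₂)⁻¹ ∈ E ι R := by
  have n1 : ∀ h ∈ Gam ι N, ∀ e ∈ E ι R, h * e * h⁻¹ ∈ E ι R := by
    intro h hh e he
    have h1 := comm_rad N hN e h⁻¹ (inv_mem hh)
    have h2 := inv_mem h1
    have h3 : h * e * h⁻¹ = e * (e⁻¹ * h * e * h⁻¹) := by group
    rw [h3]
    refine mul_mem he ?_
    have h4 := comm_rad N hN e⁻¹ h hh
    rwa [inv_inv] at h4
  have : (e₁ * h₁) * (e₂ * h₂) * (e₁ * h₁)⁻¹ * (e₂ * h₂)⁻¹ =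
      e₁ * (h₁ * e₂ * h₁⁻¹) * (h₁ * h₂ * h₁⁻¹ * h₂⁻¹) * (h₂ * e₁⁻¹ * h₂⁻¹) * e₂⁻¹ := by
    group
  rw [this]
  exact mul_mem (mul_mem (mul_mem (mul_mem he₁ (n1 _ hh₁ _ he₂)) (comm_rad N hN h₁ h₂ hh₂))
    (n1 _ hh₂ _ (inv_mem he₁))) (inv_mem he₂)

end rad

end Pool.Agent.W5h54.EN
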