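import Pool.Agent.W5h54.EN.LocF
import Pool.Agent.W5h54.EN.Rad

set_option autoImplicit false

/-!
The inductive step: normality of the elementary group modulo the ideal generated by
central values implies normality.
-/

namespace Pool.Agent.W5h54.EN

open Matrix Polynomial

/-- elements carried into `H` by conjugation with `g` -/
def cjs {G : Type*} [Group G] (g : G) (H : Subgroup G) : Subgroup G where
  carrier := {x | g * x * g⁻¹ ∈ H}
  one_mem' := by
    show g * 1 * g⁻¹ ∈ H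
    simp
  mul_mem' := by
    intro a b ha hb
    have := H.mul_mem ha hb
    show g * (a * b) * g⁻¹ ∈ H
    convert this using 1
    group
  inv_mem' := by
    intro a ha
    have := H.inv_mem ha
    show g * a⁻¹ * g⁻¹ ∈ H
    convert this using 1
    group

lemma mem_cjs {G : Type*} [Group G] (g : G) (H : Subgroup G) (x : G) :
    x ∈ cjs g H ↔ g * x * g⁻¹ ∈ H := Iff.rfl

section basic

variable {ι : Type*} [DecidableEq ι] [Fintype ι] {A : Type*} [Ring A]

/-- the constant embedding -/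
noncomputable abbrev cst (g : (Matrix ι ι A)ˣ) : (Matrix ι ι A[X])ˣ := gmap ι C g

lemma cst_mul (g h : (Matrix ι ι A)ˣ) : cst (g * h) = cst g * cst h := map_mul _ _ _

lemma cst_inv (g : (Matrix ι ι A)ˣ) : cst (g⁻¹) = (cst g)⁻¹ := map_inv _ _

lemma cst_dg_conj (u : ι → Aˣ) (i j : ι) (hij : i ≠ j) (p : A[X]) :
    cst (dg u) * tv i j hij p * (cst (dg u))⁻¹ ∈ E ι A[X] := by
  have : cst (dg u) = dg (fun i => Units.map (C : A →+* A[X]).toMonoidHom (u i)) := by
    ext1
    refine Matrix.ext fun a b => ?_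
    rw [gmap_val, Matrix.map_apply, dg_val, dg_val, diagonal_apply, diagonal_apply]
    split_ifs
    · rfl
    · simp
  rw [this, dg_conj]
  exact tv_memE _ _ _ _

/-- for `g = e * dg u`, conjugation with the constant `g` preserves `E`. -/
lemma good_conj (g : (Matrix ι ι A)ˣ) (h : ∃ e ∈ E ι A, ∃ u : ι → Aˣ, g = e * dg u)
    (x : (Matrix ι ι A[X])ˣ) (hx : x ∈ E ι A[X]) : cst g * x * (cst g)⁻¹ ∈ E ι A[X] := by
  obtain ⟨e, he, u, rfl⟩ := h
  have h1 : cst (dg u) * x * (cst (dg u))⁻¹ ∈ E ι A[X] :=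
    conj_EG_le _ _ _ (fun i j hij r _ => cst_dg_conj u i j hij r) x hx
  have h2 : cst e ∈ E ι A[X] := gmap_E _ _ he
  have := mul_mem (mul_mem h2 h1) (inv_mem h2)
  rw [cst_mul]
  convert this using 1
  group

lemma map_cst {A' : Type*} [Ring A'] (f : A →+* A') (g : (Matrix ι ι A)ˣ) :
    gmap ι (mapRingHom f) (cst g) = cst (gmap ι f g) := by
  show gmap ι (mapRingHom f) (gmap ι C g) = gmap ι C (gmap ι f g)
  rw [gmap_comp, gmap_comp]
  congr 1
  apply congrArg
  refine RingHom.ext fun p => ?_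
  simp

lemma tv_sum {A : Type*} [Ring A] (i j : ι) (h : i ≠ j) {κ : Type*} (s : Finset κ) (f : κ → A)
    (H : Subgroup (Matrix ι ι A)ˣ) (hH : ∀ k ∈ s, tv i j h (f k) ∈ H) :
    tv i j h (∑ k ∈ s, f k) ∈ H := by
  classical
  induction s using Finset.induction_on with
  | empty => rw [Finset.sum_empty, tv_zero]; exact one_mem _
  | insert a s ha ih =>
    rw [Finset.sum_insert ha, ← tv_mul]
    exact mul_mem (hH a (by simp)) (ih fun k hk => hH k (by simp [hk]))

end basic

section step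

variable {ι : Type*} [DecidableEq ι] [Fintype ι]
variable {Z : Type*} [CommRing Z] {R : Type*} [Ring R] [Algebra Z R]

/-- evaluation at one -/
noncomputable def ev (A : Type*) [Ring A] : A[X] →+* A :=
  eval₂RingHom' (RingHom.id A) 1 (fun _ => Commute.one_right _)

@[simp] lemma ev_C (A : Type*) [Ring A] (a : A) : ev A (C a) = a := by
  show eval₂ _ _ _ = _
  simp

@[simp] lemma ev_X (A : Type*) [Ring A] : ev A X = 1 := by
  show eval₂ _ _ _ = _
  simp

lemma ev_cst {A : Type*} [Ring A] (g : (Matrix ι ι A)ˣ) : gmap ι (ev A) (cst g) = g := by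
  rw [gmap_comp]
  have : (ev A).comp C = RingHom.id A := by
    refine RingHom.ext fun p => ?_
    simp
  rw [this, gmap_id]

/-- **NORM** -/
theorem norm_step (h3 : ∀ i j : ι, ∃ k, k ≠ i ∧ k ≠ j) (s : Set Z)
    (hs : ∀ z ∈ s, Fin1 R z s) (h : (Matrix ι ι R)ˣ) (hh : h ∈ Gam ι (CI R s))
    (x : (Matrix ι ι R)ˣ) (hx : x ∈ E ι R) : h * x * h⁻¹ ∈ E ι R := by
  refine conj_EG_le _ _ _ (fun i j hij r _ => ?_) x hx
  have key : cst h * tv i j hij (C r * X) * (cst h)⁻¹ ∈ E ι R[X] := by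
    apply patch_max (Z := Z) h3
    · rw [map_mul, map_mul, map_inv, cc_C, gmap_tv]
      have : (constantCoeff : R[X] →+* R) (C r * X) = 0 := by simp
      rw [this, tv_zero]; group
    · intro P hP
      have hPp : P.IsPrime := hP.isPrime
      rw [map_mul, map_mul, map_inv, map_cst, gmap_tv]
      apply good_conj
      · by_cases hsP : ∃ z ∈ s, z ∉ P
        · obtain ⟨z, hz, hzP⟩ := hsP
          exact (SR1_loc P z hzP ((hs z hz).mono (Set.subset_univ _))).red _
        · have hsub : s ⊆ P := fun z hz => by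
            by_contra hzP
            exact hsP ⟨z, hz, hzP⟩
          have hrad := isRad_loc P s hsub hs
          obtain ⟨e, he, u, _, hu⟩ := red_rad _ hrad _
            (Gam_map (locMap P.primeCompl R) (CI R s) (CI (LocalizedModule P.primeCompl R) s)
              (fun r hr => CI_map _ (isLoc_locMap _).alg s r hr) h hh)
          exact ⟨e, EG_le_E _ he, u, hu⟩
      · exact tv_memE _ _ _ _
  have := gmap_E (ev R) _ key
  rw [map_mul, map_mul, map_inv, ev_cst, gmap_tv, map_mul, ev_C, ev_X, mul_one] at this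
  exact this

/-- pointwise version of ANN -/
lemma ann_pt (h3 : ∀ i j : ι, ∃ k, k ≠ i ∧ k ≠ j) (z : Z) (hz : Fin1 R z Set.univ)
    (g : (Matrix ι ι R)ˣ) (p q : ι) (hpq : p ≠ q) (x : R) :
    ∃ N : ℕ, ∀ M, N ≤ M →
      cst g * tv p q hpq (algebraMap Z R[X] (z ^ M) * (C x * X)) * (cst g)⁻¹ ∈ E ι R[X] := by
  obtain ⟨N, hN⟩ := patch_rad (Z := Z) h3 (cst g * tv p q hpq (C x * X) * (cst g)⁻¹) (by
    rw [map_mul, map_mul, map_inv, cc_C, gmap_tv]
    have : (constantCoeff : R[X] →+* R) (C x * X) = 0 := by simp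
    rw [this, tv_zero]; group) z (by
    intro P hP hzP
    rw [map_mul, map_mul, map_inv, map_cst, gmap_tv]
    apply good_conj
    · exact (SR1_loc P z hzP hz).red _
    · exact tv_memE _ _ _ _)
  have hsc : ∀ (t : Z), gmap ι (sc t) (cst g) = cst g := by
    intro t
    rw [gmap_comp]
    congr 1
    apply congrArg
    refine RingHom.ext fun p => ?_
    simp
  refine ⟨N, fun M hM => ?_⟩
  rw [map_mul, map_mul, map_inv, hsc, gmap_tv] at hN
  have h1 := gmap_E (sc (z ^ (M - N))) _ hN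
  rw [map_mul, map_mul, map_inv, hsc, gmap_tv] at h1
  convert h1 using 4
  simp only [map_mul, sc_C, sc_X, sc_alg]
  have e1 : z ^ M = z ^ N * z ^ (M - N) := by rw [← pow_add]; congr 1; omega
  rw [e1, map_mul]
  have c1 : ∀ (t : Z) (y : R[X]), algebraMap Z R[X] t * y = y * algebraMap Z R[X] t := alg_comm
  rw [← mul_assoc (C x), ← c1 (z ^ N) (C x), mul_assoc, mul_assoc, ← mul_assoc (C x),
    ← c1 (z ^ (M - N)) (C x), mul_assoc]

/-- **ANN** -/
theorem ann_step (h3 : ∀ i j : ι, ∃ k, k ≠ i ∧ k ≠ j) (z : Z) (hz : Fin1 R z Set.univ)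
    (g : (Matrix ι ι R)ˣ) :
    ∃ N : ℕ, ∀ M, N ≤ M → ∀ (p q : ι) (hpq : p ≠ q) (r : R),
      cst g * tv p q hpq (algebraMap Z R[X] (z ^ M) * (C r * X)) * (cst g)⁻¹ ∈ E ι R[X] := by
  obtain ⟨n, x, hx⟩ := id hz
  have h1 : ∀ (w : Fin n × {pq : ι × ι // pq.1 ≠ pq.2}), ∃ N : ℕ, ∀ M, N ≤ M →
      cst g * tv w.2.1.1 w.2.1.2 w.2.2 (algebraMap Z R[X] (z ^ M) * (C (x w.1) * X)) *
        (cst g)⁻¹ ∈ E ι R[X] := fun w => ann_pt h3 z hz g _ _ _ _
  choose N hN using h1
  refine ⟨Finset.univ.sup N + 1, fun M hM p q hpq r => ?_⟩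
  obtain ⟨ζ, -, hζ⟩ := hx r
  have e1 : algebraMap Z R[X] (z ^ M) * (C r * X) =
      ∑ i, sc (ζ i) (algebraMap Z R[X] (z ^ (M - 1)) * (C (x i) * X)) := by
    have e2 : z ^ M = z ^ (M - 1) * z := by rw [← pow_succ]; congr 1; omega
    have e3 : (algebraMap Z R[X] z) * C r = ∑ i, algebraMap Z R[X] (ζ i) * C (x i) := by
      have := congrArg (C : R → R[X]) hζ
      rw [map_sum] at this
      simpa [Polynomial.algebraMap_apply] using this
    rw [e2, map_mul, mul_assoc, ← mul_assoc (algebraMap Z R[X] z), e3, Finset.sum_mul,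
      Finset.mul_sum]
    refine Finset.sum_congr rfl fun i _ => ?_
    simp only [map_mul, sc_C, sc_X, sc_alg]
    rw [mul_assoc, ← mul_assoc (C (x i)), ← alg_comm (ζ i) (C (x i)), mul_assoc]
  have h2 : tv p q hpq (algebraMap Z R[X] (z ^ M) * (C r * X)) ∈ cjs (cst g) (E ι R[X]) := by
    rw [e1]
    apply tv_sum
    intro i _
    rw [mem_cjs]
    have h3 := hN (i, ⟨(p, q), hpq⟩) (M - 1) (by
      have := Finset.le_sup (f := N) (Finset.mem_univ (i, (⟨(p, q), hpq⟩ : {pq : ι × ι // pq.1 ≠ pq.2})))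
      omega)
    have h4 := gmap_E (sc (ζ i)) _ h3
    have hsc : gmap ι (sc (ζ i)) (cst g) = cst g := by
      rw [gmap_comp]
      congr 1
      apply congrArg
      refine RingHom.ext fun p => ?_
      simp
    rw [map_mul, map_mul, map_inv, hsc, gmap_tv] at h4
    exact h4
  exact h2

end step

end Pool.Agent.W5h54.EN
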