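import Pool.Agent.W5h54.EN.Cls

set_option autoImplicit false

/-!
Kaplansky's theorem: rings with a multilinear identity have enough matrix representations.
-/

namespace Pool.Agent.W5h54.EN

open Matrix

section comb

variable {V : Type*} [AddCommGroup V]

lemma chain (m : ℕ) (w : ℕ → V) (b : ℕ → AddMonoid.End V)
    (hb : ∀ i < m, ∀ j ≤ m, b i (w j) = if j = i + 1 then w i else 0) :
    ∀ (k : ℕ) (τ : Fin k → ℕ), (∀ i, τ i < m) → ∀ s ≤ m,
      (List.ofFn (fun i => b (τ i))).prod (w s) =
        if (k ≤ s ∧ ∀ i : Fin k, τ i + k = s + i) then w (s - k) else 0 := by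
  intro k
  induction k with
  | zero =>
    intro τ _ s _
    rw [List.ofFn_zero, List.prod_nil, if_pos ⟨Nat.zero_le _, fun i => i.elim0⟩]
    rfl
  | succ k ih =>
    intro τ hτ s hs
    rw [List.ofFn_succ', List.concat_eq_append, List.prod_append, List.prod_singleton]
    have h0 : ((List.ofFn fun i : Fin k => b (τ i.castSucc)).prod * b (τ (Fin.last k))) (w s) =
      (List.ofFn fun i : Fin k => b (τ i.castSucc)).prod (b (τ (Fin.last k)) (w s)) := rfl
    rw [h0, hb _ (hτ _) s hs]
    by_cases h1 : s = τ (Fin.last k) + 1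
    · rw [if_pos h1, ih (fun i => τ i.castSucc) (fun i => hτ _) (τ (Fin.last k)) (by omega)]
      have hcond : (k ≤ τ (Fin.last k) ∧ ∀ i : Fin k, τ i.castSucc + k = τ (Fin.last k) + i) ↔
          (k + 1 ≤ s ∧ ∀ i : Fin (k + 1), τ i + (k + 1) = s + i) := by
        constructor
        · rintro ⟨h2, h3⟩
          refine ⟨by omega, fun i => ?_⟩
          refine Fin.lastCases ?_ (fun i => ?_) i
          · simp only [Fin.val_last]; omega
          · have := h3 i
            simp only [Fin.val_castSucc]; omega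
        · rintro ⟨h2, h3⟩
          refine ⟨by omega, fun i => ?_⟩
          have := h3 i.castSucc
          simp only [Fin.val_castSucc] at this
          omega
      by_cases hc : (k + 1 ≤ s ∧ ∀ i : Fin (k + 1), τ i + (k + 1) = s + i)
      · rw [if_pos hc, if_pos (hcond.2 hc)]
        congr 1
        omega
      · rw [if_neg hc, if_neg (fun h => hc (hcond.1 h))]
    · rw [if_neg h1, map_zero, if_neg]
      rintro ⟨h2, h3⟩
      have := h3 (Fin.last k)
      simp only [Fin.val_last] at this
      omega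

lemma prod_split {M : Type*} [Monoid M] {k : ℕ} (a b : Fin k → M)
    (h : ∀ i j, Commute (b i) (a j)) :
    (List.ofFn fun i => a i * b i).prod = (List.ofFn a).prod * (List.ofFn b).prod := by
  induction k with
  | zero => simp
  | succ k ih =>
    rw [List.ofFn_succ, List.ofFn_succ, List.ofFn_succ, List.prod_cons, List.prod_cons,
      List.prod_cons, ih (fun i => a i.succ) (fun i => b i.succ) (fun i j => h _ _)]
    have h1 : Commute (b 0) (List.ofFn fun i : Fin k => a i.succ).prod := by
      apply Commute.list_prod_right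
      intro x hx
      rw [List.mem_ofFn] at hx
      obtain ⟨i, rfl⟩ := hx
      exact h _ _
    simp only [mul_assoc]
    congr 1
    rw [← mul_assoc, h1.eq, mul_assoc]

lemma ml_zero' {L M N : Type*} [CommSemiring L] [AddCommMonoid M] [Module L M] [AddCommMonoid N]
    [Module L N] {k : ℕ} (f : MultilinearMap L (fun _ : Fin k => M) N) (S : Set M)
    (h : ∀ v : Fin k → M, (∀ i, v i ∈ S) → f v = 0)
    (v : Fin k → M) (hv : ∀ i, v i ∈ Submodule.span L S) : f v = 0 := by
  classical
  have key : ∀ t : Finset (Fin k), ∀ v : Fin k → M, (∀ i, i ∉ t → v i ∈ S) →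
      (∀ i, v i ∈ Submodule.span L S) → f v = 0 := by
    intro t
    induction t using Finset.induction_on with
    | empty => intro v hv _; exact h v fun i => hv i (Finset.notMem_empty i)
    | insert a t ha ih =>
      intro v hv hv'
      have h1 : ∀ w ∈ S, f.toLinearMap v a w = 0 := by
        intro w hw
        rw [MultilinearMap.toLinearMap_apply]
        apply ih
        · intro i hi
          by_cases hia : i = a
          · subst hia; rw [Function.update_self]; exact hw
          · rw [Function.update_of_ne hia]; exact hv i (by simp [hia, hi])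
        · intro i
          by_cases hia : i = a
          · subst hia; rw [Function.update_self]; exact Submodule.subset_span hw
          · rw [Function.update_of_ne hia]; exact hv' i
      have h2 : ∀ w ∈ Submodule.span L S, f.toLinearMap v a w = 0 := by
        intro w hw
        induction hw using Submodule.span_induction with
        | mem x hx => exact h1 x hx
        | zero => exact map_zero _
        | add x y _ _ hx hy => rw [map_add, hx, hy, add_zero]
        | smul c x _ hx => rw [map_smul, hx, smul_zero]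
      have h3 := h2 (v a) (hv' a)
      rwa [MultilinearMap.toLinearMap_apply, Function.update_eq_self] at h3
  exact key Finset.univ v (fun i hi => absurd (Finset.mem_univ i) hi) hv

end comb

/-- a multilinear polynomial identity -/
def MI (m : ℕ) (c : Equiv.Perm (Fin m) → ℤ) (R : Type*) [Ring R] : Prop :=
  ∀ x : Fin m → R, ∑ σ, c σ • (List.ofFn (fun i => x (σ i))).prod = 0

section ext

variable {A : Type*} [Ring A] {m : ℕ} {c : Equiv.Perm (Fin m) → ℤ}

/-- the identity as a multilinear map -/
noncomputable def MIf (m : ℕ) (c : Equiv.Perm (Fin m) → ℤ) (A : Type*) [Ring A] :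
    MultilinearMap ℤ (fun _ : Fin m => A) A :=
  ∑ σ : Equiv.Perm (Fin m), c σ • (MultilinearMap.mkPiAlgebraFin ℤ m A).domDomCongr σ

lemma MIf_apply (x : Fin m → A) :
    MIf m c A x = ∑ σ, c σ • (List.ofFn (fun i => x (σ i))).prod := by
  unfold MIf
  rw [_root_.sum_apply]
  refine Finset.sum_congr rfl fun σ _ => ?_
  rfl

/-- extension of the identity by commuting scalars -/
lemma MI_ext {R : Type*} [Ring R] (hR : MI m c R) (ρ : R →+* A) (S : Set A)
    (hS : ∀ s ∈ S, ∀ t ∈ S, Commute s t) (hρ : ∀ s ∈ S, ∀ r, Commute s (ρ r)) (x : Fin m → A)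
    (hx : ∀ i, x i ∈ Submodule.span ℤ {a | ∃ r, ∃ s ∈ S, a = ρ r * s}) :
    ∑ σ, c σ • (List.ofFn (fun i => x (σ i))).prod = 0 := by
  rw [← MIf_apply]
  apply ml_zero' _ _ _ x hx
  intro v hv
  choose r s hs hv using hv
  rw [MIf_apply]
  have h1 : ∀ σ : Equiv.Perm (Fin m), (List.ofFn (fun i => v (σ i))).prod =
      ρ (List.ofFn (fun i => r (σ i))).prod * (List.ofFn s).prod := by
    intro σ
    have h2 : (fun i => v (σ i)) = fun i => ρ (r (σ i)) * s (σ i) := funext fun i => hv _
    rw [h2, prod_split (fun i => ρ (r (σ i))) (fun i => s (σ i)) (fun i j => hρ _ (hs _) _),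
      map_list_prod, List.map_ofFn]
    congr 1
    apply List.Perm.prod_eq' (Equiv.Perm.ofFn_comp_perm σ s)
    rw [List.pairwise_ofFn]
    intro i j _
    exact hS _ (hs _) _ (hs _)
  have h3 : ∑ σ, c σ • (List.ofFn (fun i => v (σ i))).prod =
      ρ (∑ σ, c σ • (List.ofFn (fun i => r (σ i))).prod) * (List.ofFn s).prod := by
    rw [map_sum, Finset.sum_mul]
    refine Finset.sum_congr rfl fun σ _ => ?_
    rw [h1, map_zsmul, smul_mul_assoc]
  rw [h3, hR r, map_zero, zero_mul]

end ext

section mat

/-- matrix representation from a vector space -/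
lemma rep_of_field (L V R : Type) [Field L] [AddCommGroup V] [Module L V] [Module.Finite L V]
    [Ring R] (ψ : R →+* Module.End L V)
    (hspan : Submodule.span L (Set.range ψ) = ⊤) :
    ∃ φ : R →+* Matrix (Fin (Module.finrank L V)) (Fin (Module.finrank L V)) L,
      Submodule.span L (Set.range φ) = ⊤ ∧ RingHom.ker φ = RingHom.ker ψ := by
  let b := Module.finBasis L V
  let e := LinearMap.toMatrixAlgEquiv b
  refine ⟨e.toAlgHom.toRingHom.comp ψ, ?_, ?_⟩
  · have h1 : Set.range (e.toAlgHom.toRingHom.comp ψ) = e.toLinearEquiv.toLinearMap '' (Set.range ψ) := by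
      rw [← Set.range_comp]
      rfl
    rw [h1, ← Submodule.map_span, hspan, Submodule.map_top, LinearEquiv.range]
  · ext x
    rw [RingHom.mem_ker, RingHom.mem_ker]
    exact (map_eq_zero_iff e e.injective)

end mat

section simple

open Module

variable {R : Type} [Ring R] {V : Type} [AddCommGroup V] [Module R V]

omit [Module R V] in
lemma exists_max_comm (ρ : R →+* AddMonoid.End V) :
    ∃ S : Set (AddMonoid.End V), (∀ s ∈ S, ∀ t ∈ S, Commute s t) ∧
      (∀ s ∈ S, ∀ r, Commute s (ρ r)) ∧
      ∀ f : AddMonoid.End V, (∀ s ∈ S, Commute f s) → (∀ r, Commute f (ρ r)) → f ∈ S := by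
  let F : Set (Set (AddMonoid.End V)) :=
    {S | (∀ s ∈ S, ∀ t ∈ S, Commute s t) ∧ ∀ s ∈ S, ∀ r, Commute s (ρ r)}
  obtain ⟨S, hS⟩ := zorn_subset F (by
    intro C hC hchain
    refine ⟨⋃₀ C, ⟨?_, ?_⟩, fun s hs => Set.subset_sUnion_of_mem hs⟩
    · rintro s ⟨S₁, hS₁, hs⟩ t ⟨S₂, hS₂, ht⟩
      rcases hchain.total hS₁ hS₂ with h | h
      · exact (hC hS₂).1 s (h hs) t ht
      · exact (hC hS₁).1 s hs t (h ht)
    · rintro s ⟨S₁, hS₁, hs⟩ r
      exact (hC hS₁).2 s hs r)
  refine ⟨S, hS.prop.1, hS.prop.2, fun f hf1 hf2 => ?_⟩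
  have h1 : insert f S ∈ F := by
    refine ⟨?_, ?_⟩
    · intro s hs t ht
      rcases Set.mem_insert_iff.1 hs with hs' | hs'
      · rcases Set.mem_insert_iff.1 ht with ht' | ht'
        · rw [hs', ht']
        · rw [hs']; exact hf1 t ht'
      · rcases Set.mem_insert_iff.1 ht with ht' | ht'
        · rw [ht']; exact (hf1 s hs').symm
        · exact hS.prop.1 s hs' t ht'
    · intro s hs r
      rcases Set.mem_insert_iff.1 hs with hs' | hs'
      · rw [hs']; exact hf2 r
      · exact hS.prop.2 s hs' r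
  exact hS.le_of_ge h1 (Set.subset_insert f S) (Set.mem_insert f S)

/-- the ring generated by `R` and the commuting set -/
def R1 (ρ : R →+* AddMonoid.End V) (S : Set (AddMonoid.End V)) : Subring (AddMonoid.End V) :=
  Subring.closure (Set.range ρ ∪ S)

omit [Module R V] in
lemma R1_span (ρ : R →+* AddMonoid.End V) (S : Set (AddMonoid.End V))
    (hρ : ∀ s ∈ S, ∀ r, Commute s (ρ r))
    (a : AddMonoid.End V) (ha : a ∈ R1 ρ S) :
    a ∈ Submodule.span ℤ {a | ∃ r, ∃ s ∈ Submonoid.closure S, a = ρ r * s} := by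
  have hρ' : ∀ s ∈ Submonoid.closure S, ∀ r, Commute s (ρ r) := by
    intro s hs r
    have : Submonoid.closure S ≤ Submonoid.centralizer {ρ r} := by
      rw [Submonoid.closure_le]
      intro t ht
      rw [SetLike.mem_coe, Submonoid.mem_centralizer_iff]
      rintro _ rfl
      exact (hρ t ht r).symm
    exact ((Submonoid.mem_centralizer_iff.1 (this hs)) (ρ r) rfl).symm
  unfold R1 at ha
  rw [Subring.mem_closure_iff] at ha
  have h1 : (Submonoid.closure (Set.range ρ ∪ S) : Set (AddMonoid.End V)) ⊆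
      {a | ∃ r, ∃ s ∈ Submonoid.closure S, a = ρ r * s} := by
    intro x hx
    induction hx using Submonoid.closure_induction with
    | mem x hx =>
      rcases hx with ⟨r, rfl⟩ | hx
      · exact ⟨r, 1, one_mem _, by rw [mul_one]⟩
      · exact ⟨1, x, Submonoid.subset_closure hx, by rw [map_one, one_mul]⟩
    | one => exact ⟨1, 1, one_mem _, by rw [map_one, one_mul]⟩
    | mul x y _ _ hx hy =>
      obtain ⟨r, s, hs, rfl⟩ := hx
      obtain ⟨r', s', hs', rfl⟩ := hy
      refine ⟨r * r', s * s', mul_mem hs hs', ?_⟩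
      rw [map_mul, mul_assoc, mul_assoc, ← mul_assoc s, (hρ' s hs r').eq, mul_assoc]
  have h2 : AddSubgroup.closure (Submonoid.closure (Set.range ρ ∪ S) : Set (AddMonoid.End V)) ≤
      (Submodule.span ℤ {a | ∃ r, ∃ s ∈ Submonoid.closure S, a = ρ r * s}).toAddSubgroup := by
    rw [AddSubgroup.closure_le]
    exact h1.trans Submodule.subset_span
  exact h2 ha

end simple

section abs

open Module

variable {R : Type} [Ring R] {V : Type} [AddCommGroup V] {L : Type} [Field L] [Module L V]
  {m : ℕ} {c : Equiv.Perm (Fin m) → ℤ}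

lemma abs_bound (hc : c 1 = 1) (R₁ : Subring (AddMonoid.End V))
    (H1 : ∀ (T : V →ₗ[L] V) (s : Finset V), ∃ a ∈ R₁, ∀ v ∈ s, T v = a v)
    (H3 : ∀ x : Fin m → AddMonoid.End V, (∀ i, x i ∈ R₁) →
      ∑ σ, c σ • (List.ofFn (fun i => x (σ i))).prod = 0)
    (v : Fin (m + 1) → V) (hv : LinearIndependent L v) : False := by
  classical
  obtain ⟨g, hg⟩ := LinearMap.exists_leftInverse_of_injective (Finsupp.linearCombination L v)
    (LinearMap.ker_eq_bot.2 hv)
  have hgv : ∀ j, g (v j) = Finsupp.single j 1 := by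
    intro j
    have := congrArg (fun f => f (Finsupp.single j 1)) hg
    simpa using this
  -- elements of R₁
  have h1 : ∀ i : Fin m, ∃ a ∈ R₁, ∀ j : Fin (m + 1), a (v j) = if j = i.succ then v i.castSucc else 0 := by
    intro i
    let t : Fin (m + 1) → V := fun j => if j = i.succ then v i.castSucc else 0
    obtain ⟨a, ha, ha'⟩ := H1 (Finsupp.linearCombination L t ∘ₗ g) (Finset.univ.image v)
    refine ⟨a, ha, fun j => ?_⟩
    rw [← ha' (v j) (by simp), LinearMap.comp_apply, hgv]
    simp [t]
  choose a haR ha using h1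
  let w : ℕ → V := fun j => if h : j < m + 1 then v ⟨j, h⟩ else 0
  let b : ℕ → AddMonoid.End V := fun i => if h : i < m then a ⟨i, h⟩ else 0
  have hw : ∀ j (h : j < m + 1), w j = v ⟨j, h⟩ := fun j h => dif_pos h
  have hbv : ∀ j (h : j < m), b j = a ⟨j, h⟩ := fun j h => dif_pos h
  have hb : ∀ i < m, ∀ j ≤ m, b i (w j) = if j = i + 1 then w i else 0 := by
    intro i hi j hj
    rw [hbv i hi, hw j (by omega), ha]
    by_cases hji : j = i + 1
    · rw [if_pos hji, if_pos (Fin.ext hji), hw i (by omega)]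
      rfl
    · rw [if_neg hji, if_neg]
      intro h
      exact hji (congrArg Fin.val h)
  have h2 := H3 a haR
  have h3 := congrArg (fun f : AddMonoid.End V => f (w m)) h2
  have h4 : ∀ σ : Equiv.Perm (Fin m), (List.ofFn (fun i => a (σ i))).prod (w m) =
      if σ = 1 then w 0 else 0 := by
    intro σ
    have h5 : (fun i => a (σ i)) = fun i : Fin m => b ((σ i : Fin m) : ℕ) := by
      funext i
      rw [hbv _ (σ i).2]
    rw [h5, chain m w b hb m (fun i => ((σ i : Fin m) : ℕ)) (fun i => (σ i).2) m le_rfl]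
    by_cases hσ : σ = 1
    · subst hσ
      rw [if_pos rfl, if_pos ⟨le_rfl, fun i => by simp [add_comm]⟩, Nat.sub_self]
    · rw [if_neg hσ, if_neg]
      rintro ⟨-, h6⟩
      apply hσ
      ext i
      have := h6 i
      rw [Equiv.Perm.one_apply]
      omega
  have h5 : (∑ σ, c σ • (List.ofFn (fun i => a (σ i))).prod) (w m) = w 0 := by
    have h6 : ∀ (s : Finset (Equiv.Perm (Fin m))) (F : Equiv.Perm (Fin m) → AddMonoid.End V) (x : V),
        (∑ σ ∈ s, F σ) x = ∑ σ ∈ s, F σ x := by
      intro s F x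
      exact AddMonoidHom.finsetSum_apply F s x
    have h7 : ∀ (z : ℤ) (F : AddMonoid.End V) (x : V), (z • F) x = z • F x := fun z F x => rfl
    rw [h6]
    simp only [h7, h4]
    rw [Finset.sum_eq_single 1]
    · rw [if_pos rfl, hc, one_smul]
    · intro σ _ hσ
      rw [if_neg hσ, smul_zero]
    · simp
  have h6 : w 0 = 0 := by
    rw [← h5]
    exact h3
  rw [hw 0 (by omega)] at h6
  exact hv.ne_zero _ h6

lemma abs_fin (hc : c 1 = 1) (R₁ : Subring (AddMonoid.End V))
    (H1 : ∀ (T : V →ₗ[L] V) (s : Finset V), ∃ a ∈ R₁, ∀ v ∈ s, T v = a v)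
    (H3 : ∀ x : Fin m → AddMonoid.End V, (∀ i, x i ∈ R₁) →
      ∑ σ, c σ • (List.ofFn (fun i => x (σ i))).prod = 0) :
    Module.Finite L V ∧ Module.finrank L V ≤ m := by
  let B := Module.Basis.ofVectorSpace L V
  have hno : ¬ Nonempty (Fin (m + 1) ↪ Module.Basis.ofVectorSpaceIndex L V) := by
    rintro ⟨f⟩
    exact abs_bound hc R₁ H1 H3 (fun i => B (f i)) (B.linearIndependent.comp f f.injective)
  have hfin : Finite (Module.Basis.ofVectorSpaceIndex L V) := by
    by_contra hinf
    rw [not_finite_iff_infinite] at hinf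
    exact hno ⟨(Fin.valEmbedding).trans (Infinite.natEmbedding _)⟩
  have := Fintype.ofFinite (Module.Basis.ofVectorSpaceIndex L V)
  refine ⟨Module.Finite.of_basis B, ?_⟩
  rw [Module.finrank_eq_card_basis B]
  by_contra hlt
  push Not at hlt
  exact hno (Function.Embedding.nonempty_of_card_le (by rw [Fintype.card_fin]; exact hlt))

lemma abs_rep (hc : c 1 = 1) (ρ : R →+* AddMonoid.End V) (R₁ : Subring (AddMonoid.End V))
    (hρ : ∀ r, ρ r ∈ R₁)
    (H1 : ∀ (T : V →ₗ[L] V) (s : Finset V), ∃ a ∈ R₁, ∀ v ∈ s, T v = a v)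
    (H2 : ∀ (l : L), ∀ a ∈ R₁, ∀ v : V, a (l • v) = l • a v)
    (H3 : ∀ x : Fin m → AddMonoid.End V, (∀ i, x i ∈ R₁) →
      ∑ σ, c σ • (List.ofFn (fun i => x (σ i))).prod = 0)
    (S : Set (AddMonoid.End V))
    (H4 : ∀ a ∈ R₁, a ∈ Submodule.span ℤ {a | ∃ r, ∃ s ∈ S, a = ρ r * s})
    (H5 : ∀ s ∈ S, ∃ l : L, ∀ v, s v = l • v) :
    ∃ (e : ℕ) (φ : R →+* Matrix (Fin e) (Fin e) L), e ≤ m ∧
      Submodule.span L (Set.range φ) = ⊤ ∧ ∀ r, φ r = 0 ↔ ρ r = 0 := by
  classical
  obtain ⟨hfin, hle⟩ := abs_fin hc R₁ H1 H3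
  let ψ : R →+* Module.End L V :=
    { toFun := fun r =>
        { toFun := ρ r
          map_add' := fun x y => map_add _ _ _
          map_smul' := fun l v => H2 l _ (hρ r) v }
      map_one' := by ext v; simp
      map_mul' := fun a b => by ext v; simp
      map_zero' := by ext v; simp
      map_add' := fun a b => by
        ext v
        show (ρ (a + b)) v = ρ a v + ρ b v
        rw [map_add]
        rfl }
  have hψ : ∀ r v, ψ r v = ρ r v := fun r v => rfl
  have hspan : Submodule.span L (Set.range ψ) = ⊤ := by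
    rw [eq_top_iff]
    rintro T -
    obtain ⟨s, hs⟩ := (Module.Finite.fg_top : (⊤ : Submodule L V).FG)
    obtain ⟨a, ha, haT⟩ := H1 T s
    -- every element of the span is represented
    have key : ∀ a : AddMonoid.End V, a ∈ Submodule.span ℤ {a | ∃ r, ∃ s ∈ S, a = ρ r * s} →
        ∃ T' ∈ Submodule.span L (Set.range ψ), ∀ v, T' v = a v := by
      intro a ha
      induction ha using Submodule.span_induction with
      | mem x hx =>
        obtain ⟨r, s, hs, rfl⟩ := hx
        obtain ⟨l, hl⟩ := H5 s hs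
        refine ⟨l • ψ r, Submodule.smul_mem _ _ (Submodule.subset_span ⟨r, rfl⟩), fun v => ?_⟩
        rw [LinearMap.smul_apply, hψ]
        have : (ρ r * s) v = ρ r (s v) := rfl
        rw [this, hl, H2 l _ (hρ r)]
      | zero => exact ⟨0, Submodule.zero_mem _, fun v => rfl⟩
      | add x y _ _ hx hy =>
        obtain ⟨T1, hT1, h1⟩ := hx
        obtain ⟨T2, hT2, h2⟩ := hy
        refine ⟨T1 + T2, Submodule.add_mem _ hT1 hT2, fun v => ?_⟩
        rw [LinearMap.add_apply, h1, h2]
        rfl
      | smul z x _ hx =>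
        obtain ⟨T1, hT1, h1⟩ := hx
        refine ⟨z • T1, ?_, fun v => ?_⟩
        · exact zsmul_mem hT1 z
        · rw [LinearMap.smul_apply, h1]
          rfl
    obtain ⟨T', hT', hT'a⟩ := key a (H4 a ha)
    have : T = T' := by
      apply LinearMap.ext_on hs
      intro v hv
      rw [haT v hv, hT'a]
    rw [this]
    exact hT'
  obtain ⟨φ, hφ1, hφ2⟩ := rep_of_field L V R ψ hspan
  refine ⟨_, φ, hle, hφ1, fun r => ?_⟩
  rw [← RingHom.mem_ker, hφ2, RingHom.mem_ker]
  constructor
  · intro h
    ext v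
    rw [← hψ, h]
    rfl
  · intro h
    ext v
    rw [hψ, h]
    rfl

end abs

section kap

open Module

variable {R : Type} [Ring R] {V : Type} [AddCommGroup V] [Module R V]
  {m : ℕ} {c : Equiv.Perm (Fin m) → ℤ}

lemma simple_R1 [IsSimpleModule R V] (S : Set (AddMonoid.End V)) :
    IsSimpleModule (R1 (Module.toAddMonoidEnd R V) S) V := by
  have hnt : Nontrivial V := IsSimpleModule.nontrivial R V
  rw [isSimpleModule_iff_toSpanSingleton_surjective]
  refine ⟨hnt, fun x hx y => ?_⟩
  obtain ⟨r, hr⟩ := IsSimpleModule.toSpanSingleton_surjective R hx y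
  refine ⟨⟨Module.toAddMonoidEnd R V r, Subring.subset_closure (Or.inl ⟨r, rfl⟩)⟩, ?_⟩
  rw [LinearMap.toSpanSingleton_apply] at hr ⊢
  exact hr

/-- the field of endomorphisms -/
@[reducible] noncomputable def KField [IsSimpleModule R V] (S : Set (AddMonoid.End V))
    (hcomm : ∀ f g : Module.End (R1 (Module.toAddMonoidEnd R V) S) V, f * g = g * f) :
    Field (Module.End (R1 (Module.toAddMonoidEnd R V) S) V) :=
  letI := Classical.decEq (Module.End (R1 (Module.toAddMonoidEnd R V) S) V)
  haveI : IsSimpleModule (R1 (Module.toAddMonoidEnd R V) S) V := simple_R1 S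
  { (Module.End.instDivisionRing : DivisionRing
      (Module.End (R1 (Module.toAddMonoidEnd R V) S) V)) with
    mul_comm := hcomm }

theorem kap [IsSimpleModule R V] (hc : c 1 = 1) (hR : MI m c R) :
    ∃ (L : Type) (_ : Field L) (e : ℕ) (φ : R →+* Matrix (Fin e) (Fin e) L), e ≤ m ∧
      Submodule.span L (Set.range φ) = ⊤ ∧ ∀ r, φ r = 0 ↔ Module.toAddMonoidEnd R V r = 0 := by
  obtain ⟨S, hS, hρ, hmax⟩ := exists_max_comm (Module.toAddMonoidEnd R V)
  have hsimp : IsSimpleModule (R1 (Module.toAddMonoidEnd R V) S) V := simple_R1 S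
  have hKS : ∀ f : Module.End (R1 (Module.toAddMonoidEnd R V) S) V, f.toAddMonoidHom ∈ S := by
    intro f
    apply hmax
    · intro s hs
      ext v
      exact f.map_smul (⟨s, Subring.subset_closure (Or.inr hs)⟩ :
        R1 (Module.toAddMonoidEnd R V) S) v
    · intro r
      ext v
      exact f.map_smul (⟨Module.toAddMonoidEnd R V r, Subring.subset_closure (Or.inl ⟨r, rfl⟩)⟩ :
        R1 (Module.toAddMonoidEnd R V) S) v
  have hcomm : ∀ f g : Module.End (R1 (Module.toAddMonoidEnd R V) S) V, f * g = g * f := by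
    intro f g
    ext v
    have := hS _ (hKS f) _ (hKS g)
    exact congrArg (fun F : AddMonoid.End V => F v) this.eq
  have hcent : ∀ s ∈ Submonoid.closure S, ∀ a ∈ R1 (Module.toAddMonoidEnd R V) S, s * a = a * s := by
    have h1 : ∀ s ∈ S, ∀ a ∈ R1 (Module.toAddMonoidEnd R V) S, s * a = a * s := by
      intro s hs a ha
      have : R1 (Module.toAddMonoidEnd R V) S ≤ Subring.centralizer {s} := by
        unfold R1
        rw [Subring.closure_le]
        rintro x (⟨r, rfl⟩ | hx)
        · rw [SetLike.mem_coe, Subring.mem_centralizer_iff]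
          intro y hy
          rw [Set.mem_singleton_iff] at hy
          rw [hy]
          exact hρ s hs r
        · rw [SetLike.mem_coe, Subring.mem_centralizer_iff]
          intro y hy
          rw [Set.mem_singleton_iff] at hy
          rw [hy]
          exact hS s hs x hx
      exact Subring.mem_centralizer_iff.1 (this ha) s rfl
    intro s hs a ha
    have : Submonoid.closure S ≤ Submonoid.centralizer {a} := by
      rw [Submonoid.closure_le]
      intro t ht
      rw [SetLike.mem_coe, Submonoid.mem_centralizer_iff]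
      rintro _ rfl
      exact (h1 t ht _ ha).symm
    exact ((Submonoid.mem_centralizer_iff.1 (this hs)) a rfl).symm
  have hccomm : ∀ s ∈ (Submonoid.closure S : Set (AddMonoid.End V)),
      ∀ t ∈ (Submonoid.closure S : Set (AddMonoid.End V)), Commute s t := by
    intro s hs t ht
    refine hcent s hs t ?_
    have : Submonoid.closure S ≤ (R1 (Module.toAddMonoidEnd R V) S).toSubmonoid := by
      rw [Submonoid.closure_le]
      intro x hx
      exact Subring.subset_closure (Or.inr hx)
    exact this ht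
  let inst : Field (Module.End (R1 (Module.toAddMonoidEnd R V) S) V) := KField S hcomm
  obtain ⟨e, φ, he, hspan, hker⟩ := @abs_rep R _ V _
    (Module.End (R1 (Module.toAddMonoidEnd R V) S) V) inst
    (Module.End.applyModule) m c hc (Module.toAddMonoidEnd R V)
    (R1 (Module.toAddMonoidEnd R V) S)
    (fun r => Subring.subset_closure (Or.inl ⟨r, rfl⟩))
    (fun T s => by
      obtain ⟨a, ha⟩ := jacobson_density (R := R1 (Module.toAddMonoidEnd R V) S) T s
      exact ⟨a.1, a.2, ha⟩)
    (fun l a ha v => (l.map_smul (⟨a, ha⟩ : R1 (Module.toAddMonoidEnd R V) S) v).symm)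
    (fun x hx => MI_ext hR (Module.toAddMonoidEnd R V) (Submonoid.closure S) hccomm
      (fun s hs r => hcent s hs _ (Subring.subset_closure (Or.inl ⟨r, rfl⟩))) x
      (fun i => R1_span _ S hρ _ (hx i)))
    (Submonoid.closure S)
    (fun a ha => R1_span _ S hρ a ha)
    (fun s hs => ⟨{ toFun := s, map_add' := fun x y => map_add _ _ _,
                    map_smul' := fun a v => by
                      have := hcent s hs a.1 a.2
                      exact congrArg (fun F : AddMonoid.End V => F v) this }, fun v => rfl⟩)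
  exact ⟨_, inst, e, φ, he, hspan, hker⟩

/-- **Kaplansky** -/
theorem MI_Cls (hc : c 1 = 1) (hR : MI m c R) : Cls m R := by
  intro I hI
  have hs : IsSimpleModule R (R ⧸ I) := isSimpleModule_iff_isCoatom.2 (Ideal.isMaximal_def.1 hI)
  obtain ⟨L, inst, e, φ, he, hspan, hker⟩ := kap (V := R ⧸ I) hc hR
  refine ⟨L, inst, e, φ, he, hspan, ?_, ?_⟩
  · intro r hr
    rw [RingHom.mem_ker, hker] at hr
    have h1 := congrArg (fun F : AddMonoid.End (R ⧸ I) => F (Submodule.Quotient.mk (1 : R))) hr
    have h2 : Submodule.Quotient.mk (p := I) (r • (1 : R)) = 0 := h1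
    rw [Submodule.Quotient.mk_eq_zero, smul_eq_mul, mul_one] at h2
    exact h2
  · intro K hK hKI r hr
    rw [RingHom.mem_ker, hker]
    ext v
    obtain ⟨x, rfl⟩ := Submodule.Quotient.mk_surjective _ v
    show Submodule.Quotient.mk (p := I) (r • x) = 0
    rw [Submodule.Quotient.mk_eq_zero, smul_eq_mul]
    exact hKI (K.mul_mem_right _ hr)

end kap

end Pool.Agent.W5h54.EN
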