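import Pool.Agent.W5h54.EN.Elem

set_option autoImplicit false

/-!
Reduction of matrices congruent to `1` modulo an ideal to diagonal form by elementary operations.
-/

namespace Pool.Agent.W5h54.EN

open Matrix

section red

variable {ι : Type*} [DecidableEq ι] [Fintype ι] {R : Type*} [Ring R]

/-- The congruence subgroup of an ideal. -/
def Gam (ι : Type*) [DecidableEq ι] [Fintype ι] {R : Type*} [Ring R] (N : Ideal R)
    [N.IsTwoSided] : Subgroup (Matrix ι ι R)ˣ := (gmap ι (Ideal.Quotient.mk N)).ker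

lemma mem_Gam (N : Ideal R) [N.IsTwoSided] (h : (Matrix ι ι R)ˣ) :
    h ∈ Gam ι N ↔ ∀ i j, (h : Matrix ι ι R) i j - (1 : Matrix ι ι R) i j ∈ N := by
  unfold Gam
  rw [MonoidHom.mem_ker, Units.ext_iff, ← Matrix.ext_iff]
  simp only [gmap_val, Units.val_one, Matrix.map_apply]
  refine forall_congr' fun i => forall_congr' fun j => ?_
  have : (1 : Matrix ι ι (R ⧸ N)) i j = Ideal.Quotient.mk N ((1 : Matrix ι ι R) i j) := by
    by_cases hij : i = j
    · subst hij; simp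
    · simp [hij]
  rw [this, Ideal.Quotient.eq]

lemma Gam_off (N : Ideal R) [N.IsTwoSided] (h : (Matrix ι ι R)ˣ) (hh : h ∈ Gam ι N) (i j : ι)
    (hij : i ≠ j) : (h : Matrix ι ι R) i j ∈ N := by
  have := (mem_Gam N h).1 hh i j
  simpa [hij] using this

lemma Gam_diag (N : Ideal R) [N.IsTwoSided] (h : (Matrix ι ι R)ˣ) (hh : h ∈ Gam ι N) (i : ι) :
    (h : Matrix ι ι R) i i - 1 ∈ N := by
  have := (mem_Gam N h).1 hh i i
  simpa using this

instance Gam_normal (N : Ideal R) [N.IsTwoSided] : (Gam ι N).Normal := by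
  unfold Gam; infer_instance

lemma Gam_mono {N N' : Ideal R} [N.IsTwoSided] [N'.IsTwoSided] (h : N ≤ N') :
    Gam ι N ≤ Gam ι N' := fun x hx => (mem_Gam N' x).2 fun i j => h ((mem_Gam N x).1 hx i j)

lemma EG_le_Gam (N : Ideal R) [N.IsTwoSided] : EG ι (N : Set R) ≤ Gam ι N := by
  unfold EG
  rw [Subgroup.closure_le]
  rintro g ⟨i, j, hij, r, hr, rfl⟩
  show _ ∈ Gam ι N
  rw [mem_Gam]
  intro a b
  rw [tv_val, Matrix.add_apply, add_sub_cancel_left, single_apply]
  split_ifs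
  · exact hr
  · exact N.zero_mem

lemma Gam_map {S : Type*} [Ring S] (f : R →+* S) (N : Ideal R) [N.IsTwoSided] (N' : Ideal S)
    [N'.IsTwoSided] (hf : ∀ r ∈ N, f r ∈ N') (h : (Matrix ι ι R)ˣ) (hh : h ∈ Gam ι N) :
    gmap ι f h ∈ Gam ι N' := by
  rw [mem_Gam] at hh ⊢
  intro i j
  have := hf _ (hh i j)
  rw [map_sub] at this
  have e : (1 : Matrix ι ι S) i j = f ((1 : Matrix ι ι R) i j) := by
    rw [Matrix.one_apply, Matrix.one_apply]
    split_ifs <;> simp
  rw [e]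
  exact this

/-- the rows and columns in `s` are diagonal -/
def Red (s : Finset ι) (h : Matrix ι ι R) : Prop := ∀ i ∈ s, ∀ j, j ≠ i → h i j = 0 ∧ h j i = 0

lemma colsum_mul (k : ι) (v : ι → R) (s : Finset ι) (M : Matrix ι ι R) (a b : ι) :
    ((∑ i ∈ s, single i k (v i)) * M) a b = if a ∈ s then v a * M k b else 0 := by
  rw [Matrix.sum_mul, Matrix.sum_apply]
  rw [Finset.sum_congr rfl (g := fun i => if a = i then v a * M k b else 0)]
  · rw [Finset.sum_ite_eq]
  · intro i _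
    by_cases h : a = i
    · subst h; simp
    · simp [h]

lemma mul_rowsum (k : ι) (v : ι → R) (s : Finset ι) (M : Matrix ι ι R) (a b : ι) :
    (M * (∑ i ∈ s, single k i (v i))) a b = if b ∈ s then M a k * v b else 0 := by
  rw [Matrix.mul_sum, Matrix.sum_apply]
  rw [Finset.sum_congr rfl (g := fun i => if b = i then M a k * v b else 0)]
  · rw [Finset.sum_ite_eq]
  · intro i _
    by_cases h : b = i
    · subst h; simp
    · simp [h]

lemma red_step (N : Ideal R) [N.IsTwoSided] (h : (Matrix ι ι R)ˣ) (hh : h ∈ Gam ι N)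
    (s : Finset ι) (k : ι) (hk : k ∉ s) (hr : Red s (h : Matrix ι ι R))
    (hu : IsUnit ((h : Matrix ι ι R) k k)) :
    ∃ e ∈ EG ι (N : Set R), ∃ e' ∈ EG ι (N : Set R),
      Red (insert k s) ((e * h * e' : (Matrix ι ι R)ˣ) : Matrix ι ι R) := by
  obtain ⟨p, hp⟩ := hu
  obtain ⟨c, hc, hc'⟩ := col_mem (N : Set R) k
    (fun i => -((h : Matrix ι ι R) i k * ((p⁻¹ : Rˣ) : R))) (Finset.univ.erase k)
    (Finset.notMem_erase _ _) (fun i hi => N.neg_mem (N.mul_mem_right _
      (Gam_off N h hh i k (Finset.ne_of_mem_erase hi))))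
  have e1 : ∀ a b, ((c * h : (Matrix ι ι R)ˣ) : Matrix ι ι R) a b = (h : Matrix ι ι R) a b +
      if a ≠ k then -((h : Matrix ι ι R) a k * ((p⁻¹ : Rˣ) : R)) * (h : Matrix ι ι R) k b
      else 0 := by
    intro a b
    rw [Units.val_mul, hc', Matrix.add_mul, Matrix.add_apply, colsum_mul, Matrix.one_mul]
    simp
  set h3 : (Matrix ι ι R)ˣ := c * h with hh3
  have h3k : ∀ b, (h3 : Matrix ι ι R) k b = (h : Matrix ι ι R) k b := by
    intro b; rw [e1]; simp
  have h3c : ∀ a, a ≠ k → (h3 : Matrix ι ι R) a k = 0 := by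
    intro a ha; rw [e1, if_pos ha, ← hp, neg_mul, Units.inv_mul_cancel_right]; simp
  have h3G : h3 ∈ Gam ι N := mul_mem (EG_le_Gam N hc) hh
  obtain ⟨r, hr1, hr'⟩ := row_mem (N : Set R) k
    (fun j => -(((p⁻¹ : Rˣ) : R) * (h3 : Matrix ι ι R) k j)) (Finset.univ.erase k)
    (Finset.notMem_erase _ _) (fun i hi => N.neg_mem (N.mul_mem_left _
      (Gam_off N h3 h3G k i (Finset.ne_of_mem_erase hi).symm)))
  have e2 : ∀ a b, ((h3 * r : (Matrix ι ι R)ˣ) : Matrix ι ι R) a b = (h3 : Matrix ι ι R) a b +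
      if b ≠ k then (h3 : Matrix ι ι R) a k * -(((p⁻¹ : Rˣ) : R) * (h3 : Matrix ι ι R) k b)
      else 0 := by
    intro a b
    rw [Units.val_mul, hr', Matrix.mul_add, Matrix.add_apply, mul_rowsum, Matrix.mul_one]
    simp
  refine ⟨c, hc, r, hr1, ?_⟩
  rw [← hh3]
  intro i hi j hj
  rw [e2, e2]
  rcases Finset.mem_insert.1 hi with rfl | hi
  · rw [if_pos hj, if_neg (by simp), h3c j hj, h3k i, ← hp, mul_neg, Units.mul_inv_cancel_left]
    simp
  · have hik : i ≠ k := fun h => hk (h ▸ hi)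
    have A : ∀ b, (h3 : Matrix ι ι R) i b = (h : Matrix ι ι R) i b := by
      intro b
      rw [e1, if_pos hik, (hr i hi k hik.symm).1]; simp
    have B : ∀ a, (h3 : Matrix ι ι R) a i = (h : Matrix ι ι R) a i := by
      intro a
      rw [e1, (hr i hi k hik.symm).2]; simp
    rw [A k, (hr i hi k hik.symm).1, A j, (hr i hi j hj).1, B j, (hr i hi j hj).2, B k,
      (hr i hi k hik.symm).2]
    simp

/-- a unit which is a diagonal matrix -/
lemma diag_unit (h : (Matrix ι ι R)ˣ) (hr : Red Finset.univ (h : Matrix ι ι R)) :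
    ∃ u : ι → Rˣ, h = dg u := by
  have hd : ∀ i j, i ≠ j → (h : Matrix ι ι R) i j = 0 := fun i j hij =>
    (hr i (Finset.mem_univ _) j hij.symm).1
  have h1 : ∀ i, (h : Matrix ι ι R) i i * ((h⁻¹ : (Matrix ι ι R)ˣ) : Matrix ι ι R) i i = 1 := by
    intro i
    have := congrFun (congrFun (Units.mul_inv h) i) i
    rw [Matrix.mul_apply, Finset.sum_eq_single i, Matrix.one_apply_eq] at this
    · exact this
    · intro b _ hb; rw [hd i b hb.symm, zero_mul]
    · simp
  have h2 : ∀ i, ((h⁻¹ : (Matrix ι ι R)ˣ) : Matrix ι ι R) i i * (h : Matrix ι ι R) i i = 1 := by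
    intro i
    have := congrFun (congrFun (Units.inv_mul h) i) i
    rw [Matrix.mul_apply, Finset.sum_eq_single i, Matrix.one_apply_eq] at this
    · exact this
    · intro b _ hb; rw [hd b i hb, mul_zero]
    · simp
  refine ⟨fun i => ⟨_, _, h1 i, h2 i⟩, ?_⟩
  ext1
  ext i j
  rw [dg_val, diagonal_apply]
  split_ifs with hij
  · subst hij; rfl
  · exact hd i j hij

theorem red_main (N : Ideal R) [N.IsTwoSided]
    (piv : ∀ h ∈ Gam ι N, ∀ (s : Finset ι) (k : ι), k ∉ s → Red s (h : Matrix ι ι R) →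
      ∃ e ∈ EG ι (N : Set R), Red s ((e * h : (Matrix ι ι R)ˣ) : Matrix ι ι R) ∧
        IsUnit (((e * h : (Matrix ι ι R)ˣ) : Matrix ι ι R) k k))
    (h : (Matrix ι ι R)ˣ) (hh : h ∈ Gam ι N) :
    ∃ e ∈ EG ι (N : Set R), ∃ u : ι → Rˣ, (∀ i, (u i : R) - 1 ∈ N) ∧ h = e * dg u := by
  have key : ∀ s : Finset ι, ∃ e ∈ EG ι (N : Set R), ∃ e' ∈ EG ι (N : Set R),
      Red s ((e * h * e' : (Matrix ι ι R)ˣ) : Matrix ι ι R) := by
    intro s
    induction s using Finset.induction_on with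
    | empty => exact ⟨1, one_mem _, 1, one_mem _, fun i hi => absurd hi (Finset.notMem_empty _)⟩
    | insert k s hk ih =>
      obtain ⟨e, he, e', he', hr⟩ := ih
      have hG : e * h * e' ∈ Gam ι N :=
        mul_mem (mul_mem (EG_le_Gam N he) hh) (EG_le_Gam N he')
      obtain ⟨e1, he1, hr1, hu⟩ := piv _ hG s k hk hr
      have hG1 : e1 * (e * h * e') ∈ Gam ι N := mul_mem (EG_le_Gam N he1) hG
      obtain ⟨e2, he2, e3, he3, hr2⟩ := red_step N _ hG1 s k hk hr1 hu
      refine ⟨e2 * e1 * e, mul_mem (mul_mem he2 he1) he, e' * e3, mul_mem he' he3, ?_⟩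
      convert hr2 using 2
      group
  obtain ⟨e, he, e', he', hr⟩ := key Finset.univ
  obtain ⟨u, hu⟩ := diag_unit _ hr
  have hG : dg u ∈ Gam ι N := by
    rw [← hu]; exact mul_mem (mul_mem (EG_le_Gam N he) hh) (EG_le_Gam N he')
  refine ⟨e⁻¹ * (dg u * e'⁻¹ * (dg u)⁻¹), mul_mem (inv_mem he) ?_, u, ?_, ?_⟩
  · apply dg_conj_EG u _ _ _ (inv_mem he')
    intro i j r hr
    exact N.mul_mem_right _ (N.mul_mem_left _ hr)
  · intro i
    have := Gam_diag N _ hG i
    simpa using this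
  · have : h = e⁻¹ * dg u * e'⁻¹ := by rw [← hu]; group
    rw [this]; group

/-- `N` consists of quasi-regular elements. -/
def IsRad (N : Ideal R) : Prop := ∀ x ∈ N, IsUnit (1 + x)

theorem red_rad (N : Ideal R) [N.IsTwoSided] (hN : IsRad N)
    (h : (Matrix ι ι R)ˣ) (hh : h ∈ Gam ι N) :
    ∃ e ∈ EG ι (N : Set R), ∃ u : ι → Rˣ, (∀ i, (u i : R) - 1 ∈ N) ∧ h = e * dg u := by
  apply red_main N _ h hh
  intro h hh s k hk hr
  refine ⟨1, one_mem _, by simpa using hr, ?_⟩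
  have := hN _ (Gam_diag N h hh k)
  simpa using this

end red

end Pool.Agent.W5h54.EN
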