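import Pool.Agent.W5h54.EN.Red

set_option autoImplicit false

/-!
Stable range one for module-finite algebras over local rings.
-/

namespace Pool.Agent.W5h54.EN

open Matrix

/-- stable range one -/
def SR1 (A : Type*) [Ring A] : Prop := ∀ a b c : A, c * a + b = 1 → ∃ y, IsUnit (a + y * b)

lemma SR1.equiv {A B : Type*} [Ring A] [Ring B] (e : A ≃+* B) (h : SR1 B) : SR1 A := by
  intro a b c habc
  obtain ⟨y, hy⟩ := h (e a) (e b) (e c) (by rw [← map_mul, ← map_add, habc, map_one])
  refine ⟨e.symm y, ?_⟩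
  have := hy.map e.symm
  simpa using this

lemma SR1.pi {κ : Type*} {A : κ → Type*} [∀ i, Ring (A i)] (h : ∀ i, SR1 (A i)) :
    SR1 (∀ i, A i) := by
  intro a b c habc
  have := fun i => h i (a i) (b i) (c i) (congrFun habc i)
  choose y hy using this
  exact ⟨y, Pi.isUnit_iff.2 hy⟩

lemma sr1_lin {D V : Type*} [DivisionRing D] [AddCommGroup V] [Module D V]
    [FiniteDimensional D V] (a b c : V →ₗ[D] V) (h : a ∘ₗ c + b = LinearMap.id) :
    ∃ y : V →ₗ[D] V, Function.Bijective (a + b ∘ₗ y) := by
  classical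
  have hdim : Module.finrank D (LinearMap.ker a) = Module.finrank D (V ⧸ LinearMap.range a) := by
    have h1 := LinearMap.finrank_range_add_finrank_ker a
    have h2 := Submodule.finrank_quotient_add_finrank (LinearMap.range a)
    omega
  let e := LinearEquiv.ofFinrankEq (R := D) _ _ hdim
  obtain ⟨s, hs⟩ := LinearMap.exists_rightInverse_of_surjective
    ((LinearMap.range a).mkQ ∘ₗ b) (by
      rw [LinearMap.range_eq_top]
      intro q
      obtain ⟨v, rfl⟩ := Submodule.mkQ_surjective _ q
      refine ⟨v, ?_⟩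
      have hv : v = a (c v) + b v := by
        have := congrArg (fun f => f v) h
        simpa using this.symm
      show (LinearMap.range a).mkQ (b v) = _
      conv_rhs => rw [hv, map_add]
      have : (LinearMap.range a).mkQ (a (c v)) = 0 := by
        simp
      rw [this, zero_add])
  obtain ⟨p, hp⟩ := LinearMap.exists_leftInverse_of_injective (LinearMap.ker a).subtype
    (Submodule.ker_subtype _)
  refine ⟨s ∘ₗ e.toLinearMap ∘ₗ p, ?_⟩
  have hsurj : Function.Surjective (a + b ∘ₗ (s ∘ₗ e.toLinearMap ∘ₗ p)) := by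
    intro v
    set k := e.symm ((LinearMap.range a).mkQ v) with hk
    have h1 : (LinearMap.range a).mkQ (b (s (e k))) = (LinearMap.range a).mkQ v := by
      have := congrArg (fun f => f (e k)) hs
      simp only [LinearMap.comp_apply, LinearMap.id_apply] at this
      rw [this, hk, LinearEquiv.apply_symm_apply]
    have h2 : v - b (s (e k)) ∈ LinearMap.range a := by
      rw [← Submodule.Quotient.mk_eq_zero, ← Submodule.mkQ_apply, map_sub, h1, sub_self]
    obtain ⟨w, hw⟩ := h2
    have hpk : ∀ x : LinearMap.ker a, p (x : V) = x := fun x => by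
      have := congrArg (fun f => f x) hp
      simpa using this
    refine ⟨(k : V) + (w - (p w : V)), ?_⟩
    have h3 : a (k : V) = 0 := k.2
    have h4 : a (p w : V) = 0 := (p w).2
    have h5 : p ((k : V) + (w - (p w : V))) = k := by
      rw [map_add, map_sub, hpk, hpk, sub_self, add_zero]
    simp only [LinearMap.add_apply, LinearMap.comp_apply, LinearEquiv.coe_coe, h5]
    rw [map_add, map_sub, h3, h4, hw]
    abel
  exact ⟨LinearMap.injective_iff_surjective.2 hsurj, hsurj⟩

lemma SR1.matrix {D : Type*} [DivisionRing D] (n : Type*) [Fintype n] [DecidableEq n] :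
    SR1 (Matrix n n D) := by
  intro a b c habc
  have h := congrArg (fun M => Matrix.toLinearMapRight' M) habc
  simp only [map_add, Matrix.toLinearMapRight'_mul, Matrix.toLinearMapRight'_one] at h
  obtain ⟨y, hy⟩ := sr1_lin _ _ _ h
  refine ⟨Matrix.toLinearMapRight'.symm y, ?_⟩
  have e1 : Matrix.toLinearMapRight' (a + Matrix.toLinearMapRight'.symm y * b) =
      Matrix.toLinearMapRight' a + Matrix.toLinearMapRight' b ∘ₗ y := by
    rw [map_add, Matrix.toLinearMapRight'_mul, LinearEquiv.apply_symm_apply]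
  let e := LinearEquiv.ofBijective _ hy
  set M := a + Matrix.toLinearMapRight'.symm y * b
  have e2 : Matrix.toLinearMapRight' M = e.toLinearMap := by
    rw [e1]; rfl
  rw [isUnit_iff_exists_and_exists]
  constructor
  · refine ⟨Matrix.toLinearMapRight'.symm e.symm.toLinearMap, ?_⟩
    apply Matrix.toLinearMapRight'.injective
    rw [Matrix.toLinearMapRight'_mul, LinearEquiv.apply_symm_apply, e2,
      Matrix.toLinearMapRight'_one]
    ext1 x; simp
  · refine ⟨Matrix.toLinearMapRight'.symm e.symm.toLinearMap, ?_⟩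
    apply Matrix.toLinearMapRight'.injective
    rw [Matrix.toLinearMapRight'_mul, LinearEquiv.apply_symm_apply, e2,
      Matrix.toLinearMapRight'_one]
    ext1 x; simp

lemma SR1.semisimple {A : Type*} [Ring A] [IsSemisimpleRing A] : SR1 A := by
  obtain ⟨n, D, d, _, _, ⟨e⟩⟩ := IsSemisimpleRing.exists_ringEquiv_pi_matrix_divisionRing A
  exact SR1.equiv e (SR1.pi fun i => SR1.matrix _)

lemma isUnit_of_quot {A : Type*} [Ring A] (N : Ideal A) [N.IsTwoSided] (hN : IsRad N) (u : A)
    (hu : IsUnit (Ideal.Quotient.mk N u)) : IsUnit u := by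
  obtain ⟨v', hv1, hv2⟩ := isUnit_iff_exists.1 hu
  obtain ⟨v, rfl⟩ := Ideal.Quotient.mk_surjective v'
  rw [← map_mul, ← map_one (Ideal.Quotient.mk N), Ideal.Quotient.eq] at hv1 hv2
  have h1 := hN _ hv1
  have h2 := hN _ hv2
  rw [add_sub_cancel] at h1 h2
  rw [isUnit_iff_exists_and_exists]
  obtain ⟨⟨w1, hw1⟩, _⟩ := isUnit_iff_exists_and_exists.1 h1
  obtain ⟨_, ⟨w2, hw2⟩⟩ := isUnit_iff_exists_and_exists.1 h2
  exact ⟨⟨v * w1, by rw [← mul_assoc, hw1]⟩, ⟨w2 * v, by rw [mul_assoc, hw2]⟩⟩

lemma SR1.of_quot {A : Type*} [Ring A] (N : Ideal A) [N.IsTwoSided] (hN : IsRad N)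
    (h : SR1 (A ⧸ N)) : SR1 A := by
  intro a b c habc
  obtain ⟨y, hy⟩ := h (Ideal.Quotient.mk N a) (Ideal.Quotient.mk N b) (Ideal.Quotient.mk N c)
    (by rw [← map_mul, ← map_add, habc, map_one])
  obtain ⟨y, rfl⟩ := Ideal.Quotient.mk_surjective y
  refine ⟨y, isUnit_of_quot N hN _ ?_⟩
  rwa [map_add, map_mul]

/-- a left ideal with left invertible `1 + x` consists of radical elements -/
lemma isRad_of_left {A : Type*} [Ring A] (N : Ideal A)
    (h : ∀ x ∈ N, ∃ z, z * (1 + x) = 1) : IsRad N := by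
  intro x hx
  obtain ⟨z, hz⟩ := h x hx
  have hz' : z = 1 + -(z * x) := by
    rw [mul_add, mul_one] at hz
    rw [← hz]; abel
  obtain ⟨w, hw⟩ := h (-(z * x)) (N.neg_mem (N.mul_mem_left _ hx))
  rw [← hz'] at hw
  have : w = 1 + x := by
    calc w = w * (z * (1 + x)) := by rw [hz, mul_one]
      _ = 1 + x := by rw [← mul_assoc, hw, one_mul]
  rw [isUnit_iff_exists_and_exists]
  exact ⟨⟨z, by rw [← this, hw]⟩, ⟨z, hz⟩⟩

lemma isRad_of_right {A : Type*} [Ring A] (N : Ideal A) [N.IsTwoSided]
    (h : ∀ x ∈ N, ∃ z, (1 + x) * z = 1) : IsRad N := by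
  intro x hx
  obtain ⟨z, hz⟩ := h x hx
  have hz' : z = 1 + -(x * z) := by
    rw [add_mul, one_mul] at hz
    rw [← hz]; abel
  obtain ⟨w, hw⟩ := h (-(x * z)) (N.neg_mem (N.mul_mem_right _ hx))
  rw [← hz'] at hw
  have : w = 1 + x := by
    calc w = ((1 + x) * z) * w := by rw [hz, one_mul]
      _ = 1 + x := by rw [mul_assoc, hw, mul_one]
  rw [isUnit_iff_exists_and_exists]
  exact ⟨⟨z, hz⟩, ⟨z, by rw [← this, hw]⟩⟩

lemma isRad_jacobson (A : Type*) [Ring A] : IsRad (Ring.jacobson A) := by
  apply isRad_of_left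
  intro x hx
  rw [← Ideal.jacobson_bot, Ideal.mem_jacobson_iff] at hx
  obtain ⟨z, hz⟩ := hx 1
  refine ⟨z, ?_⟩
  rw [Ideal.mem_bot, mul_one, sub_eq_zero] at hz
  rw [mul_add, mul_one, add_comm, hz]

lemma SR1.artinian {A : Type*} [Ring A] [IsArtinianRing A] : SR1 A :=
  SR1.of_quot (Ring.jacobson A) (isRad_jacobson A) SR1.semisimple

/-- the integrality lemma -/
lemma isRad_of_int {B A : Type*} [CommRing B] [IsLocalRing B] [Ring A] [Algebra B A]
    (K : Ideal A) [K.IsTwoSided]
    (hK : ∀ t ∈ K, ∃ M : Submodule B A, M.FG ∧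
      ∀ a, t * a ∈ IsLocalRing.maximalIdeal B • M) : IsRad K := by
  apply isRad_of_right
  intro t ht
  obtain ⟨M, hM, hMt⟩ := hK t ht
  set W : Submodule B A := LinearMap.range (LinearMap.mulLeft B (1 + t)) with hW
  have hq : ∀ a : A, W.mkQ a = W.mkQ (-(t * a)) := by
    intro a
    rw [← sub_eq_zero, ← map_sub, Submodule.mkQ_apply, Submodule.Quotient.mk_eq_zero]
    refine ⟨a, ?_⟩
    rw [LinearMap.mulLeft_apply, add_mul, one_mul]
    abel
  have hq' : ∀ a : A, W.mkQ a ∈ IsLocalRing.maximalIdeal B • M.map W.mkQ := by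
    intro a
    rw [hq, ← Submodule.map_smul'']
    exact Submodule.mem_map_of_mem (Submodule.neg_mem _ (hMt a))
  have hbot : M.map W.mkQ = ⊥ := by
    apply Submodule.eq_bot_of_le_smul_of_le_jacobson_bot (IsLocalRing.maximalIdeal B) _
      (hM.map _)
    · rintro _ ⟨a, _, rfl⟩
      exact hq' a
    · rw [IsLocalRing.jacobson_eq_maximalIdeal]
      exact bot_ne_top
  have h1 := hq' 1
  rw [hbot, Submodule.smul_bot, Submodule.mem_bot, Submodule.mkQ_apply,
    Submodule.Quotient.mk_eq_zero] at h1
  obtain ⟨z, hz⟩ := h1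
  exact ⟨z, hz⟩

lemma SR1.finite_local {B A : Type*} [CommRing B] [IsLocalRing B] [Ring A] [Algebra B A]
    [Module.Finite B A] : SR1 A := by
  set m := IsLocalRing.maximalIdeal B
  let N : Ideal A := Ideal.map (algebraMap B A) m
  have hmap : ∀ x ∈ m, algebraMap B A x ∈ N := fun x hx => Ideal.mem_map_of_mem _ hx
  have hN2 : N.IsTwoSided := by
    constructor
    intro a b ha
    change a ∈ Submodule.span A _ at ha
    induction ha using Submodule.span_induction with
    | mem x hx =>
      obtain ⟨y, hy, rfl⟩ := hx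
      rw [Algebra.commutes]
      exact N.mul_mem_left _ (hmap y hy)
    | zero => rw [zero_mul]; exact N.zero_mem
    | add x y _ _ hx hy => rw [add_mul]; exact N.add_mem hx hy
    | smul c x _ hx => rw [smul_eq_mul, mul_assoc]; exact N.mul_mem_left _ hx
  have hNm : ∀ t ∈ N, t ∈ m • (⊤ : Submodule B A) := by
    intro t ht
    change t ∈ Submodule.span A _ at ht
    induction ht using Submodule.span_induction with
    | mem x hx =>
      obtain ⟨y, hy, rfl⟩ := hx
      rw [Algebra.algebraMap_eq_smul_one]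
      exact Submodule.smul_mem_smul hy Submodule.mem_top
    | zero => exact Submodule.zero_mem _
    | add x y _ _ hx hy => exact Submodule.add_mem _ hx hy
    | smul c x _ hx =>
      have : m • (⊤ : Submodule B A) ≤ (m • (⊤ : Submodule B A)).comap (LinearMap.mulLeft B c) := by
        rw [Submodule.smul_le]
        intro r hr n _
        show c * (r • n) ∈ m • (⊤ : Submodule B A)
        rw [Algebra.mul_smul_comm]
        exact Submodule.smul_mem_smul hr Submodule.mem_top
      exact this hx
  have hNr : IsRad N := by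
    apply isRad_of_int (B := B)
    intro t ht
    exact ⟨⊤, Module.Finite.fg_top, fun a => hNm _ (N.mul_mem_right _ ht)⟩
  apply SR1.of_quot N hNr
  let φ : B ⧸ m →+* A ⧸ N := Ideal.Quotient.lift m ((Ideal.Quotient.mk N).comp (algebraMap B A))
    (fun x hx => Ideal.Quotient.eq_zero_iff_mem.2 (hmap x hx))
  let alg1 : Algebra (B ⧸ m) (A ⧸ N) := RingHom.toAlgebra' φ (by
    intro c x
    obtain ⟨c, rfl⟩ := Ideal.Quotient.mk_surjective c
    obtain ⟨x, rfl⟩ := Ideal.Quotient.mk_surjective x
    show Ideal.Quotient.mk N _ * _ = _ * Ideal.Quotient.mk N _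
    rw [← map_mul, ← map_mul, Algebra.commutes])
  have : IsArtinianRing (A ⧸ N) := by
    have hfin : Module.Finite (B ⧸ m) (A ⧸ N) := by
      obtain ⟨s, hs⟩ := (Module.Finite.fg_top : (⊤ : Submodule B A).FG)
      classical
      refine ⟨⟨s.image (Ideal.Quotient.mk N), ?_⟩⟩
      rw [eq_top_iff]
      rintro x -
      obtain ⟨x, rfl⟩ := Ideal.Quotient.mk_surjective x
      have hx : x ∈ Submodule.span B (s : Set A) := by rw [hs]; trivial
      induction hx using Submodule.span_induction with
      | mem x hx =>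
        apply Submodule.subset_span
        simp only [Finset.coe_image]
        exact ⟨x, hx, rfl⟩
      | zero => rw [map_zero]; exact Submodule.zero_mem _
      | add x y _ _ hx hy => rw [map_add]; exact Submodule.add_mem _ hx hy
      | smul c x _ hx =>
        have : Ideal.Quotient.mk N (c • x) = (Ideal.Quotient.mk m c) • Ideal.Quotient.mk N x := by
          rw [Algebra.smul_def, map_mul]
          rfl
        rw [this]
        exact Submodule.smul_mem _ _ hx
    let : Field (B ⧸ m) := Ideal.Quotient.field m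
    have : IsArtinian (B ⧸ m) (A ⧸ N) := inferInstance
    exact isArtinian_of_tower (B ⧸ m) this
  exact SR1.artinian

section red
variable {ι : Type*} [DecidableEq ι] [Fintype ι] {A : Type*} [Ring A]

lemma SR1.red (hA : SR1 A) (g : (Matrix ι ι A)ˣ) : ∃ e ∈ E ι A, ∃ u : ι → Aˣ, g = e * dg u := by
  have hall : ∀ h : (Matrix ι ι A)ˣ, h ∈ Gam ι (⊤ : Ideal A) := by
    intro h
    rw [mem_Gam]
    intro i j
    exact Submodule.mem_top
  obtain ⟨e, he, u, _, hu⟩ := red_main (⊤ : Ideal A) (by
    intro h _ s k hk hr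
    have hsum : ∑ i, ((h⁻¹ : (Matrix ι ι A)ˣ) : Matrix ι ι A) k i * (h : Matrix ι ι A) i k = 1 := by
      have := congrFun (congrFun (Units.inv_mul h) k) k
      rwa [Matrix.mul_apply, Matrix.one_apply_eq] at this
    set c : ι → A := fun i => ((h⁻¹ : (Matrix ι ι A)ˣ) : Matrix ι ι A) k i with hc
    set t : Finset ι := Finset.univ \ (insert k s) with ht
    have hkt : k ∉ t := by simp [ht]
    have h1 : c k * (h : Matrix ι ι A) k k + ∑ i ∈ t, c i * (h : Matrix ι ι A) i k = 1 := by
      rw [← hsum, ← Finset.sum_sdiff (Finset.subset_univ (insert k s)), add_comm]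
      congr 1
      rw [Finset.sum_insert hk]
      rw [Finset.sum_eq_zero (s := s), add_zero]
      intro i hi
      rw [(hr i hi k (fun h => hk (h ▸ hi))).1, mul_zero]
    obtain ⟨y, hy⟩ := hA _ _ _ h1
    obtain ⟨e, he, he'⟩ := row_mem (⊤ : Ideal A) k (fun i => y * c i) t hkt
      (fun i _ => Submodule.mem_top)
    have hrow : ∀ a b, ((e * h : (Matrix ι ι A)ˣ) : Matrix ι ι A) a b = (h : Matrix ι ι A) a b +
        if a = k then ∑ i ∈ t, y * c i * (h : Matrix ι ι A) i b else 0 := by
      intro a b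
      rw [Units.val_mul, he', Matrix.add_mul, Matrix.one_mul, Matrix.add_apply, Matrix.sum_mul,
        Matrix.sum_apply]
      congr 1
      split_ifs with hak
      · subst hak
        refine Finset.sum_congr rfl fun i _ => ?_
        simp
      · refine Finset.sum_eq_zero fun i _ => ?_
        simp [hak]
    refine ⟨e, he, ?_, ?_⟩
    · intro j hj b hbj
      have hjk : j ≠ k := fun h => hk (h ▸ hj)
      rw [hrow, hrow, if_neg hjk, (hr j hj b hbj).1, (hr j hj b hbj).2]
      refine ⟨by simp, ?_⟩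
      rw [zero_add]
      split_ifs
      · refine Finset.sum_eq_zero fun i hi => ?_
        have hij : i ≠ j := by
          rintro rfl
          simp [ht, hj] at hi
        rw [(hr j hj i hij).2, mul_zero]
      · rfl
    · rw [hrow, if_pos rfl]
      convert hy using 2
      rw [Finset.mul_sum]
      refine Finset.sum_congr rfl fun i _ => ?_
      rw [mul_assoc]) g (hall g)
  exact ⟨e, EG_le_E _ he, u, hu⟩

end red

end Pool.Agent.W5h54.EN
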